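import Mathlib
import Pool.Agent.Lib.MP_ec946a_sda.Level

/-!
# LR, row R1: a sharper rounding of the levels on graphs with few large singular values
-/

set_option autoImplicit false

namespace Pool.Agent.MP_ec946a.SDA

open Finset

section dec3

variable {n q : ℕ} {w : EE n} {x y : Fin q → EE n}

/-- the cubes over a fibre with at most two elements -/
lemma fibre_cubes (π : Fin q → Fin q)
    (hπ : ∀ b, (univ.filter fun a => π a = b).card ≤ 2)
    (hF : ∀ b, ∑ a ∈ univ.filter (fun a => π a = b), ‖x a‖ ^ 2 = ‖y b‖ ^ 2) (b : Fin q) :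
    ‖y b‖ ^ 3 / √2 ≤ ∑ a ∈ univ.filter (fun a => π a = b), ‖x a‖ ^ 3 := by
  have hr : √2 ^ 2 = (2 : ℝ) := Real.sq_sqrt (by norm_num)
  have hr0 : 0 < √2 := Real.sqrt_pos.mpr (by norm_num)
  have h1 : ∀ a, 3 / (2 * √2) * (‖x a‖ ^ 2 * ‖y b‖) - 1 / (4 * √2) * ‖y b‖ ^ 3 ≤ ‖x a‖ ^ 3 := by
    intro a
    have hp := norm_nonneg (x a)
    have hs := norm_nonneg (y b)
    set p := ‖x a‖
    set s := ‖y b‖
    have h2 : 0 ≤ (√2 * p - s) ^ 2 * (2 * (√2 * p) + s) := by positivity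
    have h3 : (√2 * p - s) ^ 2 * (2 * (√2 * p) + s)
        = 2 * (√2 ^ 2 * √2 * p ^ 3) - 3 * (√2 ^ 2 * p ^ 2 * s) + s ^ 3 := by ring
    rw [h3, hr] at h2
    have h4 : 3 / (2 * √2) * (p ^ 2 * s) - 1 / (4 * √2) * s ^ 3
        = (6 * p ^ 2 * s - s ^ 3) / (4 * √2) := by
      field_simp
      ring
    rw [h4, div_le_iff₀ (by positivity)]
    linarith
  have h2 := sum_le_sum (s := univ.filter fun a => π a = b) fun a _ => h1 a
  rw [sum_sub_distrib, ← mul_sum, ← sum_mul, hF, sum_const, nsmul_eq_mul] at h2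
  have h3 : ((univ.filter fun a => π a = b).card : ℝ) * (1 / (4 * √2) * ‖y b‖ ^ 3)
      ≤ 2 * (1 / (4 * √2) * ‖y b‖ ^ 3) := by
    refine mul_le_mul_of_nonneg_right ?_ (by positivity)
    exact_mod_cast hπ b
  have h4 : ‖y b‖ ^ 3 / √2
      = 3 / (2 * √2) * (‖y b‖ ^ 2 * ‖y b‖) - 2 * (1 / (4 * √2) * ‖y b‖ ^ 3) := by
    field_simp
    ring
  linarith

/-- the cubes in `U` and in `V` -/
lemma kat_ge (π : Fin q → Fin q)
    (hπ : ∀ b, (univ.filter fun a => π a = b).card ≤ 2)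
    (hF : ∀ b, ∑ a ∈ univ.filter (fun a => π a = b), ‖x a‖ ^ 2 = ‖y b‖ ^ 2) :
    kat y / √2 ≤ kat x := by
  unfold kat
  rw [← sum_fiberwise univ π fun a => ‖x a‖ ^ 3, sum_div]
  exact sum_le_sum fun b _ => fibre_cubes π hπ hF b

/-- the correlation over a satisfied constraint, sharper form -/
lemma edge_ineq3 (hx : Dec w x) (hy : Dec w y) (π : Fin q → Fin q)
    (hπ : ∀ b, (univ.filter fun a => π a = b).card ≤ 2)
    (hF : ∀ b, ∑ a ∈ univ.filter (fun a => π a = b), ‖x a‖ ^ 2 = ‖y b‖ ^ 2)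
    (hP : ∀ a, inner ℝ (x a) (y (π a)) = ‖x a‖ ^ 2) :
    (1 - kat y ^ 2) / √2 ≤ ∑ t, squR w x t * squR w y t := by
  have h0 : ∀ a, ‖y (π a)‖ = 0 → ‖x a‖ = 0 := by
    intro a h
    have h1 := hP a
    rw [norm_eq_zero.mp h, inner_zero_right] at h1
    exact pow_eq_zero_iff two_ne_zero |>.mp h1.symm
  have h1 : ∑ a, ‖x a‖ ^ 3 / ‖y (π a)‖ ≤ ∑ t, squ x t * squ y t := by
    rw [squ_squ]
    refine sum_le_sum fun a _ => ?_
    have h2 := single_le_sum (s := (univ : Finset (Fin q)))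
      (f := fun b => inner ℝ (x a) (y b) ^ 2 / (‖x a‖ * ‖y b‖))
      (fun b _ => by positivity) (mem_univ (π a))
    refine le_trans (le_of_eq ?_) h2
    show _ = inner ℝ (x a) (y (π a)) ^ 2 / (‖x a‖ * ‖y (π a)‖)
    rw [hP a]
    by_cases h : ‖x a‖ = 0
    · rw [h]
      simp
    · have h3 : ‖y (π a)‖ ≠ 0 := fun h4 => h (h0 a h4)
      field_simp
  have hk1 := hy.kat_le
  -- fibrewise
  have h2 : ∀ b, ‖y b‖ ^ 2 / √2 - kat y * (‖y b‖ ^ 3 / √2)
      ≤ ∑ a ∈ univ.filter (fun a => π a = b), (‖x a‖ ^ 3 / ‖y (π a)‖ - kat y * ‖x a‖ ^ 3) := by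
    intro b
    have h3 := fibre_cubes π hπ hF b
    rcases (norm_nonneg (y b)).eq_or_lt with h | h
    · have h4 : ∀ a ∈ univ.filter (fun a => π a = b),
          ‖x a‖ ^ 3 / ‖y (π a)‖ - kat y * ‖x a‖ ^ 3 = 0 := by
        intro a ha
        rw [(mem_filter.mp ha).2]
        rw [h0 a (by rw [(mem_filter.mp ha).2]; exact h.symm)]
        simp
      rw [sum_eq_zero h4, ← h]
      simp
    · have h4 : ∑ a ∈ univ.filter (fun a => π a = b),
            (‖x a‖ ^ 3 / ‖y (π a)‖ - kat y * ‖x a‖ ^ 3)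
          = (1 / ‖y b‖ - kat y) * ∑ a ∈ univ.filter (fun a => π a = b), ‖x a‖ ^ 3 := by
        rw [mul_sum]
        refine sum_congr rfl fun a ha => ?_
        rw [(mem_filter.mp ha).2]
        ring
      have h5 : 0 ≤ 1 / ‖y b‖ - kat y := by
        have h6 : 1 ≤ 1 / ‖y b‖ := by
          rw [le_div_iff₀ h, one_mul]
          exact hy.le_one b
        linarith
      rw [h4]
      refine le_trans (le_of_eq ?_) (mul_le_mul_of_nonneg_left h3 h5)
      field_simp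
  have h3 := sum_le_sum (s := univ) fun b _ => h2 b
  rw [sum_fiberwise univ π fun a => ‖x a‖ ^ 3 / ‖y (π a)‖ - kat y * ‖x a‖ ^ 3,
    sum_sub_distrib, sum_sub_distrib, ← mul_sum, ← mul_sum, ← sum_div, ← sum_div, hy.sum_sq] at h3
  rw [squR_mul hx hy]
  have h4 : (1 - kat y ^ 2) / √2 = 1 / √2 - kat y * (kat y / √2) := by ring
  have h5 : ∑ b, ‖y b‖ ^ 3 = kat y := rfl
  have h6 : ∑ a, ‖x a‖ ^ 3 = kat x := rfl
  rw [h5, h6] at h3
  rw [h4]
  linarith

/-- the norm of the reduced tensor -/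
lemma squR_sq_eq (hx : Dec w x) : ∑ t, squR w x t ^ 2 = 1 - kat x ^ 2 := by
  have h1 := squR_mul hx hx
  rw [squ_sq hx.orth, hx.sum_sq] at h1
  rw [sum_congr rfl fun t _ => sq (squR w x t), h1]
  ring

end dec3

/-- the lower bound decreases -/
lemma mono_h {τ z ζ h : ℝ} (_hτ : 0 ≤ τ) (hz : ζ ≤ z) (hz1 : z ≤ 1) (hh : 0 < h)
    (hle : h ≤ (1 - z) / √2 - τ * √((1 - z) * (1 - z / 2))) (h0 : 0 ≤ ζ) :
    h ≤ (1 - ζ) / √2 - τ * √((1 - ζ) * (1 - ζ / 2)) := by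
  have hr : √2 ^ 2 = (2 : ℝ) := Real.sq_sqrt (by norm_num)
  have hr0 : 0 < √2 := Real.sqrt_pos.mpr (by norm_num)
  have ha2 : √(1 - z) ^ 2 = 1 - z := Real.sq_sqrt (by linarith)
  have hb2 : √(1 - z / 2) ^ 2 = 1 - z / 2 := Real.sq_sqrt (by linarith)
  have hA2 : √(1 - ζ) ^ 2 = 1 - ζ := Real.sq_sqrt (by linarith)
  have hB2 : √(1 - ζ / 2) ^ 2 = 1 - ζ / 2 := Real.sq_sqrt (by linarith)
  rw [Real.sqrt_mul (by linarith)] at hle
  rw [Real.sqrt_mul (by linarith)]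
  have haA : √(1 - z) ≤ √(1 - ζ) := Real.sqrt_le_sqrt (by linarith)
  have hbB : √(1 - z / 2) ≤ √(1 - ζ / 2) := Real.sqrt_le_sqrt (by linarith)
  have hab : √(1 - z) ≤ √(1 - z / 2) := Real.sqrt_le_sqrt (by linarith)
  have hAB : √(1 - ζ) ≤ √(1 - ζ / 2) := Real.sqrt_le_sqrt (by linarith)
  have ha0 := Real.sqrt_nonneg (1 - z)
  have hb0 := Real.sqrt_nonneg (1 - z / 2)
  set a := √(1 - z)
  set b := √(1 - z / 2)
  set A := √(1 - ζ)
  set B := √(1 - ζ / 2)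
  have e1 : (1 - z) / √2 - τ * (a * b) = a * (a / √2 - τ * b) := by
    rw [← ha2]
    ring
  have e2 : (1 - ζ) / √2 - τ * (A * B) = A * (A / √2 - τ * B) := by
    rw [← hA2]
    ring
  rw [e1] at hle
  rw [e2]
  have hpos : 0 < a * (a / √2 - τ * b) := lt_of_lt_of_le hh hle
  have ha : 0 < a := by
    rcases ha0.eq_or_lt with h1 | h1
    · rw [← h1] at hpos
      simp at hpos
    · exact h1
  have hc : 0 < a / √2 - τ * b := (mul_pos_iff_of_pos_left ha).mp hpos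
  have hb : 0 < b := lt_of_lt_of_le ha hab
  have hτ1 : τ < 1 / √2 := by
    have h1 : τ * b < a / √2 := by linarith
    have h2 : a / √2 ≤ b / √2 := div_le_div_of_nonneg_right hab hr0.le
    have h3 : τ * b < (1 / √2) * b := by
      refine lt_of_lt_of_le h1 (h2.trans (le_of_eq ?_))
      ring
    exact lt_of_mul_lt_mul_right h3 hb.le
  have hBb : B - b ≤ (A - a) / 2 := by
    have h1 : (B - b) * (B + b) = (A - a) * (A + a) / 2 := by
      nlinarith
    have h2 : (B - b) * (B + b) ≤ (A - a) / 2 * (B + b) := by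
      rw [h1]
      have : (A - a) * (A + a) ≤ (A - a) * (B + b) :=
        mul_le_mul_of_nonneg_left (by linarith) (by linarith)
      linarith
    exact le_of_mul_le_mul_right h2 (by linarith)
  have hfac : a / √2 - τ * b ≤ A / √2 - τ * B := by
    have h1 : τ * (B - b) ≤ 1 / √2 * ((A - a) / 2) :=
      mul_le_mul hτ1.le hBb (by linarith) (by positivity)
    have h2 : 1 / √2 * ((A - a) / 2) ≤ 1 / √2 * (A - a) := by
      refine mul_le_mul_of_nonneg_left ?_ (by positivity)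
      linarith
    have h3 : A / √2 - a / √2 = 1 / √2 * (A - a) := by ring
    nlinarith
  refine hle.trans ?_
  exact mul_le_mul haA hfac hc.le (by linarith)

variable {q n : ℕ} {G : Game q}

section gain3

variable {r m : ℕ} {ψ : Fin r → G.U → ℝ}

/-- the lower bound for the correlation of the reduced tensors -/
lemma gain3 {τ z h' : ℝ} (hτ : 0 ≤ τ) (hz1 : z ≤ 1) (hh : 0 < h')
    (hle : h' ≤ (1 - z) / √2 - τ * √((1 - z) * (1 - z / 2)))
    (h : ∀ i j, ∑ e, ψ i (G.src e) * ψ j (G.src e) = if i = j then (1 : ℝ) else 0)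
    (hG : ∀ (f : G.U → ℝ) (g : G.V → ℝ), (∀ i, ∑ e, f (G.src e) * ψ i (G.src e) = 0) →
        ∑ e, f (G.src e) * g (G.tgt e)
          ≤ τ * (√(∑ e, f (G.src e) ^ 2) * √(∑ e, g (G.tgt e) ^ 2)))
    (s : G.SDPSolution n)
    (hm : ∀ e b, ∑ a ∈ univ.filter (fun a => G.proj e a = b), s.x (G.src e) a = s.y (G.tgt e) b)
    (hc : ∑ e, kat (s.y (G.tgt e)) ^ 2 ≤ (Fintype.card G.E : ℝ) * z) :
    (Fintype.card G.E : ℝ) * h'
      ≤ ∑ e', ∑ e, kern ψ e' e * ∑ t, squR s.x₀ (s.x (G.src e')) t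
        * squR s.x₀ (s.y (G.tgt e)) t := by
  set N : ℝ := (Fintype.card G.E : ℝ) with hN
  have hN0 : 0 < N := by
    rw [hN]
    exact_mod_cast Fintype.card_pos
  have hr : √2 ^ 2 = (2 : ℝ) := Real.sq_sqrt (by norm_num)
  have hr0 : 0 < √2 := Real.sqrt_pos.mpr (by norm_num)
  obtain ⟨ζ, hζ⟩ : ∃ ζ : ℝ, ∑ e, kat (s.y (G.tgt e)) ^ 2 = N * ζ :=
    ⟨(∑ e, kat (s.y (G.tgt e)) ^ 2) / N, by field_simp⟩
  have hζ0 : 0 ≤ ζ := by
    have h1 : 0 ≤ N * ζ := by
      rw [← hζ]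
      exact sum_nonneg fun _ _ => sq_nonneg _
    exact nonneg_of_mul_nonneg_right h1 hN0
  have hζz : ζ ≤ z := by
    rw [hζ] at hc
    exact le_of_mul_le_mul_left hc hN0
  have hle' := mono_h hτ hζz hz1 hh hle hζ0
  have hFib : ∀ e b, ∑ a ∈ univ.filter (fun a => G.proj e a = b), ‖s.x (G.src e) a‖ ^ 2
      = ‖s.y (G.tgt e) b‖ ^ 2 := fun e b => (norm_fibre s hm e b).symm
  have h1 := expands_vec hτ h hG (fun u => squR s.x₀ (s.x u)) (fun v => squR s.x₀ (s.y v))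
  have e1 : ∑ e, ∑ t, squR s.x₀ (s.x (G.src e)) t ^ 2 ≤ N * (1 - ζ / 2) := by
    have h2 : ∀ e, ∑ t, squR s.x₀ (s.x (G.src e)) t ^ 2 ≤ 1 - kat (s.y (G.tgt e)) ^ 2 / 2 := by
      intro e
      rw [squR_sq_eq (dec_x s (G.src e))]
      have h3 := kat_ge (G.proj e) (proj_card e) (hFib e)
      have h4 : (kat (s.y (G.tgt e)) / √2) ^ 2 ≤ kat (s.x (G.src e)) ^ 2 :=
        pow_le_pow_left₀ (div_nonneg (kat_nonneg _) hr0.le) h3 2
      rw [div_pow, hr] at h4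
      linarith
    refine (sum_le_sum fun e _ => h2 e).trans (le_of_eq ?_)
    rw [sum_sub_distrib, ← sum_div, hζ, sum_const, card_univ, nsmul_eq_mul, ← hN]
    ring
  have e2 : ∑ e, ∑ t, squR s.x₀ (s.y (G.tgt e)) t ^ 2 = N * (1 - ζ) := by
    rw [sum_congr rfl fun e _ => squR_sq_eq (dec_y s (G.tgt e)), sum_sub_distrib, hζ, sum_const,
      card_univ, nsmul_eq_mul, ← hN]
    ring
  have h2 : √(∑ e, ∑ t, squR s.x₀ (s.x (G.src e)) t ^ 2)
      * √(∑ e, ∑ t, squR s.x₀ (s.y (G.tgt e)) t ^ 2) ≤ N * √((1 - ζ) * (1 - ζ / 2)) := by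
    rw [e2]
    refine (mul_le_mul_of_nonneg_right (Real.sqrt_le_sqrt e1) (Real.sqrt_nonneg _)).trans
      (le_of_eq ?_)
    have h3 : 0 ≤ 1 - ζ / 2 := by linarith
    have h4 : 0 ≤ 1 - ζ := by linarith
    rw [Real.sqrt_mul hN0.le, Real.sqrt_mul hN0.le, Real.sqrt_mul h4]
    have h5 := Real.mul_self_sqrt hN0.le
    calc √N * √(1 - ζ / 2) * (√N * √(1 - ζ)) = (√N * √N) * (√(1 - ζ) * √(1 - ζ / 2)) := by ring
      _ = N * (√(1 - ζ) * √(1 - ζ / 2)) := by rw [h5]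
  have h3 : N * ((1 - ζ) / √2) ≤ ∑ e, ∑ t, squR s.x₀ (s.x (G.src e)) t
      * squR s.x₀ (s.y (G.tgt e)) t := by
    have h4 : ∀ e, (1 - kat (s.y (G.tgt e)) ^ 2) / √2 ≤ ∑ t, squR s.x₀ (s.x (G.src e)) t
      * squR s.x₀ (s.y (G.tgt e)) t := fun e =>
      edge_ineq3 (dec_x s _) (dec_y s _) (G.proj e) (proj_card e) (hFib e) (inner_proj s hm e)
    refine le_trans (le_of_eq ?_) (sum_le_sum fun e _ => h4 e)
    rw [← sum_div, sum_sub_distrib, sum_const, card_univ, nsmul_eq_mul, ← hN, mul_div_assoc', hζ]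
    ring
  have h5 : ∑ e', ∑ e, kern ψ e' e * ∑ t, squR s.x₀ (s.x (G.src e')) t
        * squR s.x₀ (s.y (G.tgt e)) t
      = ∑ e, ∑ t, prc ψ (fun u => squR s.x₀ (s.x u) t) (G.src e)
        * squR s.x₀ (s.y (G.tgt e)) t := by
    rw [sum_comm]
    refine sum_congr rfl fun e _ => ?_
    simp only [mul_sum]
    rw [sum_comm]
    refine sum_congr rfl fun t _ => ?_
    rw [prc_eq, sum_mul]
    exact sum_congr rfl fun e' _ => by ring
  rw [h5]
  have h6 : τ * (√(∑ e, ∑ t, squR s.x₀ (s.x (G.src e)) t ^ 2)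
      * √(∑ e, ∑ t, squR s.x₀ (s.y (G.tgt e)) t ^ 2)) ≤ τ * (N * √((1 - ζ) * (1 - ζ / 2))) :=
    mul_le_mul_of_nonneg_left h2 hτ
  have h7 := h3.trans h1
  have h8 : N * h' ≤ N * ((1 - ζ) / √2 - τ * √((1 - ζ) * (1 - ζ / 2))) :=
    mul_le_mul_of_nonneg_left hle' hN0.le
  linarith

/-- the expected increase of the collision probabilities -/
lemma gain_dd3 {τ z h' : ℝ} (hτ : 0 ≤ τ) (hz1 : z ≤ 1) (hh : 0 < h')
    (hle : h' ≤ (1 - z) / √2 - τ * √((1 - z) * (1 - z / 2)))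
    (hG : G.Expands m τ) (s : G.SDPSolution n)
    (hm : ∀ e b, ∑ a ∈ univ.filter (fun a => G.proj e a = b), s.x (G.src e) a = s.y (G.tgt e) b)
    (hnn : ∀ u v a b, 0 ≤ inner ℝ (s.x u a) (s.y v b))
    (hc : ∑ e, kat (s.y (G.tgt e)) ^ 2 ≤ (Fintype.card G.E : ℝ) * z) :
    (Fintype.card G.E : ℝ) ^ 2 * h' ^ 2
      ≤ 9 * m * ∑ e', ∑ e, dd (s.x (G.src e')) (s.y (G.tgt e)) := by
  obtain ⟨r, ψ, hr, h1, h2⟩ := exists_onb hG
  have h3 := gain3 hτ hz1 hh hle h1 h2 s hm hc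
  have h5 := kern_sq ψ h1
  set N : ℝ := (Fintype.card G.E : ℝ) with hN
  have hN0 : 0 < N := by
    rw [hN]
    exact_mod_cast Fintype.card_pos
  have h6 := sum_mul_sq_le_sq_mul_sq univ (fun i : G.E × G.E => kern ψ i.1 i.2)
    (fun i => ∑ t, squR s.x₀ (s.x (G.src i.1)) t * squR s.x₀ (s.y (G.tgt i.2)) t)
  rw [Fintype.sum_prod_type, Fintype.sum_prod_type, Fintype.sum_prod_type] at h6
  have h7 : ∑ e', ∑ e, (∑ t, squR s.x₀ (s.x (G.src e')) t * squR s.x₀ (s.y (G.tgt e)) t) ^ 2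
      ≤ 9 * ∑ e', ∑ e, dd (s.x (G.src e')) (s.y (G.tgt e)) := by
    rw [mul_sum]
    refine sum_le_sum fun e' _ => ?_
    rw [mul_sum]
    refine sum_le_sum fun e _ => ?_
    exact squR_pair (dec_x s _) (dec_y s _) (fun a b => hnn _ _ a b)
  have h8 : (0 : ℝ) ≤ ∑ e', ∑ e,
      (∑ t, squR s.x₀ (s.x (G.src e')) t * squR s.x₀ (s.y (G.tgt e)) t) ^ 2 :=
    sum_nonneg fun _ _ => sum_nonneg fun _ _ => sq_nonneg _
  calc N ^ 2 * h' ^ 2 = (N * h') ^ 2 := by ring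
    _ ≤ (∑ e', ∑ e, kern ψ e' e * ∑ t, squR s.x₀ (s.x (G.src e')) t
        * squR s.x₀ (s.y (G.tgt e)) t) ^ 2 := pow_le_pow_left₀ (by positivity) h3 2
    _ ≤ (r : ℝ) * ∑ e', ∑ e,
      (∑ t, squR s.x₀ (s.x (G.src e')) t * squR s.x₀ (s.y (G.tgt e)) t) ^ 2 := by
        rw [← h5]
        exact h6
    _ ≤ (m : ℝ) * (9 * ∑ e', ∑ e, dd (s.x (G.src e')) (s.y (G.tgt e))) :=
        mul_le_mul (by exact_mod_cast hr) h7 h8 (by positivity)
    _ = 9 * m * ∑ e', ∑ e, dd (s.x (G.src e')) (s.y (G.tgt e)) := by ring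

/-- independent labels satisfy many edges if the squares of the sums of the cubes are large -/
lemma kat_sq_le_value (s : G.SDPSolution n)
    (hm : ∀ e b, ∑ a ∈ univ.filter (fun a => G.proj e a = b), s.x (G.src e) a = s.y (G.tgt e) b)
    {z : ℝ} (hc : (Fintype.card G.E : ℝ) * z ≤ ∑ e, kat (s.y (G.tgt e)) ^ 2) :
    z ≤ G.value := by
  set N : ℝ := (Fintype.card G.E : ℝ) with hN
  have hN0 : 0 < N := by
    rw [hN]
    exact_mod_cast Fintype.card_pos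
  have h2 : ∑ e, kat (s.y (G.tgt e)) ^ 2 ≤ G.value * N :=
    (sum_le_sum fun e _ => (dec_y s _).kat_sq).trans (value_ge_kap_y s hm)
  have h3 : z * N ≤ G.value * N := by linarith
  exact le_of_mul_le_mul_right h3 hN0

end gain3

section hier3

open Classical

variable {t : ℕ} (s : G.LevelSolution t)

/-- the sum of the squares of the conditional sums of the cubes in `V` -/
noncomputable def cubes2 (S : Finset ((G.U ⊕ G.V) × Fin q)) : ℝ :=
  ∑ e, (∑ b, √(s.y (insert (Sum.inr (G.tgt e), b) S) / s.y S) ^ 3) ^ 2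

/-- one step of conditioning -/
lemma step3 {m : ℕ} {τ z h : ℝ} (hτ : 0 ≤ τ) (hz1 : z ≤ 1) (hh : 0 < h)
    (hle : h ≤ (1 - z) / √2 - τ * √((1 - z) * (1 - z / 2))) (hG : G.Expands m τ)
    {S : Finset ((G.U ⊕ G.V) × Fin q)} (hS : S.card ≤ t) (hy : 0 < s.y S)
    (hc : cubes2 s S ≤ (Fintype.card G.E : ℝ) * z) :
    ∃ S', S'.card ≤ S.card + 1 ∧ 0 < s.y S' ∧
      (Fintype.card G.E : ℝ) * h ^ 2 ≤ 9 * m * (phi s S' - phi s S) := by
  obtain ⟨n, ρ, hm, hx, hv, hxv, -⟩ := exists_cond s hS hy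
  have hcard : ∀ (i : (G.U ⊕ G.V) × Fin q) (R : Finset ((G.U ⊕ G.V) × Fin q)),
      (insert i R).card ≤ R.card + 1 := fun i R => card_insert_le i R
  have hnn : ∀ u v a b, 0 ≤ inner ℝ (ρ.x u a) (ρ.y v b) := by
    intro u v a b
    rw [hxv]
    refine div_nonneg (s.nonneg _ ?_) hy.le
    have h1 := hcard (Sum.inl u, a) (insert (Sum.inr v, b) S)
    have h2 := hcard (Sum.inr v, b) S
    omega
  have hphi : phi s S = ∑ e, kap (ρ.x (G.src e)) := by
    unfold phi kap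
    refine sum_congr rfl fun e _ => sum_congr rfl fun a _ => ?_
    rw [hx]
  have hpsi : cubes2 s S = ∑ e, kat (ρ.y (G.tgt e)) ^ 2 := by
    unfold cubes2 kat
    refine sum_congr rfl fun e _ => ?_
    congr 1
    refine sum_congr rfl fun b _ => ?_
    rw [← hv, Real.sqrt_sq (norm_nonneg _)]
  have hdd := gain_dd3 hτ hz1 hh hle hG ρ hm hnn (by rw [← hpsi]; exact hc)
  set N : ℝ := (Fintype.card G.E : ℝ) with hN
  have hN0 : 0 < N := by
    rw [hN]
    exact_mod_cast Fintype.card_pos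
  -- the expected value after conditioning on the label of a vertex
  have hexp : ∀ v, ∑ b, ‖ρ.y v b‖ ^ 2 * phi s (insert (Sum.inr v, b) S)
      = ∑ e, (kap (ρ.x (G.src e)) + dd (ρ.x (G.src e)) (ρ.y v)) := by
    intro v
    have h1 : ∀ b, ‖ρ.y v b‖ ^ 2 * phi s (insert (Sum.inr v, b) S)
        = ∑ e, ∑ a, inner ℝ (ρ.x (G.src e) a) (ρ.y v b) ^ 2 / ‖ρ.y v b‖ ^ 2 := by
      intro b
      unfold phi
      rw [mul_sum]
      refine sum_congr rfl fun e _ => ?_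
      rw [mul_sum]
      refine sum_congr rfl fun a _ => ?_
      rw [hxv, hv]
      by_cases h0 : s.y (insert (Sum.inr v, b) S) = 0
      · rw [h0]
        simp
      · have hy' := hy.ne'
        field_simp
    rw [sum_congr rfl fun b _ => h1 b, sum_comm]
    refine sum_congr rfl fun e _ => ?_
    rw [sum_comm]
    exact dd_eq (dec_x ρ _) (dec_y ρ v) (fun a b => hnn _ _ a b)
  by_contra hcon
  push Not at hcon
  have hlt : ∀ (e' : G.E) (b : Fin q), 0 < ‖ρ.y (G.tgt e') b‖ ^ 2 →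
      9 * m * (phi s (insert (Sum.inr (G.tgt e'), b) S) - phi s S) < N * h ^ 2 := by
    intro e' b hb
    refine hcon _ (hcard _ _) ?_
    rw [hv] at hb
    have h1 := (div_pos_iff_of_pos_right hy).mp hb
    exact h1
  have h1 : ∑ e', ∑ b, ‖ρ.y (G.tgt e') b‖ ^ 2
      * (9 * m * (phi s (insert (Sum.inr (G.tgt e'), b) S) - phi s S))
      < ∑ e' : G.E, ∑ b, ‖ρ.y (G.tgt e') b‖ ^ 2 * (N * h ^ 2) := by
    have hle : ∀ (e' : G.E) (b : Fin q), ‖ρ.y (G.tgt e') b‖ ^ 2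
      * (9 * m * (phi s (insert (Sum.inr (G.tgt e'), b) S) - phi s S))
      ≤ ‖ρ.y (G.tgt e') b‖ ^ 2 * (N * h ^ 2) := by
      intro e' b
      rcases (sq_nonneg ‖ρ.y (G.tgt e') b‖).eq_or_lt with h0 | h0
      · rw [← h0, zero_mul, zero_mul]
      · exact mul_le_mul_of_nonneg_left (hlt e' b h0).le h0.le
    obtain ⟨e₀⟩ := G.neE
    refine sum_lt_sum (fun e' _ => sum_le_sum fun b _ => hle e' b) ⟨e₀, mem_univ _, ?_⟩
    have hex : ∃ b, 0 < ‖ρ.y (G.tgt e₀) b‖ ^ 2 := by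
      by_contra hall
      push Not at hall
      have h2 := sdp_sum_y ρ (G.tgt e₀)
      have h3 : ∑ b, ‖ρ.y (G.tgt e₀) b‖ ^ 2 ≤ 0 := sum_nonpos fun b _ => hall b
      linarith
    obtain ⟨b, hb⟩ := hex
    exact sum_lt_sum (fun b _ => hle e₀ b)
      ⟨b, mem_univ _, mul_lt_mul_of_pos_left (hlt e₀ b hb) hb⟩
  have h2 : ∑ e' : G.E, ∑ b, ‖ρ.y (G.tgt e') b‖ ^ 2 * (N * h ^ 2) = N ^ 2 * h ^ 2 := by
    simp only [← sum_mul, sdp_sum_y, one_mul, sum_const, card_univ, nsmul_eq_mul]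
    rw [← hN]
    ring
  have h3 : ∑ e', ∑ b, ‖ρ.y (G.tgt e') b‖ ^ 2
      * (9 * m * (phi s (insert (Sum.inr (G.tgt e'), b) S) - phi s S))
      = 9 * m * ∑ e', ∑ e, dd (ρ.x (G.src e')) (ρ.y (G.tgt e)) := by
    have h4 : ∀ e', ∑ b, ‖ρ.y (G.tgt e') b‖ ^ 2
        * (9 * m * (phi s (insert (Sum.inr (G.tgt e'), b) S) - phi s S))
        = 9 * m * ∑ e, dd (ρ.x (G.src e)) (ρ.y (G.tgt e')) := by
      intro e'
      have h5 : ∀ b, ‖ρ.y (G.tgt e') b‖ ^ 2
          * (9 * m * (phi s (insert (Sum.inr (G.tgt e'), b) S) - phi s S))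
          = 9 * m * (‖ρ.y (G.tgt e') b‖ ^ 2 * phi s (insert (Sum.inr (G.tgt e'), b) S)
            - ‖ρ.y (G.tgt e') b‖ ^ 2 * phi s S) := fun b => by ring
      rw [sum_congr rfl fun b _ => h5 b, ← mul_sum, sum_sub_distrib, hexp, ← sum_mul, sdp_sum_y,
        one_mul, sum_add_distrib, ← hphi, add_sub_cancel_left]
    rw [sum_congr rfl fun e' _ => h4 e', ← mul_sum, sum_comm]
  rw [h2, h3] at h1
  exact absurd hdd (not_le.mpr h1)

/-- many steps of conditioning -/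
lemma steps3 {m : ℕ} {τ z h : ℝ} (hτ : 0 ≤ τ) (hz1 : z ≤ 1) (hh : 0 < h)
    (hle : h ≤ (1 - z) / √2 - τ * √((1 - z) * (1 - z / 2))) (hG : G.Expands m τ)
    (j : ℕ) (hj : j ≤ t) :
    ∃ S : Finset ((G.U ⊕ G.V) × Fin q), S.card ≤ j ∧ 0 < s.y S ∧
      ((Fintype.card G.E : ℝ) * z ≤ cubes2 s S ∨
        j * ((Fintype.card G.E : ℝ) * h ^ 2) ≤ 9 * m * phi s S) := by
  induction j with
  | zero =>
    refine ⟨∅, by simp, by rw [s.empty]; norm_num, Or.inr ?_⟩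
    have := phi_nonneg s ∅
    rw [Nat.cast_zero, zero_mul]
    positivity
  | succ j ih =>
    obtain ⟨S, hS, hy, h1⟩ := ih (by omega)
    rcases h1 with h1 | h1
    · exact ⟨S, hS.trans (Nat.le_succ j), hy, Or.inl h1⟩
    · rcases le_total ((Fintype.card G.E : ℝ) * z) (cubes2 s S) with h2 | h2
      · exact ⟨S, hS.trans (Nat.le_succ j), hy, Or.inl h2⟩
      · obtain ⟨S', hS', hy', h3⟩ := step3 s hτ hz1 hh hle hG (by omega) hy h2
        refine ⟨S', by omega, hy', Or.inr ?_⟩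
        push_cast
        linarith

include s in
/-- **row R1**: sufficiently high levels of the hierarchy on games with few large singular
values -/
theorem value_ge_of_z {m : ℕ} {τ z h : ℝ} (hτ : 0 ≤ τ) (_hz : 0 ≤ z) (hz1 : z ≤ 1) (hh : 0 < h)
    (hle : h ≤ (1 - z) / √2 - τ * √((1 - z) * (1 - z / 2))) (hG : G.Expands m τ)
    (ht : 9 * m ≤ h ^ 2 * t) : z ≤ G.value := by
  have hr0 : 0 < √2 := Real.sqrt_pos.mpr (by norm_num)
  set N : ℝ := (Fintype.card G.E : ℝ) with hN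
  have hN0 : 0 < N := by
    rw [hN]
    exact_mod_cast Fintype.card_pos
  obtain ⟨S, hS, hy, hor⟩ := steps3 s hτ hz1 hh hle hG t le_rfl
  rw [← hN] at hor
  obtain ⟨n, ρ, hm2, hx, hv, hxv, -⟩ := exists_cond s hS hy
  rcases hor with h1 | h1
  · have hpsi : cubes2 s S = ∑ e, kat (ρ.y (G.tgt e)) ^ 2 := by
      unfold cubes2 kat
      refine sum_congr rfl fun e _ => ?_
      congr 1
      refine sum_congr rfl fun b _ => ?_
      rw [← hv, Real.sqrt_sq (norm_nonneg _)]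
    rw [hpsi] at h1
    exact kat_sq_le_value ρ hm2 h1
  · have hphi : phi s S = ∑ e, kap (ρ.x (G.src e)) := by
      unfold phi kap
      refine sum_congr rfl fun e _ => sum_congr rfl fun a _ => ?_
      rw [hx]
    have h2 := value_ge_kap ρ hm2
    rw [← hphi, ← hN] at h2
    have h3 : h ≤ 1 / √2 := by
      refine hle.trans ?_
      have h4 : 0 ≤ τ * √((1 - z) * (1 - z / 2)) := mul_nonneg hτ (Real.sqrt_nonneg _)
      have h5 : (1 - z) / √2 ≤ 1 / √2 := div_le_div_of_nonneg_right (by linarith) hr0.le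
      linarith
    -- there is at least one large singular value
    have hτ' : 0 ≤ 1 - √2 * τ := by
      have h4 : 0 < (1 - z) / √2 - τ * √((1 - z) * (1 - z / 2)) := lt_of_lt_of_le hh hle
      have hz2 : z < 1 := by
        rcases hz1.eq_or_lt with h5 | h5
        · rw [h5] at h4
          simp at h4
        · exact h5
      have h5 : (1 - z) ≤ √((1 - z) * (1 - z / 2)) := by
        refine Real.le_sqrt_of_sq_le ?_
        rw [sq]
        exact mul_le_mul_of_nonneg_left (by linarith) (by linarith)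
      have h6 : τ * (1 - z) < (1 - z) / √2 := by
        have := mul_le_mul_of_nonneg_left h5 hτ
        linarith
      have h7 : τ * (1 - z) < 1 / √2 * (1 - z) := by
        refine lt_of_lt_of_eq h6 ?_
        ring
      have h8 : τ < 1 / √2 := lt_of_mul_lt_mul_right h7 (by linarith)
      rw [lt_div_iff₀ hr0] at h8
      linarith
    have hm1 : 1 ≤ m := one_le_of_expands hG hτ'
    have hm' : (1 : ℝ) ≤ m := by exact_mod_cast hm1
    have h4 : N * (9 * m) ≤ 9 * m * phi s S := by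
      refine le_trans ?_ h1
      have h5 := mul_le_mul_of_nonneg_left ht hN0.le
      linarith
    have h5 : (9 * m) * N ≤ (9 * m) * phi s S := by linarith
    have h6 : N ≤ phi s S := le_of_mul_le_mul_left h5 (by linarith)
    have h7 : 1 * N ≤ G.value * N := by
      rw [one_mul]
      exact h6.trans h2
    have h8 : 1 ≤ G.value := le_of_mul_le_mul_right h7 hN0
    linarith

end hier3

end Pool.Agent.MP_ec946a.SDA
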