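import Mathlib
import Pool.Agent.Lib.MP_ec946a_Games.Defs

/-!
# Label cover instances and the 2-to-1 games which are locally derived from them
-/

set_option autoImplicit false

namespace Pool.Agent.MP_ec946a.LR

/-- A label cover instance (a projection game) with alphabets `A` and `B`: a bipartite constraint
instance with finite vertex sets `X`, `Y` and a nonempty finite set of edges `E` (parallel edges are
allowed).  The edge `e` joins `src e` to `tgt e` and carries the map `proj e` from `A` to `B`. -/
structure LabelCover (A B : Type) where
  X : Type
  Y : Type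
  E : Type
  [finX : Fintype X]
  [finY : Fintype Y]
  [finE : Fintype E]
  [neE : Nonempty E]
  src : E → X
  tgt : E → Y
  proj : E → A → B

attribute [instance] LabelCover.finX LabelCover.finY LabelCover.finE LabelCover.neE

variable {A B : Type}

/-- A labeling: every vertex in `X` gets a label in `A`, every vertex in `Y` gets a label in `B`. -/
abbrev LabelCover.Labeling (I : LabelCover A B) : Type := (I.X → A) × (I.Y → B)

/-- The labeling `L` satisfies the edge `e`. -/
def LabelCover.Sat (I : LabelCover A B) (L : I.Labeling) (e : I.E) : Prop :=
  I.proj e (L.1 (I.src e)) = L.2 (I.tgt e)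

/-- The value of the instance: the largest fraction of edges satisfied by one labeling. -/
noncomputable def LabelCover.value (I : LabelCover A B) : ℝ :=
  ⨆ L : I.Labeling, (Nat.card {e // I.Sat L e} : ℝ) / (Nat.card I.E : ℝ)

/-- The function `f` of the labelings of `I` depends on the labels of at most `c` vertices. -/
def LabelCover.Local (I : LabelCover A B) {α : Type} (c : ℕ) (f : I.Labeling → α) : Prop :=
  ∃ (S : Finset I.X) (T : Finset I.Y), S.card + T.card ≤ c ∧
    ∀ L L' : I.Labeling, (∀ x ∈ S, L.1 x = L'.1 x) → (∀ y ∈ T, L.2 y = L'.2 y) → f L = f L'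

/-- The 2-to-1 game `G` is `c`-locally derived from `I`: every labeling `L` of `I` can be decoded to
a labeling `x ↦ dec x L` of `G` such that the label `dec x L` of each vertex `x` of `G` depends on
the labels of at most `c` vertices of `I`, and the constraint of each edge of `G` follows from the
constraints of at most `c` edges of `I`. -/
def LabelCover.Derives (I : LabelCover A B) (c : ℕ) {q : ℕ} (G : Game q) : Prop :=
  ∃ dec : G.U ⊕ G.V → I.Labeling → Fin q,
    (∀ x, I.Local c (dec x)) ∧
    ∀ e : G.E, ∃ P : Finset I.E, P.card ≤ c ∧ ∀ L : I.Labeling, (∀ e' ∈ P, I.Sat L e') →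
      G.proj e (dec (Sum.inl (G.src e)) L) = dec (Sum.inr (G.tgt e)) L

end Pool.Agent.MP_ec946a.LR
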