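import Mathlib
import Pool.Agent.Lib.MP_ec946a_sda.Power
import Pool.Agent.Lib.LR.Defs

/-!
# LR: the rows (exact statements)

Every row is a `def Row... : Prop`; a proof of the row `RowX` is a theorem `rowX : RowX` in the file
`Lib/LR/X.lean`.
-/

set_option autoImplicit false

namespace Pool.Agent.MP_ec946a.LR

open Finset Classical

/-! ## Part 1: levels -/

/-- all but `m` singular values of the bipartite graph `(src, tgt)` are at most `σ`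
(`G.Expands m σ` is `Few G.src G.tgt m σ`) -/
def Few {E X Y : Type} [Fintype E] (src : E → X) (tgt : E → Y) (m : ℕ) (σ : ℝ) : Prop :=
  ∃ φ : Fin m → X → ℝ, ∀ (f : X → ℝ) (g : Y → ℝ), (∀ i, ∑ e, f (src e) * φ i (src e) = 0) →
    ∑ e, f (src e) * g (tgt e) ≤ σ * (√(∑ e, f (src e) ^ 2) * √(∑ e, g (tgt e) ^ 2))

/-- R2 (walk, moments, truncation): many large singular values give a function `x ≥ 0` with small
support whose average over the edges at the vertices of `Y` keeps the norm.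
Tools: `few_of_smallSets` (Rank.lean: `exists_spectral`, `walk`, `start`), `av_adj`, `sum_av_sq`.
Proof: `x_k = walk^[k] (ker src · e₀)`, `a_j = ∑ e, ker src e e₀ * walk^[j] (ker src · e₀) e`,
`a_0 = 1 / deg e₀`, `a_(j+1)^2 ≤ a_j a_(j+2)`;
`P e₀ = ∑ i ∈ S, ψ i e₀ ^ 2` (`S = {i | τ^2 < l i}`), `∑ e₀, P e₀ = S.card > m ≥ η |X|`;
`κ = η ε^2 τ^(4k) / 2`, `out e₀ = ∑ e with deg e * x_k e < κ, x_k e ^ 2`,
`∑ e₀, out e₀ ≤ κ ∑ e, 1 / deg e ≤ κ |X|`; choose `e₀` with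
`P e₀ - out e₀ / (ε^2 τ^(4k)) > η / (2 deg e₀)`;
`x u` = the value of `x_k` on the edges at `u` if `deg * x_k ≥ κ`, and `0` otherwise. -/
def RowR2 : Prop := ∀ (E X Y : Type) [Fintype E] [Nonempty E] [Fintype X] (src : E → X)
    (tgt : E → Y) (m k : ℕ) (η τ ρ ε : ℝ), 0 < η → 0 < τ → 0 < ε → ε < 1 → ε ≤ ρ →
    η * (Fintype.card X : ℝ) ≤ m →
    ρ ^ (2 * (2 * k + 1)) ≤ τ ^ (2 * (2 * k + 1)) * (η / 2) →
    ¬ Few src tgt m τ →
    ∃ (x : X → ℝ) (T : Finset X), (∀ u, 0 ≤ x u) ∧ (∀ u, u ∉ T → x u = 0) ∧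
      (T.card : ℝ) * (η * ε ^ 2 * τ ^ (4 * k)) ≤ 2 ∧
      0 < ∑ e, x (src e) ^ 2 ∧
      (ρ - ε) ^ 2 * ∑ e, x (src e) ^ 2 ≤ ∑ e, SDA.av tgt (fun e => x (src e)) e ^ 2

/-- R3 (level sets): such a function has a pair of level sets with many inner edges.
Proof: `A = ∑ x²`, `y = av tgt (x ∘ src)`, `B = ∑ y² = ∑ x y`; `M = ∑ min (x²/A) (y²/B)`,
`∑ max = 2 - M`, `√(B/A) = ∑ xy/√(AB) ≤ √(M (2 - M))`, so `M > 2r/(1+r)`, i.e. `M > r (2 - M)`; layer
cake: if `#{min > θ} ≤ r #{max > θ}` for all `θ ≥ 0` then `∑ min ≤ r ∑ max`. -/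
def RowR3 : Prop := ∀ (E X Y : Type) [Fintype E] (src : E → X) (tgt : E → Y) (r s : ℝ), 0 ≤ r →
    r < 1 → 0 < s → 4 * r < s ^ 2 * (1 + r) ^ 2 →
    ∀ (x : X → ℝ) (T : Finset X), (∀ u, 0 ≤ x u) → (∀ u, u ∉ T → x u = 0) →
      0 < ∑ e, x (src e) ^ 2 →
      s ^ 2 * ∑ e, x (src e) ^ 2 ≤ ∑ e, SDA.av tgt (fun e => x (src e)) e ^ 2 →
      ∃ (A : Finset X) (B : Set Y), A ⊆ T ∧
        r * ((univ.filter fun e => src e ∈ A ∨ tgt e ∈ B).card : ℝ)
          < ((univ.filter fun e => src e ∈ A ∧ tgt e ∈ B).card : ℝ)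

/-- R4a (labels of a cluster): one labeling satisfies all edges at a small set of vertices of one
side. (Build `S = {(inl u, LU u) | u ∈ A}` with `0 < y S` by induction with `sum`; then
for every `v` some `b` with `0 < y (insert (inr v, b) S)`; by `edge` all edges between `A` and `v`
are satisfied.) -/
def RowR4a : Prop := ∀ (q : ℕ) (G : Game q) (t : ℕ), Nonempty (G.LevelSolution t) →
    (∀ A : Finset G.U, A.card ≤ t + 1 → ∃ (LU : G.U → Fin q) (LV : G.V → Fin q),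
      ∀ e, G.src e ∈ A → G.proj e (LU (G.src e)) = LV (G.tgt e)) ∧
    (∀ B : Finset G.V, B.card ≤ t + 1 → ∃ (LU : G.U → Fin q) (LV : G.V → Fin q),
      ∀ e, G.tgt e ∈ B → G.proj e (LU (G.src e)) = LV (G.tgt e))

/-- R4b (cutting clusters one after the other; as `exists_labeling_of_parts` in Power.lean, strong
induction on the set of the remaining edges) -/
def RowR4b : Prop := ∀ (q : ℕ) (G : Game q) (v : ℝ), 0 ≤ v → 0 < q →
    (∀ (F : Finset G.E) (hF : F.Nonempty), v ≤ (G.sub F hF).value ∨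
      ∃ (A : Set G.U) (B : Set G.V) (LU : G.U → Fin q) (LV : G.V → Fin q),
        (∀ e ∈ F, G.src e ∈ A → G.tgt e ∈ B → G.proj e (LU (G.src e)) = LV (G.tgt e)) ∧
        v * ((F.filter fun e => G.src e ∈ A ∨ G.tgt e ∈ B).card : ℝ)
          < ((F.filter fun e => G.src e ∈ A ∧ G.tgt e ∈ B).card : ℝ)) →
    v ≤ G.value

/-- RB (the levels theorem with parameters; from R1-R4b) -/
def RowB : Prop := ∀ (q : ℕ) (G : Game q) (t : ℕ), Nonempty (G.LevelSolution t) →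
    ∀ (η τ ρ ε z h : ℝ) (m k : ℕ), 0 < η → 0 < τ → 0 < ε → ε < 1 → ε < ρ → 0 ≤ z → z < 1 →
      0 < h →
      h ≤ (1 - z) / √2 - τ * √((1 - z) * (1 - z / 2)) →
      4 * z < (ρ - ε) ^ 2 * (1 + z) ^ 2 →
      η * (min (Nat.card G.U) (Nat.card G.V) : ℝ) ≤ m →
      9 * m ≤ h ^ 2 * t →
      ρ ^ (2 * (2 * k + 1)) ≤ τ ^ (2 * (2 * k + 1)) * (η / 2) →
      2 ≤ (η * ε ^ 2 * τ ^ (4 * k)) * (t + 1) →
      z ≤ G.value

/-- RA (numbers: from RB with `τ = 17/25`, `ρ = 629/1000` (so `τ/ρ = 40/37`), `ε = 4/10000`,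
`z = 1/8`, `h = 1/400`, `η = 2/16^i`, `k = 9 i`, `16^i ≤ μ^(1/8) < 16^(i+1)`, `m = ⌈η μ⌉`;
`(40/37)^36 > 16`, `16 (25/17)^36 < 16^7`, `(6286/10000)^2 > 32/81`) -/
def RowA : Prop := ∀ (q : ℕ) (G : Game q) (t : ℕ), Nonempty (G.LevelSolution t) →
    10 ^ 8 * (min (Nat.card G.U) (Nat.card G.V) : ℝ) ^ (7 / 8 : ℝ) ≤ t → 1 / 8 ≤ G.value

/-! ## Part 2: pseudo-expectations -/

/-- `f` depends on at most `d` coordinates -/
def Jun {Y K α : Type} (d : ℕ) (f : (Y → K) → α) : Prop :=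
  ∃ T : Finset Y, T.card ≤ d ∧ ∀ z z' : Y → K, (∀ y ∈ T, z y = z' y) → f z = f z'

/-- pseudo-expectation of degree `d` on `Y → K` which satisfies the constraints `C i` -/
structure PK (Y K : Type) (d : ℕ) (ι : Type) (C : ι → Set (Y → K)) where
  E : ((Y → K) → ℝ) →ₗ[ℝ] ℝ
  one : E (fun _ => 1) = 1
  psd : ∀ (κ : Type) [Fintype κ] (f : κ → (Y → K) → ℝ), (∀ i, Jun d (f i)) →
    0 ≤ E (fun z => (∑ i, f i z) ^ 2)
  sat : ∀ (i : ι) (f : (Y → K) → ℝ), Jun (2 * d) f → E ((C i).indicator f) = E f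

/-- pseudo-expectation of degree `d` on the labelings of `I` which satisfies all edges -/
structure PE {A B : Type} (I : LabelCover A B) (d : ℕ) where
  E : (I.Labeling → ℝ) →ₗ[ℝ] ℝ
  one : E (fun _ => 1) = 1
  psd : ∀ (κ : Type) [Fintype κ] (f : κ → I.Labeling → ℝ), (∀ i, I.Local d (f i)) →
    0 ≤ E (fun L => (∑ i, f i L) ^ 2)
  sat : ∀ (e : I.E) (f : I.Labeling → ℝ), I.Local (2 * d) f →
    E ({L | I.Sat L e}.indicator f) = E f

/-- RT (transport): the levels of a locally derived game.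
`y S = E (∏ i ∈ S, if dec i.1 L = i.2 then 1 else 0)` if `S.card ≤ t + 2`, and `0` otherwise. -/
def RowT : Prop := ∀ (A B : Type) (I : LabelCover A B) (d : ℕ), Nonempty (PE I d) →
    ∀ (c t q : ℕ) (G : Game q), I.Derives c G → c * (t + 3) ≤ d → Nonempty (G.LevelSolution t)

/-- an additive character of order two of a field of characteristic two -/
structure Chr (K : Type) [Field K] [Fintype K] where
  e : K → ℝ
  zero : e 0 = 1
  add : ∀ a b, e (a + b) = e a * e b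
  sq : ∀ a, e a * e a = 1
  sum : ∀ a, a ≠ 0 → ∑ z, e (a * z) = 0

/-- RC: there is such a character (a nonzero `ZMod 2`-linear functional; `K` is a vector space over
`ZMod 2`) -/
def RowC : Prop := ∀ (K : Type) [Field K] [Fintype K] [CharP K 2], Nonempty (Chr K)

/-- the number of nonzero coordinates -/
noncomputable def wgt {Y K : Type} [Fintype Y] [Zero K] (ψ : Y → K) : ℕ :=
  (univ.filter fun y => ψ y ≠ 0).card

/-- RF (Fourier): values `s ψ` of the characters `z ↦ χ.e (∑ y, ψ y * z y)` give a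
pseudo-expectation.
`E f = ∑ ψ, fhat ψ * s ψ` with `fhat ψ = (card (Y → K))⁻¹ * ∑ z, f z * χ.e (∑ y, ψ y * z y)`;
a junta of degree `d` has `fhat ψ = 0` for `d < wgt ψ`; the transform of a product is
a convolution; the indicator of `∑ ρ y z y = b` is
`(card K)⁻¹ ∑ a, χ.e (a * b) * χ.e (∑ y, a * ρ y * z y)`. -/
def RowF : Prop := ∀ (Y K ι : Type) [Fintype Y] [Field K] [Fintype K] [CharP K 2] (χ : Chr K)
    (s : (Y → K) → ℝ) (d : ℕ) (ρ : ι → Y → K) (b : ι → K),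
    s 0 = 1 →
    (∀ x : (Y → K) → ℝ, (∀ ψ, d < wgt ψ → x ψ = 0) → 0 ≤ ∑ ψ, ∑ θ, x ψ * x θ * s (ψ + θ)) →
    (∀ i a ψ, wgt ψ ≤ 2 * d → s (ψ + fun y => a * ρ i y) = χ.e (a * b i) * s ψ) →
    Nonempty (PK Y K d ι fun i => {z | ∑ y, ρ i y * z y = b i})

/-- RG (the values of the characters): `s (φ c) = χ.e (τ c)` if `wt c ≤ 24 d + 48`, and `s ψ = 0`
for the other `ψ`. -/
def RowG : Prop := ∀ (Y K Γ ι : Type) [Fintype Y] [Field K] [Fintype K] [CharP K 2] (χ : Chr K)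
    [AddCommGroup Γ] (φ : Γ →+ (Y → K)) (τ : Γ →+ K) (wt : Γ → ℕ) (d : ℕ) (ρ : ι → Y → K)
    (b : ι → K) (γ : ι → K → Γ),
    wt 0 = 0 → (∀ c, wt c = 0 → c = 0) → (∀ c c', wt (c + c') ≤ wt c + wt c') →
    (∀ c, wt (-c) = wt c) →
    (∀ c, wt c ≤ 48 * d + 96 → wt c ≤ 6 * wgt (φ c)) →
    (∀ i a, (φ (γ i a)) = fun y => a * ρ i y) → (∀ i a, τ (γ i a) = a * b i) →
    (∀ i a, wt (γ i a) ≤ 3) → (∀ i, wgt (ρ i) ≤ 3) →
    ∃ s : (Y → K) → ℝ, s 0 = 1 ∧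
      (∀ x : (Y → K) → ℝ, (∀ ψ, d < wgt ψ → x ψ = 0) → 0 ≤ ∑ ψ, ∑ θ, x ψ * x θ * s (ψ + θ)) ∧
      (∀ i a ψ, wgt ψ ≤ 2 * d → s (ψ + fun y => a * ρ i y) = χ.e (a * b i) * s ψ)

/-! ## Part 3: the instances -/

section inst

variable {W K : Type} [Fintype W] [Nonempty W] [Field K] {D : ℕ}

/-- the label cover instance: the labels of a vertex `w` in `X` are the lines `a.1 + γ * a.2`, the
edge `(w, j)` maps the line to its (shifted) value at `γ j` -/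
def inst (γ : Fin (D + 2) → K) (tau : Fin (D + 2) → W → W) (σ : W × Fin (D + 2) → K) :
    LabelCover (K × K) K where
  X := W
  Y := W
  E := W × Fin (D + 2)
  src := Prod.fst
  tgt e := tau e.2 e.1
  proj e a := a.1 + γ e.2 * a.2 + σ e

/-- the relation between the three labels `0`, `1`, `e.2` of the line at `e.1` -/
def lin (γ : Fin (D + 2) → K) (tau : Fin (D + 2) → W → W) (σ : W × Fin (D + 2) → K)
    (e : W × Fin (D + 2)) : Set (W → K) :=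
  {z | (γ 1 + γ e.2) * (z (tau 0 e.1) + σ (e.1, 0)) + (γ 0 + γ e.2) * (z (tau 1 e.1) + σ (e.1, 1))
    + (γ 0 + γ 1) * (z (tau e.2 e.1) + σ e) = 0}

end inst

/-- RV (value): union bound over the shifts.  First the version of `exists_sigma`
(Games/Value.lean) for shifts: if `card Λ * (card E).choose s < card K ^ s` there is `σ : E → K` with
fewer than `s` edges `e` such that `x l e + σ e = y l e`, for every `l`. -/
def RowV : Prop := ∀ (W K : Type) [Fintype W] [Nonempty W] [Field K] [Fintype K] (D : ℕ)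
    (γ : Fin (D + 2) → K) (tau : Fin (D + 2) → W → W) (ε : ℝ), 0 < ε → ε ≤ 1 →
    6 < ε * (D + 2) → (Real.exp 1 / ε) ^ 2 ≤ (Fintype.card K : ℝ) →
    ∃ σ : W × Fin (D + 2) → K, (inst γ tau σ).value ≤ ε

/-- RS1 (sparse sets of constraints): a combination of the dual words `c (w, ·)` (every nonzero
dual word has at least three nonzero coordinates) has many nonzero coordinates. -/
def RowS1 : Prop := ∀ (W K : Type) [Fintype W] [Field K] (D : ℕ)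
    (γ : Fin (D + 2) → K), Function.Injective γ → ∀ (tau : Fin (D + 2) → W → W)
    (c : W × Fin (D + 2) → K), (∀ w, ∑ j, c (w, j) = 0) → (∀ w, ∑ j, γ j * c (w, j) = 0) →
    11 * wgt c ≤ 12 * (((univ.filter fun e => c e ≠ 0).image Prod.fst).card
      + ((univ.filter fun e => c e ≠ 0).image
        (fun e : W × Fin (D + 2) => tau e.2 e.1)).card) →
    wgt c ≤ 6 * wgt (fun y => ∑ e ∈ univ.filter (fun e : W × Fin (D + 2) => tau e.2 e.1 = y), c e)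

/-- RSp (sparse graphs; from `exists_sparse` in Games/Graph.lean with `K = 11`, `R = 0`:
`(verts Prod.fst tgt F).card = (F.image Prod.fst).card + (F.image tgt).card ≤ 2 * F.card`) -/
def RowSp : Prop := ∀ D : ℕ, 1 ≤ D → ∃ C N : ℕ, 0 < C ∧ 0 < N ∧ ∀ n, 0 < n →
    ∃ (W : Type) (_ : Fintype W) (tau : Fin D → W → W), Fintype.card W = C * n ∧
      ∀ F : Finset (W × Fin D), N * F.card ≤ n →
        11 * F.card ≤ 12 * ((F.image Prod.fst).card + (F.image fun e => tau e.2 e.1).card)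

/-- RS2 (the pseudo-expectation of the instances; from RC, RF, RG, RS1) -/
def RowS2 : Prop := ∀ (W K : Type) [Fintype W] [Nonempty W] [Field K] [Fintype K] [CharP K 2]
    (D : ℕ) (γ : Fin (D + 2) → K), Function.Injective γ → ∀ (tau : Fin (D + 2) → W → W)
    (σ : W × Fin (D + 2) → K) (d : ℕ),
    (∀ F : Finset (W × Fin (D + 2)), F.card ≤ 48 * d + 96 →
      11 * F.card ≤ 12 * ((F.image Prod.fst).card + (F.image fun e => tau e.2 e.1).card)) →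
    Nonempty (PK W K d (W × Fin (D + 2)) (lin γ tau σ))

/-- RI (interpolation): `z ↦ (the line through the values at γ 0, γ 1, z)` -/
def RowI : Prop := ∀ (W K : Type) [Fintype W] [Nonempty W] [Field K] [CharP K 2]
    (D : ℕ) (γ : Fin (D + 2) → K), Function.Injective γ → ∀ (tau : Fin (D + 2) → W → W)
    (σ : W × Fin (D + 2) → K) (d : ℕ), Nonempty (PK W K (2 * d) (W × Fin (D + 2)) (lin γ tau σ)) →
    Nonempty (PE (inst γ tau σ) d)

/-- RJ (the instances; from RSp, RV, RS2, RI and `GaloisField 2 b`: `D' + 2 = ⌊6 / ε⌋₊ + 1`,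
`card K = 2 ^ b` the least power which is at least `max (D' + 2) ((e / ε) ^ 2)`) -/
def RowJ : Prop := ∀ ε : ℝ, 0 < ε → ε ≤ 1 → ∃ (K : Type) (_ : Fintype K) (_ : Nonempty K)
    (D C N : ℕ) (I : ℕ → LabelCover (K × K) K), (Fintype.card K : ℝ) ≤ 100 / ε ^ 2 ∧
    (D : ℝ) ≤ 10 / ε ∧ 0 < C ∧ 0 < N ∧
    ∀ n, 0 < n → Nat.card (I n).X = C * n ∧ Nat.card (I n).Y = C * n ∧
      Nat.card (I n).E = D * (C * n) ∧ (I n).value ≤ ε ∧
      ∀ d : ℕ, N * (d + 1) ≤ n → Nonempty (PE (I n) d)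

/-- RN (numbers) -/
def RowN : Prop := ∀ N : ℕ, 0 < N → ∃ n₀ : ℕ, ∀ n : ℕ, n₀ ≤ n →
    (∀ c : ℕ, (c : ℝ) ≤ (n : ℝ) ^ (1 / 16 : ℝ) →
      ∃ t : ℕ, N * (c * (t + 3) + 1) ≤ n ∧
        10 ^ 8 * ((n : ℝ) ^ (17 / 16 : ℝ)) ^ (7 / 8 : ℝ) ≤ t) ∧
    (∀ c : ℕ, (c : ℝ) ≤ (n : ℝ) ^ (1 / 3 : ℝ) →
      ∃ t : ℕ, N * (c * (t + 3) + 1) ≤ n ∧ 1152 * (n : ℝ) ^ (1 / 2 : ℝ) ≤ t)

/-! ## The theorem -/

/-- the statement about local reductions -/
def Final : Prop := ∀ ε : ℝ, 0 < ε → ε ≤ 1 → ∃ (A B : Type) (_ : Fintype A) (_ : Fintype B)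
    (D C : ℕ) (I : ℕ → LabelCover A B),
    (Nat.card A : ℝ) ≤ (100 / ε ^ 2) ^ 2 ∧ (Nat.card B : ℝ) ≤ 100 / ε ^ 2 ∧ (D : ℝ) ≤ 10 / ε ∧
    0 < C ∧
    (∀ n, 0 < n → Nat.card (I n).X = C * n ∧ Nat.card (I n).Y = C * n ∧
      Nat.card (I n).E = D * (C * n) ∧ (I n).value ≤ ε) ∧
    (∃ n₀ : ℕ, ∀ n, n₀ ≤ n → ∀ (q : ℕ) (G : Game q) (c : ℕ), (I n).Derives c G →
      (Nat.card G.U + Nat.card G.V : ℝ) ≤ ((C : ℝ) * n) ^ (1 + 1 / 16 : ℝ) →
      (c : ℝ) ≤ ((C : ℝ) * n) ^ (1 / 16 : ℝ) → 1 / 8 ≤ G.value) ∧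
    ∀ a : ℝ, 1 ≤ a → ∃ n₀ : ℕ, ∀ n, n₀ ≤ n → ∀ (q : ℕ) (G : Game q) (c : ℕ),
      (I n).Derives c G → (Nat.card G.U + Nat.card G.V : ℝ) ≤ ((C : ℝ) * n) ^ a →
      (c : ℝ) ≤ ((C : ℝ) * n) ^ (1 / 3 : ℝ) → (1 / (4 * a)) ^ (300 * a) ≤ G.value

end Pool.Agent.MP_ec946a.LR
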