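import Mathlib
import Pool.Agent.Lib.LR.Rows
import Pool.Agent.Lib.LR.R1

/-!
# LR, row RB: the levels theorem with parameters
-/

set_option autoImplicit false

namespace Pool.Agent.MP_ec946a.LR

open Finset Classical

lemma card_sub_eq {q : ℕ} {G : Game q} (F : Finset G.E) (hF : F.Nonempty)
    (p' : (G.sub F hF).E → Prop) (p : G.E → Prop) (i' : DecidablePred p') (i : DecidablePred p)
    (h : ∀ e, p' e ↔ p e.1) : (univ.filter p').card = (F.filter p).card := by
  have h1 : (univ.filter p') = univ.filter fun e : (G.sub F hF).E => p e.1 := by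
    ext e
    rw [mem_filter, mem_filter]
    exact and_congr Iff.rfl (h e)
  rw [h1]
  exact SDA.card_sub_filter F p

theorem rowB (h2 : RowR2) (h3 : RowR3) (h4a : RowR4a) (h4b : RowR4b) : RowB := by
  intro q G t ⟨s⟩ η τ ρ ε z h m k hη hτ hε hε1 hρ hz hz1 hh hle hr hm ht hρτ hT
  have hq : 0 < q := by
    rcases Nat.eq_zero_or_pos q with h0 | h0
    · obtain ⟨e₀⟩ := G.neE
      have h1 := s.sum ∅ (Sum.inl (G.src e₀)) (by simp)
      subst h0
      rw [s.empty] at h1
      simp at h1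
    · exact h0
  rw [Nat.card_eq_fintype_card, Nat.card_eq_fintype_card] at hm
  set κ : ℝ := η * ε ^ 2 * τ ^ (4 * k) with hκ
  have hκ0 : 0 < κ := by positivity
  have hcard : ∀ n : ℕ, (n : ℝ) * κ ≤ 2 → n ≤ t + 1 := by
    intro n hn
    have e1 : κ * n ≤ κ * (t + 1) := by
      rw [mul_comm]
      exact hn.trans hT
    have e2 := le_of_mul_le_mul_left e1 hκ0
    exact_mod_cast e2
  refine h4b q G z hz hq fun F hF => ?_
  obtain ⟨s'⟩ := SDA.sub_level s F hF
  rcases le_total (Fintype.card G.U : ℝ) (Fintype.card G.V : ℝ) with hUV | hUV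
  · rw [min_eq_left hUV] at hm
    by_cases hfew : Few (G.sub F hF).src (G.sub F hF).tgt m τ
    · exact Or.inl (SDA.value_ge_of_z s' hτ.le hz hz1.le hh hle hfew ht)
    · right
      obtain ⟨x, T, hx, hxT, hTc, hx0, hxs⟩ := h2 (G.sub F hF).E G.U G.V (G.sub F hF).src
        (G.sub F hF).tgt m k η τ ρ ε hη hτ hε hε1 hρ.le hm hρτ hfew
      obtain ⟨A, B, hA, hAB⟩ := h3 (G.sub F hF).E G.U G.V (G.sub F hF).src (G.sub F hF).tgt z
        (ρ - ε) hz hz1 (by linarith) hr x T hx hxT hx0 hxs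
      have hAc : A.card ≤ t + 1 := (card_le_card hA).trans (hcard _ hTc)
      obtain ⟨LU, LV, hL⟩ := (h4a q G t ⟨s⟩).1 A hAc
      refine ⟨A, B, LU, LV, fun e _ h5 _ => hL e h5, ?_⟩
      refine lt_of_le_of_lt (le_of_eq ?_) (lt_of_lt_of_eq hAB ?_)
      · refine congrArg (fun r : ℕ => z * (r : ℝ)) ?_
        exact (card_sub_eq F hF _ _ _ _ fun e => Iff.rfl).symm
      · refine congrArg Nat.cast ?_
        exact card_sub_eq F hF _ _ _ _ fun e => Iff.rfl
  · rw [min_eq_right hUV] at hm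
    by_cases hfew : Few (G.sub F hF).tgt (G.sub F hF).src m τ
    · exact Or.inl (SDA.value_ge_of_z s' hτ.le hz hz1.le hh hle
        (SDA.few_swap hτ.le hfew) ht)
    · right
      obtain ⟨x, T, hx, hxT, hTc, hx0, hxs⟩ := h2 (G.sub F hF).E G.V G.U (G.sub F hF).tgt
        (G.sub F hF).src m k η τ ρ ε hη hτ hε hε1 hρ.le hm hρτ hfew
      obtain ⟨B, A, hB, hAB⟩ := h3 (G.sub F hF).E G.V G.U (G.sub F hF).tgt (G.sub F hF).src z
        (ρ - ε) hz hz1 (by linarith) hr x T hx hxT hx0 hxs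
      have hBc : B.card ≤ t + 1 := (card_le_card hB).trans (hcard _ hTc)
      obtain ⟨LU, LV, hL⟩ := (h4a q G t ⟨s⟩).2 B hBc
      refine ⟨A, B, LU, LV, fun e _ _ h5 => hL e h5, ?_⟩
      refine lt_of_le_of_lt (le_of_eq ?_) (lt_of_lt_of_eq hAB ?_)
      · refine congrArg (fun r : ℕ => z * (r : ℝ)) ?_
        exact (card_sub_eq F hF _ _ _ _ fun e => or_comm).symm
      · refine congrArg Nat.cast ?_
        exact card_sub_eq F hF _ _ _ _ fun e => and_comm

end Pool.Agent.MP_ec946a.LR
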