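import Pool.Agent.Lib.LR.Rows

/-!
# LR: row RC (a character of order two)
-/

set_option autoImplicit false

namespace Pool.Agent.MP_ec946a.LR

open Finset Classical

theorem zmod2 : ∀ x : ZMod 2, x = 0 ∨ x = 1 := by decide

theorem zmod2' : (1 : ZMod 2) + 1 = 0 := by decide

theorem rowC : RowC := by
  intro K _ _ _
  have : Fact (Nat.Prime 2) := ⟨Nat.prime_two⟩
  let _ : Algebra (ZMod 2) K := ZMod.algebra K 2
  obtain ⟨f, hf⟩ : ∃ f : Module.Dual (ZMod 2) K, f 1 ≠ 0 := by
    by_contra h
    push Not at h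
    exact one_ne_zero ((Module.forall_dual_apply_eq_zero_iff (ZMod 2) (1 : K)).1 h)
  set e : K → ℝ := fun a => if f a = 0 then 1 else -1 with he
  have hadd : ∀ a b, e (a + b) = e a * e b := by
    intro a b
    simp only [he, map_add]
    rcases zmod2 (f a) with ha | ha <;> rcases zmod2 (f b) with hb | hb <;> rw [ha, hb] <;>
      simp [zmod2']
  have hsq : ∀ a, e a * e a = 1 := by
    intro a
    simp only [he]
    split_ifs <;> norm_num
  have h1 : e 1 = -1 := by simp [he, hf]
  refine ⟨⟨e, by simp [he], hadd, hsq, fun a ha => ?_⟩⟩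
  have hs : ∑ z, e (a * z) = ∑ z, e z :=
    Fintype.sum_bijective (fun z => a * z) (mulLeft_bijective₀ a ha) _ _ (fun _ => rfl)
  have ht : ∑ z, e z = ∑ z, e (1 + z) :=
    (Fintype.sum_bijective (fun z => 1 + z) (AddGroup.addLeft_bijective 1) _ _
      (fun _ => rfl)).symm
  have hu : ∑ z, e (1 + z) = - ∑ z, e z := by
    rw [← Finset.sum_neg_distrib]
    apply Finset.sum_congr rfl
    intro z _
    rw [hadd, h1]; ring
  rw [hs]
  linarith

end Pool.Agent.MP_ec946a.LR
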