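import Pool.Agent.Lib.LR.Rows

/-!
# LR, row RF: Fourier analysis on `Y → K`
-/

set_option autoImplicit false
set_option linter.unusedSectionVars false
set_option linter.unusedDecidableInType false
set_option linter.unusedFintypeInType false

namespace Pool.Agent.MP_ec946a.LR

open Finset Classical

namespace RF

variable {Y K : Type} [Fintype Y] [Field K] [Fintype K] [CharP K 2] (χ : Chr K)

/-- the characters -/
noncomputable def chi (c z : Y → K) : ℝ := χ.e (∑ y, c y * z y)

lemma chi_comm (c z : Y → K) : chi χ c z = chi χ z c := by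
  unfold chi
  congr 1
  exact sum_congr rfl fun y _ => mul_comm _ _

lemma chi_add (c c' z : Y → K) : chi χ (c + c') z = chi χ c z * chi χ c' z := by
  unfold chi
  rw [← χ.add, ← sum_add_distrib]
  congr 1
  exact sum_congr rfl fun y _ => by simp only [Pi.add_apply]; ring

lemma chi_add_right (c z z' : Y → K) : chi χ c (z + z') = chi χ c z * chi χ c z' := by
  rw [chi_comm, chi_add, chi_comm χ z, chi_comm χ z']

lemma chi_zero (z : Y → K) : chi χ 0 z = 1 := by
  simp [chi, χ.zero]

lemma chi_mul_self (c z : Y → K) : chi χ c z * chi χ c z = 1 := χ.sq _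

lemma vadd_self (c : Y → K) : c + c = 0 := by
  funext y
  exact CharTwo.add_self_eq_zero _

lemma vadd_eq_zero (c c' : Y → K) : c + c' = 0 ↔ c' = c := by
  constructor
  · intro h
    have := congrArg (fun x => c + x) h
    simp only [← add_assoc, vadd_self, zero_add, add_zero] at this
    exact this
  · rintro rfl
    exact vadd_self _

lemma exists_neg : ∃ a : K, χ.e a = -1 := by
  by_contra hcon
  push Not at hcon
  have h1 : ∀ a : K, χ.e a = 1 := by
    intro a
    have h := χ.sq a
    have h2 : (χ.e a - 1) * (χ.e a + 1) = 0 := by linarith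
    rcases mul_eq_zero.mp h2 with h3 | h3
    · linarith
    · exact absurd (by linarith) (hcon a)
  have h2 := χ.sum 1 one_ne_zero
  simp only [h1, sum_const, card_univ, nsmul_eq_mul, mul_one, Nat.cast_eq_zero] at h2
  exact Fintype.card_ne_zero h2

/-- a shift which changes the sign of a nontrivial character -/
lemma exists_shift (c : Y → K) {y₀ : Y} (h : c y₀ ≠ 0) :
    ∃ v : Y → K, chi χ c v = -1 ∧ ∀ y, y ≠ y₀ → v y = 0 := by
  obtain ⟨a, ha⟩ := exists_neg χ
  refine ⟨Pi.single y₀ ((c y₀)⁻¹ * a), ?_, fun y hy => Pi.single_eq_of_ne hy _⟩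
  unfold chi
  rw [sum_eq_single y₀]
  · rw [Pi.single_eq_same, ← mul_assoc, mul_inv_cancel₀ h, one_mul, ha]
  · intro y _ hy
    rw [Pi.single_eq_of_ne hy, mul_zero]
  · intro h'
    exact absurd (mem_univ _) h'

lemma shift_sum (g : (Y → K) → ℝ) (v : Y → K) : ∑ z, g (z + v) = ∑ z, g z :=
  Fintype.sum_equiv (Equiv.addRight v) _ _ fun _ => rfl

lemma sum_chi (c : Y → K) :
    ∑ z, chi χ c z = if c = 0 then (Fintype.card (Y → K) : ℝ) else 0 := by
  split_ifs with h
  · subst h
    simp [chi_zero]
  · obtain ⟨y₀, hy⟩ : ∃ y, c y ≠ 0 := by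
      by_contra hcon
      push Not at hcon
      exact h (funext hcon)
    obtain ⟨v, hv, -⟩ := exists_shift χ c hy
    have h1 := shift_sum (chi χ c) v
    have h2 : ∑ z, chi χ c (z + v) = -∑ z, chi χ c z := by
      rw [← sum_neg_distrib]
      refine sum_congr rfl fun z _ => ?_
      rw [chi_add_right, hv]
      ring
    linarith

/-- the Fourier coefficients -/
noncomputable def hat (f : (Y → K) → ℝ) (c : Y → K) : ℝ :=
  (∑ z, f z * chi χ c z) / (Fintype.card (Y → K) : ℝ)

lemma card_pos' : (0 : ℝ) < (Fintype.card (Y → K) : ℝ) := by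
  have : Nonempty (Y → K) := ⟨0⟩
  exact_mod_cast Fintype.card_pos

lemma hat_add (f g : (Y → K) → ℝ) (c : Y → K) : hat χ (f + g) c = hat χ f c + hat χ g c := by
  unfold hat
  rw [← add_div, ← sum_add_distrib]
  congr 1
  exact sum_congr rfl fun z _ => by simp only [Pi.add_apply]; ring

lemma hat_smul (a : ℝ) (f : (Y → K) → ℝ) (c : Y → K) : hat χ (a • f) c = a * hat χ f c := by
  unfold hat
  rw [← mul_div_assoc, mul_sum]
  congr 1
  exact sum_congr rfl fun z _ => by simp only [Pi.smul_apply, smul_eq_mul]; ring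

lemma hat_sum {κ : Type} [Fintype κ] (f : κ → (Y → K) → ℝ) (c : Y → K) :
    hat χ (fun z => ∑ i, f i z) c = ∑ i, hat χ (f i) c := by
  unfold hat
  rw [← sum_div]
  congr 1
  rw [sum_comm]
  exact sum_congr rfl fun z _ => by rw [sum_mul]

/-- Fourier inversion -/
lemma hat_inv (f : (Y → K) → ℝ) (z : Y → K) : f z = ∑ c, hat χ f c * chi χ c z := by
  have hN := card_pos' (Y := Y) (K := K)
  simp only [hat]
  have h1 : ∀ c : Y → K, (∑ z', f z' * chi χ c z') / (Fintype.card (Y → K) : ℝ) * chi χ c z
      = (∑ z', f z' * chi χ (z' + z) c) / (Fintype.card (Y → K) : ℝ) := by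
    intro c
    rw [div_mul_eq_mul_div, sum_mul]
    congr 1
    refine sum_congr rfl fun z' _ => ?_
    rw [chi_add, chi_comm χ z', chi_comm χ z]
    ring
  simp only [h1]
  rw [← sum_div, sum_comm]
  have h2 : ∀ z', ∑ c, f z' * chi χ (z' + z) c
      = if z' = z then f z' * (Fintype.card (Y → K) : ℝ) else 0 := by
    intro z'
    rw [← mul_sum, sum_chi χ]
    have h3 : z' + z = 0 ↔ z' = z := by
      rw [vadd_eq_zero]
      exact eq_comm
    simp only [h3]
    split_ifs <;> simp
  simp only [h2]
  rw [sum_ite_eq' univ z]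
  simp only [mem_univ, if_true]
  field_simp

lemma hat_jun {k : ℕ} {f : (Y → K) → ℝ} (hf : Jun k f) {c : Y → K} (hc : k < wgt c) :
    hat χ f c = 0 := by
  obtain ⟨T, hT, hfT⟩ := hf
  obtain ⟨y₀, hy, hyT⟩ : ∃ y, c y ≠ 0 ∧ y ∉ T := by
    by_contra hcon
    push Not at hcon
    have h1 : wgt c ≤ T.card := by
      unfold wgt
      exact card_le_card fun y hy => hcon y (mem_filter.mp hy).2
    omega
  unfold hat
  rw [div_eq_zero_iff]
  left
  obtain ⟨v, hv, hv2⟩ := exists_shift χ c hy
  have h1 := shift_sum (fun z => f z * chi χ c z) v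
  have h2 : ∑ z, f (z + v) * chi χ c (z + v) = -∑ z, f z * chi χ c z := by
    rw [← sum_neg_distrib]
    refine sum_congr rfl fun z _ => ?_
    rw [chi_add_right, hv, hfT (z + v) z]
    · ring
    · intro y hyT'
      have : y ≠ y₀ := fun h => hyT (h ▸ hyT')
      simp [hv2 y this]
  linarith

/-- the functional -/
noncomputable def fn (s : (Y → K) → ℝ) : ((Y → K) → ℝ) →ₗ[ℝ] ℝ where
  toFun f := ∑ c, hat χ f c * s c
  map_add' f g := by
    rw [← sum_add_distrib]
    exact sum_congr rfl fun c _ => by rw [hat_add]; ring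
  map_smul' a f := by
    rw [RingHom.id_apply, smul_eq_mul, mul_sum]
    exact sum_congr rfl fun c _ => by rw [hat_smul]; ring

lemma hat_chi (a c : Y → K) : hat χ (chi χ a) c = if c = a then 1 else 0 := by
  unfold hat
  have h1 : ∑ z, chi χ a z * chi χ c z = ∑ z, chi χ (a + c) z :=
    sum_congr rfl fun z _ => (chi_add χ a c z).symm
  rw [h1, sum_chi]
  have h2 : a + c = 0 ↔ c = a := vadd_eq_zero a c
  simp only [h2]
  have hN := card_pos' (Y := Y) (K := K)
  split_ifs
  · field_simp
  · simp

lemma fn_chi (s : (Y → K) → ℝ) (a : Y → K) : fn χ s (chi χ a) = s a := by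
  change ∑ c, hat χ (chi χ a) c * s c = s a
  simp only [hat_chi]
  simp

/-- the functional of a function of characters -/
lemma fn_sum (s : (Y → K) → ℝ) {κ : Type} [Fintype κ] (a : κ → ℝ) (c : κ → Y → K)
    (f : (Y → K) → ℝ) (hf : ∀ z, f z = ∑ i, a i * chi χ (c i) z) :
    fn χ s f = ∑ i, a i * s (c i) := by
  have h1 : f = ∑ i, a i • chi χ (c i) := by
    funext z
    rw [hf, Finset.sum_apply]
    rfl
  rw [h1, map_sum]
  exact sum_congr rfl fun i _ => by rw [map_smul, fn_chi, smul_eq_mul]

/-- the indicator of an affine hyperplane -/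
lemma ind_eq (ρ : Y → K) (b : K) (z : Y → K) :
    (if ∑ y, ρ y * z y = b then (1 : ℝ) else 0)
      = ∑ a : K, (Fintype.card K : ℝ)⁻¹ * χ.e (a * b) * chi χ (fun y => a * ρ y) z := by
  have h1 : ∀ a : K, (Fintype.card K : ℝ)⁻¹ * χ.e (a * b) * chi χ (fun y => a * ρ y) z
      = (Fintype.card K : ℝ)⁻¹ * χ.e ((b + ∑ y, ρ y * z y) * a) := by
    intro a
    rw [mul_assoc]
    congr 1
    unfold chi
    rw [← χ.add]
    congr 1
    have : ∑ y, a * ρ y * z y = a * ∑ y, ρ y * z y := by
      rw [mul_sum]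
      exact sum_congr rfl fun y _ => by ring
    rw [this]
    ring
  simp only [h1]
  rw [← mul_sum]
  have hK : (0 : ℝ) < (Fintype.card K : ℝ) := by
    exact_mod_cast Fintype.card_pos
  split_ifs with h
  · have h2 : b + ∑ y, ρ y * z y = 0 := by
      rw [h]
      exact CharTwo.add_self_eq_zero _
    simp only [h2, zero_mul, χ.zero, sum_const, card_univ, nsmul_eq_mul, mul_one]
    field_simp
  · have h2 : b + ∑ y, ρ y * z y ≠ 0 := by
      intro h3
      apply h
      have := congrArg (fun x => b + x) h3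
      simp only [← add_assoc, CharTwo.add_self_eq_zero, zero_add, add_zero] at this
      exact this
    rw [χ.sum _ h2, mul_zero]

end RF

open RF in
theorem rowF : RowF := by
  intro Y K ι _ _ _ _ χ s d ρ b h0 hpsd hsat
  refine ⟨⟨fn χ s, ?_, ?_, ?_⟩⟩
  · have h1 : (fun _ => 1 : (Y → K) → ℝ) = chi χ 0 := by
      funext z
      exact (chi_zero χ z).symm
    rw [h1, fn_chi, h0]
  · intro κ _ f hf
    set x : (Y → K) → ℝ := hat χ (fun z => ∑ i, f i z) with hx
    have hx0 : ∀ ψ, d < wgt ψ → x ψ = 0 := by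
      intro ψ hψ
      rw [hx, hat_sum]
      exact sum_eq_zero fun i _ => hat_jun χ (hf i) hψ
    have h1 := fn_sum χ s (κ := (Y → K) × (Y → K)) (fun p => x p.1 * x p.2)
      (fun p => p.1 + p.2) (fun z => (∑ i, f i z) ^ 2) (by
        intro z
        rw [Fintype.sum_prod_type]
        have h2 := hat_inv χ (fun z => ∑ i, f i z) z
        rw [h2, sq, sum_mul_sum]
        refine sum_congr rfl fun c _ => sum_congr rfl fun c' _ => ?_
        rw [chi_add, ← hx]
        ring)
    rw [h1, Fintype.sum_prod_type]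
    exact hpsd x hx0
  · intro i f hf
    have hx0 : ∀ ψ, 2 * d < wgt ψ → hat χ f ψ = 0 := fun ψ hψ => hat_jun χ hf hψ
    have h1 := fn_sum χ s (κ := (Y → K) × K)
      (fun p => hat χ f p.1 * ((Fintype.card K : ℝ)⁻¹ * χ.e (p.2 * b i)))
      (fun p => p.1 + fun y => p.2 * ρ i y)
      ({z | ∑ y, ρ i y * z y = b i}.indicator f) (by
        intro z
        have h2 : ({z | ∑ y, ρ i y * z y = b i}.indicator f) z
            = f z * (if ∑ y, ρ i y * z y = b i then (1 : ℝ) else 0) := by
          rw [Set.indicator_apply]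
          by_cases h3 : ∑ y, ρ i y * z y = b i
          · rw [if_pos h3, if_pos (show z ∈ {z | ∑ y, ρ i y * z y = b i} from h3), mul_one]
          · rw [if_neg h3, if_neg (show z ∉ {z | ∑ y, ρ i y * z y = b i} from h3), mul_zero]
        rw [h2, Fintype.sum_prod_type, ind_eq χ]
        have h3 := hat_inv χ f z
        rw [h3, sum_mul_sum]
        refine sum_congr rfl fun c _ => sum_congr rfl fun a _ => ?_
        rw [chi_add]
        ring)
    rw [h1, Fintype.sum_prod_type]
    change _ = ∑ c, hat χ f c * s c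
    refine sum_congr rfl fun c _ => ?_
    by_cases hc : wgt c ≤ 2 * d
    · have h2 : ∀ a : K, hat χ f c * ((Fintype.card K : ℝ)⁻¹ * χ.e (a * b i))
          * s (c + fun y => a * ρ i y) = (Fintype.card K : ℝ)⁻¹ * (hat χ f c * s c) := by
        intro a
        rw [hsat i a c hc]
        have := χ.sq (a * b i)
        calc hat χ f c * ((Fintype.card K : ℝ)⁻¹ * χ.e (a * b i)) * (χ.e (a * b i) * s c)
            = (Fintype.card K : ℝ)⁻¹ * (hat χ f c * s c) * (χ.e (a * b i) * χ.e (a * b i)) := by
              ring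
          _ = _ := by rw [this, mul_one]
      simp only [h2, sum_const, card_univ, nsmul_eq_mul]
      have hK : (0 : ℝ) < (Fintype.card K : ℝ) := by
        exact_mod_cast Fintype.card_pos
      field_simp
    · have h4 := hx0 c (by omega)
      simp only [h4, zero_mul, sum_const_zero]

end Pool.Agent.MP_ec946a.LR
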