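import Mathlib
import Pool.Agent.Lib.LR.Rows

/-!
# LR: the assembly
-/

set_option autoImplicit false

namespace Pool.Agent.MP_ec946a.LR

open Finset

theorem final_of (hA : RowA) (hT : RowT) (hJ : RowJ) (hN : RowN) : Final := by
  intro ε hε hε1
  obtain ⟨K, fK, neK, D, C, N, I, hK, hD, hC, hN0, hI⟩ := hJ ε hε hε1
  have hcK : (Nat.card K : ℝ) = (Fintype.card K : ℝ) := by rw [Nat.card_eq_fintype_card]
  have hC1 : (1 : ℝ) ≤ C := by exact_mod_cast hC
  obtain ⟨n₀, hn₀⟩ := hN (N * C) (Nat.mul_pos hN0 hC)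
  refine ⟨K × K, K, inferInstance, fK, D, C, I, ?_, ?_, hD, hC, fun n hn => ?_, ?_, ?_⟩
  · rw [Nat.card_prod, Nat.cast_mul, hcK, ← sq]
    exact pow_le_pow_left₀ (Nat.cast_nonneg _) hK 2
  · rw [hcK]
    exact hK
  · obtain ⟨h1, h2, h3, h4, -⟩ := hI n hn
    exact ⟨h1, h2, h3, h4⟩
  · -- almost linear size
    refine ⟨max 1 n₀, fun n hn q G c hG hcard hc => ?_⟩
    have hn1 : 0 < n := lt_of_lt_of_le one_pos ((le_max_left _ _).trans hn)
    have hnC : n₀ ≤ C * n := ((le_max_right _ _).trans hn).trans (Nat.le_mul_of_pos_left _ hC)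
    have hcast : ((C * n : ℕ) : ℝ) = (C : ℝ) * n := by push_cast; ring
    obtain ⟨t, ht1, ht2⟩ := (hn₀ (C * n) hnC).1 c (by rw [hcast]; exact hc)
    have hd : N * (c * (t + 3) + 1) ≤ n := by
      have e1 : N * C * (c * (t + 3) + 1) = C * (N * (c * (t + 3) + 1)) := by ring
      rw [e1] at ht1
      exact Nat.le_of_mul_le_mul_left ht1 hC
    obtain ⟨-, -, -, -, h5⟩ := hI n hn1
    obtain hL := hT _ _ (I n) _ (h5 _ hd) c t q G hG le_rfl
    refine hA q G t hL (le_trans ?_ ht2)
    rw [hcast]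
    refine mul_le_mul_of_nonneg_left ?_ (by norm_num)
    refine Real.rpow_le_rpow (le_min (Nat.cast_nonneg _) (Nat.cast_nonneg _)) ?_ (by norm_num)
    refine (min_le_left _ _).trans ?_
    have e2 : (1 + 1 / 16 : ℝ) = 17 / 16 := by norm_num
    rw [e2] at hcard
    have h6 : (0 : ℝ) ≤ (Nat.card G.V : ℝ) := Nat.cast_nonneg _
    linarith
  · -- polynomial size
    intro a ha
    refine ⟨max 1 n₀, fun n hn q G c hG hcard hc => ?_⟩
    have hn1 : 0 < n := lt_of_lt_of_le one_pos ((le_max_left _ _).trans hn)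
    have hnC : n₀ ≤ C * n := ((le_max_right _ _).trans hn).trans (Nat.le_mul_of_pos_left _ hC)
    have hcast : ((C * n : ℕ) : ℝ) = (C : ℝ) * n := by push_cast; ring
    obtain ⟨t, ht1, ht2⟩ := (hn₀ (C * n) hnC).2 c (by rw [hcast]; exact hc)
    have hd : N * (c * (t + 3) + 1) ≤ n := by
      have e1 : N * C * (c * (t + 3) + 1) = C * (N * (c * (t + 3) + 1)) := by ring
      rw [e1] at ht1
      exact Nat.le_of_mul_le_mul_left ht1 hC
    obtain ⟨-, -, -, -, h5⟩ := hI n hn1
    obtain ⟨s⟩ := hT _ _ (I n) _ (h5 _ hd) c t q G hG le_rfl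
    have ha0 : 0 < a := by linarith
    have h6 := SDA.value_ge_of_min s (β := 1 / (2 * a)) (by positivity)
      (by rw [div_le_one (by positivity)]; linarith) (by
        refine le_trans ?_ ht2
        refine mul_le_mul_of_nonneg_left ?_ (by norm_num)
        have h7 : (min (Nat.card G.U) (Nat.card G.V) : ℝ) ≤ ((C : ℝ) * n) ^ a := by
          refine (min_le_left _ _).trans ?_
          have h6 : (0 : ℝ) ≤ (Nat.card G.V : ℝ) := Nat.cast_nonneg _
          linarith
        have h8 : (0 : ℝ) ≤ (C : ℝ) * n := by positivity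
        refine (Real.rpow_le_rpow (le_min (Nat.cast_nonneg _) (Nat.cast_nonneg _)) h7
          (by positivity)).trans (le_of_eq ?_)
        rw [← Real.rpow_mul h8, hcast]
        congr 1
        field_simp)
    have e3 : (1 / (2 * a)) / 2 = 1 / (4 * a) := by
      field_simp
      norm_num
    have e4 : 150 / (1 / (2 * a)) = 300 * a := by
      field_simp
      norm_num
    rw [e3, e4] at h6
    exact h6

end Pool.Agent.MP_ec946a.LR
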