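import Pool.Agent.Lib.LR.Rows

/-!
# LR: the values of the characters (row RG)
-/

set_option autoImplicit false

namespace Pool.Agent.MP_ec946a.LR

open Finset Classical

namespace RG16

theorem wgt_zero {Y K : Type} [Fintype Y] [Zero K] : wgt (0 : Y → K) = 0 := by
  unfold wgt
  rw [Finset.card_eq_zero, Finset.filter_eq_empty_iff]
  intro y _ h
  exact h rfl

theorem wgt_add_le {Y K : Type} [Fintype Y] [AddZeroClass K] (ψ θ : Y → K) :
    wgt (ψ + θ) ≤ wgt ψ + wgt θ := by
  unfold wgt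
  refine le_trans (Finset.card_le_card ?_) (Finset.card_union_le _ _)
  intro y hy
  rw [Finset.mem_union, Finset.mem_filter, Finset.mem_filter]
  rw [Finset.mem_filter] at hy
  by_contra h
  push Not at h
  have h1 := h.1 (Finset.mem_univ y)
  have h2 := h.2 (Finset.mem_univ y)
  apply hy.2
  rw [Pi.add_apply, h1, h2, add_zero]

theorem wgt_smul_le {Y K : Type} [Fintype Y] [Field K] (a : K) (ψ : Y → K) :
    wgt (fun y => a * ψ y) ≤ wgt ψ := by
  unfold wgt
  refine Finset.card_le_card ?_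
  intro y hy
  rw [Finset.mem_filter] at hy ⊢
  refine ⟨hy.1, fun h => hy.2 ?_⟩
  show a * ψ y = 0
  rw [h, mul_zero]

theorem eq_sum_sq {Ω : Type} [Fintype Ω] [DecidableEq Ω] (r : Ω → Ω) (y : Ω → ℝ) :
    ∑ ψ, ∑ θ, (if r ψ = r θ then y ψ * y θ else 0) =
      ∑ ρ, (∑ ψ, if r ψ = ρ then y ψ else 0) ^ 2 := by
  symm
  calc ∑ ρ, (∑ ψ, if r ψ = ρ then y ψ else 0) ^ 2 =
      ∑ ρ, ∑ ψ, ∑ θ, (if r ψ = ρ then (if r θ = ρ then y ψ * y θ else 0) else 0) := by
        refine Finset.sum_congr rfl fun ρ _ => ?_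
        rw [sq, Finset.sum_mul_sum]
        refine Finset.sum_congr rfl fun ψ _ => Finset.sum_congr rfl fun θ _ => ?_
        split_ifs <;> simp
    _ = ∑ ψ, ∑ ρ, ∑ θ, (if r ψ = ρ then (if r θ = ρ then y ψ * y θ else 0) else 0) :=
        Finset.sum_comm
    _ = ∑ ψ, ∑ θ, ∑ ρ, (if r ψ = ρ then (if r θ = ρ then y ψ * y θ else 0) else 0) :=
        Finset.sum_congr rfl fun ψ _ => Finset.sum_comm
    _ = ∑ ψ, ∑ θ, (if r ψ = r θ then y ψ * y θ else 0) := by
        refine Finset.sum_congr rfl fun ψ _ => Finset.sum_congr rfl fun θ _ => ?_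
        rw [Finset.sum_ite_eq, if_pos (Finset.mem_univ _)]
        by_cases h : r ψ = r θ
        · rw [if_pos h, if_pos h.symm]
        · rw [if_neg h, if_neg (Ne.symm h)]

end RG16

open RG16 in
theorem rowG : RowG := by
  intro Y K Γ ι _ _ _ _ χ _ φ τ wt d ρ b γ h0 h1 h2 h3 h4 h5 h6 h7 h8
  have hsub : ∀ c c', wt (c - c') ≤ wt c + wt c' := by
    intro c c'
    rw [sub_eq_add_neg]
    refine (h2 _ _).trans ?_
    rw [h3]
  -- uniqueness
  have huniq : ∀ c c', φ c = φ c' → wt c ≤ 24 * d + 48 → wt c' ≤ 24 * d + 48 → c = c' := by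
    intro c c' hφ hc hc'
    have hz : φ (c - c') = 0 := by rw [map_sub, hφ, sub_self]
    have hw : wt (c - c') ≤ 48 * d + 96 := (hsub c c').trans (by omega)
    have := h4 _ hw
    rw [hz, wgt_zero, Nat.mul_zero, Nat.le_zero] at this
    exact sub_eq_zero.1 (h1 _ this)
  set s : (Y → K) → ℝ := fun ψ =>
    if h : ∃ c, φ c = ψ ∧ wt c ≤ 24 * d + 48 then χ.e (τ h.choose) else 0 with hs
  have hval : ∀ ψ c, φ c = ψ → wt c ≤ 24 * d + 48 → s ψ = χ.e (τ c) := by
    intro ψ c hc hw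
    have hex : ∃ c, φ c = ψ ∧ wt c ≤ 24 * d + 48 := ⟨c, hc, hw⟩
    have hch := hex.choose_spec
    have : s ψ = χ.e (τ hex.choose) := dif_pos hex
    rw [this, huniq hex.choose c (by rw [hch.1, hc]) hch.2 hw]
  have hnon : ∀ ψ, (¬ ∃ c, φ c = ψ ∧ wt c ≤ 24 * d + 48) → s ψ = 0 := fun ψ h => dif_neg h
  have hself : ∀ ψ : Y → K, ψ + ψ = 0 := by
    intro ψ
    funext y
    exact CharTwo.add_self_eq_zero (ψ y)
  have hsmall : ∀ ψ c, φ c = ψ → wt c ≤ 24 * d + 48 → ∀ n, wgt ψ ≤ n → wt c ≤ 6 * n := by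
    intro ψ c hc hw n hn
    have := h4 c (by omega)
    rw [hc] at this
    exact this.trans (by omega)
  refine ⟨s, ?_, ?_, ?_⟩
  · rw [hval 0 0 (map_zero φ) (by rw [h0]; omega), map_zero, χ.zero]
  · intro x hx
    -- the relation
    let R : Setoid {ψ : Y → K // wgt ψ ≤ d} :=
      { r := fun ψ θ => ∃ c, φ c = ψ.1 + θ.1 ∧ wt c ≤ 24 * d + 48
        iseqv :=
          { refl := fun ψ => ⟨0, by rw [map_zero, hself], by rw [h0]; omega⟩
            symm := fun {ψ θ} h => by
              obtain ⟨c, hc, hw⟩ := h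
              exact ⟨c, by rw [hc, add_comm], hw⟩
            trans := fun {ψ θ η} h h' => by
              obtain ⟨c, hc, hw⟩ := h
              obtain ⟨c', hc', hw'⟩ := h'
              refine ⟨c + c', ?_, ?_⟩
              · rw [map_add, hc, hc']
                have : ψ.1 + θ.1 + (θ.1 + η.1) = ψ.1 + (θ.1 + θ.1) + η.1 := by abel
                rw [this, hself, add_zero]
              · have e1 := hsmall _ c hc hw (2 * d) ((wgt_add_le _ _).trans (by
                  have := ψ.2; have := θ.2; omega))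
                have e2 := hsmall _ c' hc' hw' (2 * d) ((wgt_add_le _ _).trans (by
                  have := θ.2; have := η.2; omega))
                exact (h2 _ _).trans (by omega) } }
    let r : (Y → K) → (Y → K) := fun ψ =>
      if h : wgt ψ ≤ d then ((Quotient.mk R ⟨ψ, h⟩).out).1 else ψ
    have hr1 : ∀ ψ (h : wgt ψ ≤ d), ∃ c, φ c = ψ + r ψ ∧ wt c ≤ 24 * d + 48 := by
      intro ψ h
      have e : r ψ = ((Quotient.mk R ⟨ψ, h⟩).out).1 := dif_pos h
      rw [e]
      have := Quotient.exact (Quotient.out_eq (Quotient.mk R ⟨ψ, h⟩))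
      exact R.symm this
    have hr1' : ∀ ψ (h : wgt ψ ≤ d), wgt (r ψ) ≤ d := by
      intro ψ h
      have e : r ψ = ((Quotient.mk R ⟨ψ, h⟩).out).1 := dif_pos h
      rw [e]
      exact ((Quotient.mk R ⟨ψ, h⟩).out).2
    have hr2 : ∀ ψ θ (h : wgt ψ ≤ d) (h' : wgt θ ≤ d),
        (∃ c, φ c = ψ + θ ∧ wt c ≤ 24 * d + 48) → r ψ = r θ := by
      intro ψ θ h h' hc
      have e : r ψ = ((Quotient.mk R ⟨ψ, h⟩).out).1 := dif_pos h
      have e' : r θ = ((Quotient.mk R ⟨θ, h'⟩).out).1 := dif_pos h'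
      have : Quotient.mk R ⟨ψ, h⟩ = Quotient.mk R ⟨θ, h'⟩ := Quotient.sound hc
      rw [e, e', this]
    have hker : ∀ ψ θ, wgt ψ ≤ d → wgt θ ≤ d →
        s (ψ + θ) = if r ψ = r θ then s (ψ + r ψ) * s (θ + r θ) else 0 := by
      intro ψ θ h h'
      by_cases hrr : r ψ = r θ
      · rw [if_pos hrr]
        obtain ⟨c, hc, hw⟩ := hr1 ψ h
        obtain ⟨c', hc', hw'⟩ := hr1 θ h'
        rw [hval _ c hc hw, hval _ c' hc' hw', ← χ.add, ← map_add]
        refine hval _ (c + c') ?_ ?_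
        · rw [map_add, hc, hc', hrr]
          have : ψ + r θ + (θ + r θ) = ψ + θ + (r θ + r θ) := by abel
          rw [this, hself, add_zero]
        · have e1 := hsmall _ c hc hw (2 * d) ((wgt_add_le _ _).trans (by
            have := hr1' ψ h; omega))
          have e2 := hsmall _ c' hc' hw' (2 * d) ((wgt_add_le _ _).trans (by
            have := hr1' θ h'; omega))
          exact (h2 _ _).trans (by omega)
      · rw [if_neg hrr]
        exact hnon _ fun hc => hrr (hr2 ψ θ h h' hc)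
    have hsum : ∑ ψ, ∑ θ, x ψ * x θ * s (ψ + θ) =
        ∑ ψ, ∑ θ, (if r ψ = r θ then (x ψ * s (ψ + r ψ)) * (x θ * s (θ + r θ)) else 0) := by
      refine Finset.sum_congr rfl fun ψ _ => Finset.sum_congr rfl fun θ _ => ?_
      by_cases h : wgt ψ ≤ d
      · by_cases h' : wgt θ ≤ d
        · rw [hker ψ θ h h']
          split_ifs
          · ring
          · ring
        · rw [hx θ (not_le.1 h')]
          simp
      · rw [hx ψ (not_le.1 h)]
        simp
    rw [hsum, eq_sum_sq r fun ψ => x ψ * s (ψ + r ψ)]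
    exact Finset.sum_nonneg fun _ _ => sq_nonneg _
  · intro i a ψ hψ
    have hg1 := h5 i a
    have hg2 := h6 i a
    have hg3 := h7 i a
    have hρ : wgt (fun y => a * ρ i y) ≤ 3 := (wgt_smul_le a (ρ i)).trans (h8 i)
    by_cases hex : ∃ c, φ c = ψ ∧ wt c ≤ 24 * d + 48
    · obtain ⟨c, hc, hw⟩ := hex
      have hcs := hsmall ψ c hc hw (2 * d) hψ
      rw [hval ψ c hc hw]
      have := hval (ψ + fun y => a * ρ i y) (c + γ i a) (by rw [map_add, hc, hg1])
        ((h2 _ _).trans (by omega))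
      rw [this, map_add, hg2, χ.add, mul_comm]
    · rw [hnon ψ hex, mul_zero]
      refine hnon _ fun hex' => hex ?_
      obtain ⟨c, hc, hw⟩ := hex'
      have hcs := hsmall _ c hc hw (2 * d + 3) ((wgt_add_le _ _).trans (by omega))
      refine ⟨c - γ i a, ?_, ?_⟩
      · rw [map_sub, hc, hg1, add_sub_cancel_right]
      · exact (hsub _ _).trans (by omega)

end Pool.Agent.MP_ec946a.LR
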