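import Mathlib
import Pool.Agent.Lib.MP_ec946a_sda.Rank
import Pool.Agent.Lib.LR.Rows

/-!
# A graph with many large singular values has a small set of vertices which the walk hardly leaves

The function of the theorem is the distribution of a short random walk, cut off where it is small.
-/

set_option autoImplicit false

namespace Pool.Agent.MP_ec946a.SDA

open Finset Classical

variable {E X Y : Type} [Fintype E]

/-- the indicator of a vertex -/
noncomputable def ind (src : E → X) (u : X) (e : E) : ℝ := if src e = u then 1 else 0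

/-- the degree of a vertex -/
noncomputable def dg (src : E → X) (u : X) : ℝ := ((univ.filter fun e => src e = u).card : ℝ)

/-- the walk after `t` steps -/
noncomputable def GG (src : E → X) (tgt : E → Y) (t : ℕ) (u : X) : E → ℝ :=
  (walk src tgt)^[t] (ind src u)

/-- the flow between two vertices -/
noncomputable def PP (src : E → X) (tgt : E → Y) (t : ℕ) (u w : X) : ℝ :=
  ∑ e, GG src tgt t u e * ind src w e

variable {src : E → X} {tgt : E → Y}

lemma dg_nonneg (u : X) : 0 ≤ dg src u := Nat.cast_nonneg _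

lemma dg_pos {u : X} (hu : u ∈ univ.image src) : 0 < dg src u := by
  obtain ⟨e, -, rfl⟩ := mem_image.mp hu
  exact card_fibre_pos e

lemma sum_src (F : X → ℝ) : ∑ e, F (src e) = ∑ w ∈ univ.image src, dg src w * F w := by
  rw [sum_comp F src]
  refine sum_congr rfl fun w _ => ?_
  rw [nsmul_eq_mul]
  rfl

omit [Fintype E] in
lemma ind_nonneg (u : X) (e : E) : 0 ≤ ind src u e := by
  unfold ind
  split_ifs <;> norm_num

omit [Fintype E] in
lemma ind_congr (u : X) {e e' : E} (h : src e = src e') : ind src u e = ind src u e' := by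
  unfold ind
  rw [h]

lemma sum_ind (u : X) : ∑ e, ind src u e = dg src u := by
  unfold ind dg
  rw [sum_ite, sum_const_zero, add_zero, sum_const, nsmul_eq_mul, mul_one]

lemma GG_nonneg (t : ℕ) (u : X) (e : E) : 0 ≤ GG src tgt t u e := by
  unfold GG
  induction t generalizing e with
  | zero => exact ind_nonneg u e
  | succ t ih =>
    rw [Function.iterate_succ_apply']
    exact walk_nonneg ih e

lemma GG_congr (t : ℕ) (u : X) {e e' : E} (h : src e = src e') :
    GG src tgt t u e = GG src tgt t u e' := by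
  unfold GG
  cases t with
  | zero => exact ind_congr u h
  | succ t =>
    rw [Function.iterate_succ_apply']
    exact walk_congr h _

lemma sum_GG (t : ℕ) (u : X) : ∑ e, GG src tgt t u e = dg src u := by
  unfold GG
  induction t with
  | zero => exact sum_ind u
  | succ t ih => rw [Function.iterate_succ_apply', sum_walk, ih]

lemma iter_adj (t : ℕ) (f g : E → ℝ) :
    ∑ e, (walk src tgt)^[t] f e * g e = ∑ e, f e * (walk src tgt)^[t] g e := by
  induction t generalizing g with
  | zero => rfl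
  | succ t ih =>
    rw [Function.iterate_succ_apply', walk_adj, ih, ← Function.iterate_succ_apply]

lemma PP_symm (t : ℕ) (u w : X) : PP src tgt t u w = PP src tgt t w u := by
  unfold PP GG
  rw [iter_adj]
  exact sum_congr rfl fun e _ => mul_comm _ _

lemma PP_eq (t : ℕ) (u : X) (e : E) :
    PP src tgt t u (src e) = dg src (src e) * GG src tgt t u e := by
  unfold PP
  have h1 : ∀ e', GG src tgt t u e' * ind src (src e) e'
      = GG src tgt t u e * ind src (src e) e' := by
    intro e'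
    unfold ind
    by_cases h : src e' = src e
    · rw [GG_congr t u h]
    · rw [if_neg h, mul_zero, mul_zero]
  rw [sum_congr rfl fun e' _ => h1 e', ← mul_sum, sum_ind, mul_comm]

lemma PP_nonneg (t : ℕ) (u w : X) : 0 ≤ PP src tgt t u w :=
  sum_nonneg fun e _ => mul_nonneg (GG_nonneg t u e) (ind_nonneg w e)

lemma GG_eq (t : ℕ) (u : X) (e : E) :
    GG src tgt t u e = PP src tgt t u (src e) / dg src (src e) := by
  rw [PP_eq, mul_div_assoc, mul_div_cancel₀]
  exact (card_fibre_pos e).ne'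

lemma sum_PP (t : ℕ) (u : X) : ∑ w ∈ univ.image src, PP src tgt t u w = dg src u := by
  rw [← sum_GG (src := src) (tgt := tgt) t u]
  rw [sum_congr rfl fun e _ => GG_eq t u e,
    sum_src (src := src) fun w => PP src tgt t u w / dg src w]
  refine sum_congr rfl fun w hw => ?_
  rw [mul_div_cancel₀ _ (dg_pos hw).ne']

/-- two edges are reached with total probability one -/
lemma sum_sum_PP (t : ℕ) :
    ∑ u ∈ univ.image src, ∑ w ∈ univ.image src, PP src tgt t u w / dg src w
      = ((univ.image src).card : ℝ) := by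
  rw [sum_comm]
  have h1 : ∀ w ∈ univ.image src, ∑ u ∈ univ.image src, PP src tgt t u w / dg src w = 1 := by
    intro w hw
    rw [← sum_div, sum_congr rfl fun u _ => PP_symm t u w, sum_PP,
      div_self (dg_pos hw).ne']
  rw [sum_congr rfl h1, sum_const, nsmul_eq_mul, mul_one]

lemma sum_av_tgt_sq {f : E → ℝ} (hf : av src f = f) :
    ∑ e, av tgt f e ^ 2 = ∑ e, f e * walk src tgt f e := by
  rw [sum_av_sq]
  have h4 := av_adj (π := src) f (av tgt f)
  rw [hf] at h4
  rw [h4]
  unfold walk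
  rw [hf]

/-- the triangle inequality -/
lemma sqrt_sum_sq_add_le (f g : E → ℝ) :
    √(∑ e, (f e + g e) ^ 2) ≤ √(∑ e, f e ^ 2) + √(∑ e, g e ^ 2) := by
  have hf : 0 ≤ ∑ e, f e ^ 2 := sum_nonneg fun _ _ => sq_nonneg _
  have hg : 0 ≤ ∑ e, g e ^ 2 := sum_nonneg fun _ _ => sq_nonneg _
  refine Real.sqrt_le_iff.mpr ⟨by positivity, ?_⟩
  have h1 := Real.sum_mul_le_sqrt_mul_sqrt univ f g
  have h2 : ∑ e, (f e + g e) ^ 2 = ∑ e, f e ^ 2 + 2 * ∑ e, f e * g e + ∑ e, g e ^ 2 := by
    rw [mul_sum, ← sum_add_distrib, ← sum_add_distrib]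
    exact sum_congr rfl fun e _ => by ring
  rw [h2]
  nlinarith [Real.sq_sqrt hf, Real.sq_sqrt hg]

/-- moments of a probability measure on the nonnegative numbers -/
lemma moment_ratio {ι : Type} {s : Finset ι} {w l : ι → ℝ} (hw : ∀ i ∈ s, 0 ≤ w i)
    (hw1 : ∑ i ∈ s, w i = 1) (hl : ∀ i ∈ s, 0 ≤ l i) (t : ℕ) {c : ℝ} (hc : 0 ≤ c)
    (h : c ≤ ∑ i ∈ s, w i * l i ^ (2 * t + 1)) :
    c ^ ((2 * t + 1 : ℝ)⁻¹) * ∑ i ∈ s, w i * l i ^ (2 * t)
      ≤ ∑ i ∈ s, w i * l i ^ (2 * t + 1) := by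
  rcases Nat.eq_zero_or_pos t with rfl | ht
  · simp only [mul_zero, pow_zero, mul_one, Nat.cast_zero, zero_add, inv_one, Real.rpow_one] at h ⊢
    rwa [hw1, mul_one]
  have ht0 : (0 : ℝ) < t := by exact_mod_cast ht
  have h2t : (0 : ℝ) < 2 * t := by linarith
  have h2t1 : (0 : ℝ) < 2 * t + 1 := by linarith
  set p : ℝ := (2 * t + 1) / (2 * t) with hp
  have hp1 : 1 ≤ p := by
    rw [hp, le_div_iff₀ h2t]
    linarith
  have h1 := Real.rpow_arith_mean_le_arith_mean_rpow s w (fun i => l i ^ (2 * t)) hw hw1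
    (fun i hi => pow_nonneg (hl i hi) _) hp1
  have h2 : ∀ i ∈ s, w i * (l i ^ (2 * t)) ^ p = w i * l i ^ (2 * t + 1) := by
    intro i hi
    congr 1
    rw [← Real.rpow_natCast (l i) (2 * t), ← Real.rpow_mul (hl i hi),
      ← Real.rpow_natCast (l i) (2 * t + 1)]
    congr 1
    rw [hp]
    push_cast
    field_simp
  rw [sum_congr rfl h2] at h1
  set b := ∑ i ∈ s, w i * l i ^ (2 * t + 1) with hb
  set a := ∑ i ∈ s, w i * l i ^ (2 * t) with ha
  have ha0 : 0 ≤ a := sum_nonneg fun i hi => mul_nonneg (hw i hi) (pow_nonneg (hl i hi) _)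
  have hb0 : 0 ≤ b := hc.trans h
  have h3 : a ≤ b ^ (2 * t / (2 * t + 1) : ℝ) := by
    have h4 := Real.rpow_le_rpow (Real.rpow_nonneg ha0 _) h1
      (show (0 : ℝ) ≤ 2 * t / (2 * t + 1) by positivity)
    rw [← Real.rpow_mul ha0, hp] at h4
    have h5 : (2 * t + 1 : ℝ) / (2 * t) * (2 * t / (2 * t + 1)) = 1 := by
      field_simp
    rwa [h5, Real.rpow_one] at h4
  have h4 : c ^ ((2 * t + 1 : ℝ)⁻¹) ≤ b ^ ((2 * t + 1 : ℝ)⁻¹) :=
    Real.rpow_le_rpow hc h (by positivity)
  have h5 : b ^ ((2 * t + 1 : ℝ)⁻¹) * b ^ (2 * t / (2 * t + 1) : ℝ) = b := by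
    rcases hb0.eq_or_lt with h0 | h0
    · rw [← h0, Real.zero_rpow (by positivity), zero_mul]
    · rw [← Real.rpow_add h0]
      have h6 : ((2 * t + 1 : ℝ)⁻¹) + (2 * t / (2 * t + 1) : ℝ) = 1 := by
        field_simp
        ring
      rw [h6, Real.rpow_one]
  calc c ^ ((2 * t + 1 : ℝ)⁻¹) * a
      ≤ b ^ ((2 * t + 1 : ℝ)⁻¹) * b ^ (2 * t / (2 * t + 1) : ℝ) :=
        mul_le_mul h4 h3 ha0 (Real.rpow_nonneg hb0 _)
    _ = b := h5

variable [Nonempty E]

/-- A graph with more than `m` singular values above `σ` has a nonnegative function with a small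
support which loses little of its norm in a step to the other side. -/
theorem exists_cluster_fun {σ δ κ : ℝ} (hσ : 0 < σ) (hδ : 0 < δ) (hδ1 : δ < 1) (hκ : 0 < κ)
    {m t : ℕ}
    (hbad : ¬ ∃ φ : Fin m → X → ℝ, ∀ (f : X → ℝ) (g : Y → ℝ),
      (∀ i, ∑ e, f (src e) * φ i (src e) = 0) →
      ∑ e, f (src e) * g (tgt e) ≤ σ * (√(∑ e, f (src e) ^ 2) * √(∑ e, g (tgt e) ^ 2)))
    (hκ2 : 2 * κ * ((univ.image src).card : ℝ) ≤ δ ^ 2 * σ ^ (4 * t) * (m + 1)) :
    ∃ (T : Finset X) (x : X → ℝ), (T.card : ℝ) * κ ≤ 1 ∧ (∀ u, 0 ≤ x u) ∧ (∀ u, u ∉ T → x u = 0) ∧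
      0 < ∑ e, x (src e) ^ 2 ∧
      (σ * ((m + 1) / (2 * ((univ.image src).card : ℝ))) ^ ((4 * t + 2 : ℝ)⁻¹) - δ)
          * √(∑ e, x (src e) ^ 2) ≤ √(∑ e, av tgt (fun e => x (src e)) e ^ 2) := by
  set n : ℝ := ((univ.image src).card : ℝ) with hn
  have hn0 : 0 < n := by
    rw [hn]
    have : 0 < (univ.image src).card := card_pos.mpr (univ_nonempty.image src)
    exact_mod_cast this
  have hm0 : (0 : ℝ) < (m : ℝ) + 1 := by positivity
  obtain ⟨ψ, l, hP, hO, hL⟩ := exists_spectral (walkK src tgt) walkK_symm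
  have hW : ∀ i, walk src tgt (ψ i) = fun e => l i * ψ i e := fun i => by
    funext e
    rw [walk_eq, hL]
  have hc : ∀ i f, ∑ e, ψ i e * walk src tgt f e = l i * ∑ e, ψ i e * f e := by
    intro i f
    rw [← walk_adj, hW, mul_sum]
    exact sum_congr rfl fun e _ => by ring
  -- the eigenvalues are nonnegative
  have hl0 : ∀ i, 0 ≤ l i := by
    intro i
    have h1 : ∑ e, ψ i e * walk src tgt (ψ i) e = l i := by
      rw [hc]
      have h2 := hO i
      have h3 : ∑ e, ψ i e * ψ i e = 1 := by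
        rw [← h2]
        exact sum_congr rfl fun e _ => (sq _).symm
      rw [h3, mul_one]
    rw [← h1]
    have h2 : ∑ e, ψ i e * walk src tgt (ψ i) e = ∑ e, av tgt (av src (ψ i)) e ^ 2 := by
      rw [sum_av_sq]
      unfold walk
      rw [← av_adj]
    rw [h2]
    exact sum_nonneg fun _ _ => sq_nonneg _
  set S : Finset E := univ.filter fun i => σ ^ 2 < l i with hS
  have hfac : ∀ i ∈ S, ∀ e e', src e = src e' → ψ i e = ψ i e' := by
    intro i hi e e' hee
    have hl : l i ≠ 0 := by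
      have h1 := (mem_filter.mp hi).2
      have h2 : 0 ≤ σ ^ 2 := sq_nonneg _
      exact (lt_of_le_of_lt h2 h1).ne'
    have h2 := congrFun (hW i) e
    have h3 := congrFun (hW i) e'
    rw [walk_congr hee, h3] at h2
    exact (mul_left_cancel₀ hl h2).symm
  -- there are many large eigenvalues
  have hcard : m < S.card := by
    by_contra hcard
    rw [not_lt] at hcard
    apply hbad
    have hrep : ∀ i, ∃ F : X → ℝ, i ∈ S → ∀ e, F (src e) = ψ i e := by
      intro i
      by_cases hi : i ∈ S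
      · have h1 : Function.FactorsThrough (ψ i) src := fun e e' hee => hfac i hi e e' hee
        exact ⟨Function.extend src (ψ i) 0, fun _ e => h1.extend_apply 0 e⟩
      · exact ⟨0, fun h => absurd h hi⟩
    choose F hF using hrep
    refine ⟨fun k => if hk : (k : ℕ) < S.card then F (S.equivFin.symm ⟨k, hk⟩) else 0, ?_⟩
    intro f g hfg
    have h0 : ∀ i ∈ S, ∑ e, ψ i e * f (src e) = 0 := by
      intro i hi
      set k := S.equivFin ⟨i, hi⟩ with hk
      have h1 := hfg ⟨k, lt_of_lt_of_le k.2 hcard⟩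
      have h2 : (⟨(k : ℕ), k.2⟩ : Fin S.card) = k := rfl
      simp only [k.2, dite_true, h2] at h1
      rw [hk, Equiv.symm_apply_apply] at h1
      rw [← h1]
      refine sum_congr rfl fun e _ => ?_
      rw [hF i hi, mul_comm]
    have hfav : av src (fun e => f (src e)) = fun e => f (src e) :=
      av_of_congr fun e e' h => by rw [h]
    have hgav : av tgt (fun e => g (tgt e)) = fun e => g (tgt e) :=
      av_of_congr fun e e' h => by rw [h]
    have h1 : ∑ e, f (src e) * g (tgt e)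
        = ∑ e, av tgt (fun e => f (src e)) e * g (tgt e) := by
      have h2 := av_adj (π := tgt) (fun e => f (src e)) (fun e => g (tgt e))
      rw [hgav] at h2
      exact h2.symm
    have h2 : ∑ e, av tgt (fun e => f (src e)) e ^ 2 ≤ σ ^ 2 * ∑ e, f (src e) ^ 2 := by
      have h4 := hP (fun e => f (src e)) (walk src tgt fun e => f (src e))
      have h5 := hP (fun e => f (src e)) (fun e => f (src e))
      rw [sum_av_tgt_sq hfav, ← h4]
      have h6 : ∑ e, f (src e) ^ 2 = ∑ e, f (src e) * f (src e) :=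
        sum_congr rfl fun e _ => sq _
      rw [h6, ← h5, mul_sum]
      refine sum_le_sum fun i _ => ?_
      rw [hc]
      by_cases hi : i ∈ S
      · rw [h0 i hi]
        simp
      · have h7 : l i ≤ σ ^ 2 := by
          by_contra h8
          exact hi (mem_filter.mpr ⟨mem_univ _, not_le.mp h8⟩)
        nlinarith [mul_self_nonneg (∑ e, ψ i e * f (src e))]
    rw [h1]
    refine (Real.sum_mul_le_sqrt_mul_sqrt _ _ _).trans ?_
    rw [← mul_assoc]
    refine mul_le_mul_of_nonneg_right ?_ (Real.sqrt_nonneg _)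
    calc √(∑ e, av tgt (fun e => f (src e)) e ^ 2) ≤ √(σ ^ 2 * ∑ e, f (src e) ^ 2) :=
          Real.sqrt_le_sqrt h2
      _ = σ * √(∑ e, f (src e) ^ 2) := by
          rw [Real.sqrt_mul (sq_nonneg _), Real.sqrt_sq hσ.le]
  -- the coefficients of a vertex
  obtain ⟨C, hC⟩ : ∃ C : E → X → ℝ, ∀ i u, C i u = ∑ e, ψ i e * ind src u e :=
    ⟨fun i u => ∑ e, ψ i e * ind src u e, fun _ _ => rfl⟩
  have hCk : ∀ k i u, ∑ e, ψ i e * GG src tgt k u e = l i ^ k * C i u := by
    intro k i u
    unfold GG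
    induction k with
    | zero =>
      rw [pow_zero, one_mul, hC]
      rfl
    | succ k ih =>
      rw [Function.iterate_succ_apply', hc, ih]
      ring
  have hC0 : ∀ u, ∑ i, C i u ^ 2 = dg src u := by
    intro u
    have h1 := hP (ind src u) (ind src u)
    rw [sum_congr rfl fun i _ => by rw [hC, sq], h1, ← sum_ind]
    refine sum_congr rfl fun e _ => ?_
    unfold ind
    split_ifs <;> norm_num
  have hA : ∀ u, ∑ e, GG src tgt t u e ^ 2 = ∑ i, C i u ^ 2 * l i ^ (2 * t) := by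
    intro u
    have h1 := hP (GG src tgt t u) (GG src tgt t u)
    rw [sum_congr rfl fun e _ => sq (GG src tgt t u e), ← h1]
    refine sum_congr rfl fun i _ => ?_
    rw [hCk]
    ring
  have hGav : ∀ u, av src (GG src tgt t u) = GG src tgt t u := fun u =>
    av_of_congr fun e e' h => GG_congr t u h
  have hB : ∀ u, ∑ e, av tgt (GG src tgt t u) e ^ 2 = ∑ i, C i u ^ 2 * l i ^ (2 * t + 1) := by
    intro u
    have h1 := hP (GG src tgt t u) (walk src tgt (GG src tgt t u))
    rw [sum_av_tgt_sq (hGav u), ← h1]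
    refine sum_congr rfl fun i _ => ?_
    rw [hc, hCk]
    ring
  have hCS : ∀ i ∈ S, ∀ u ∈ univ.image src, ∀ e, src e = u → C i u = dg src u * ψ i e := by
    intro i hi u hu e he
    rw [hC, ← sum_ind (src := src) u, sum_mul]
    refine sum_congr rfl fun e' _ => ?_
    unfold ind
    by_cases h : src e' = u
    · rw [if_pos h, hfac i hi e' e (h.trans he.symm)]
      ring
    · rw [if_neg h]
      ring
  -- the mass of the vertices in the large eigenspaces
  have hsum : ∑ u ∈ univ.image src, (∑ i ∈ S, C i u ^ 2) / dg src u = (S.card : ℝ) := by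
    have h1 : ∀ i ∈ S, ∑ u ∈ univ.image src, C i u ^ 2 / dg src u = 1 := by
      intro i hi
      obtain ⟨F, hF⟩ : ∃ F : X → ℝ, ∀ e, F (src e) = ψ i e := by
        have h1 : Function.FactorsThrough (ψ i) src := fun e e' hee => hfac i hi e e' hee
        exact ⟨Function.extend src (ψ i) 0, fun e => h1.extend_apply 0 e⟩
      have h2 : ∑ e, ψ i e ^ 2 = ∑ e, F (src e) ^ 2 :=
        sum_congr rfl fun e _ => by rw [hF e]
      rw [← hO i, h2, sum_src (src := src) fun w => F w ^ 2]
      refine sum_congr rfl fun u hu => ?_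
      obtain ⟨e, -, he⟩ := mem_image.mp hu
      rw [hCS i hi u hu e he, ← hF e, he]
      have h2 := (dg_pos hu).ne'
      field_simp
    rw [sum_congr rfl fun u _ => sum_div _ _ _, sum_comm, sum_congr rfl h1, sum_const,
      nsmul_eq_mul, mul_one]
  set Λ : ℝ := (δ ^ 2 * σ ^ (4 * t))⁻¹ with hΛ
  have hδσ : 0 < δ ^ 2 * σ ^ (4 * t) := by positivity
  have hΛ0 : 0 < Λ := inv_pos.mpr hδσ
  obtain ⟨u, hu, hu1⟩ : ∃ u ∈ univ.image src, ((m : ℝ) + 1) / (2 * n)
      ≤ (∑ i ∈ S, C i u ^ 2) / dg src u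
        - Λ * κ * ∑ w ∈ univ.image src, PP src tgt t u w / dg src w := by
    by_contra hcon
    push Not at hcon
    have h1 := sum_lt_sum_of_nonempty (univ_nonempty.image src) hcon
    rw [sum_sub_distrib, ← mul_sum, sum_sum_PP, hsum, sum_const, nsmul_eq_mul, ← hn] at h1
    have h2 : n * (((m : ℝ) + 1) / (2 * n)) = (m + 1) / 2 := by
      field_simp
    rw [h2] at h1
    have h3 : Λ * κ * n ≤ (m + 1) / 2 := by
      rw [hΛ, mul_assoc, inv_mul_le_iff₀ hδσ]
      linarith
    have h4 : ((m + 1 : ℕ) : ℝ) ≤ (S.card : ℝ) := by exact_mod_cast hcard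
    push_cast at h4
    linarith
  have hd := dg_pos hu
  set π : ℝ := (∑ i ∈ S, C i u ^ 2) / dg src u with hπ
  set Q : ℝ := ∑ w ∈ univ.image src, PP src tgt t u w / dg src w with hQ
  have hQ0 : 0 ≤ Q := sum_nonneg fun w _ => div_nonneg (PP_nonneg _ _ _) (dg_nonneg _)
  have hπ1 : ((m : ℝ) + 1) / (2 * n) ≤ π := by
    have : 0 ≤ Λ * κ * Q := by positivity
    linarith
  have hη : 0 < ((m : ℝ) + 1) / (2 * n) := by positivity
  have hκQ : κ * Q ≤ δ ^ 2 * σ ^ (4 * t) * π := by
    have h1 : Λ * κ * Q ≤ π := by linarith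
    have h2 : δ ^ 2 * σ ^ (4 * t) * (Λ * κ * Q) = κ * Q := by
      rw [hΛ]
      field_simp
    rw [← h2]
    exact mul_le_mul_of_nonneg_left h1 hδσ.le
  -- the norms
  set A : ℝ := ∑ e, GG src tgt t u e ^ 2 with hAdef
  set B : ℝ := ∑ e, av tgt (GG src tgt t u) e ^ 2 with hBdef
  have hA1 : σ ^ (4 * t) * π * dg src u ≤ A := by
    have h0 : σ ^ (4 * t) * π * dg src u = ∑ i ∈ S, C i u ^ 2 * σ ^ (4 * t) := by
      rw [hπ, ← sum_mul]
      field_simp
    rw [h0, hAdef, hA]
    refine (sum_le_sum fun i hi => ?_).trans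
      (sum_le_sum_of_subset_of_nonneg (subset_univ S) fun i _ _ =>
        mul_nonneg (sq_nonneg _) (pow_nonneg (hl0 i) _))
    refine mul_le_mul_of_nonneg_left ?_ (sq_nonneg _)
    have e1 : σ ^ (4 * t) = (σ ^ 2) ^ (2 * t) := by
      rw [← pow_mul]
      congr 1
      ring
    rw [e1]
    exact pow_le_pow_left₀ (sq_nonneg _) (mem_filter.mp hi).2.le _
  have hApos : 0 < A := lt_of_lt_of_le
    (mul_pos (mul_pos (pow_pos hσ _) (lt_of_lt_of_le hη hπ1)) hd) hA1
  have hAB : σ ^ 2 * (((m : ℝ) + 1) / (2 * n)) ^ ((2 * t + 1 : ℝ)⁻¹) * A ≤ B := by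
    have h1 := moment_ratio (s := univ) (w := fun i => C i u ^ 2 / dg src u) (l := l)
      (fun i _ => div_nonneg (sq_nonneg _) hd.le)
      (by rw [← sum_div, hC0, div_self hd.ne']) (fun i _ => hl0 i) t
      (c := (σ ^ 2) ^ (2 * t + 1) * (((m : ℝ) + 1) / (2 * n))) (by positivity) ?_
    · have h2 : ∑ i, C i u ^ 2 / dg src u * l i ^ (2 * t) = A / dg src u := by
        rw [hAdef, hA, sum_div]
        exact sum_congr rfl fun i _ => by ring
      have h3 : ∑ i, C i u ^ 2 / dg src u * l i ^ (2 * t + 1) = B / dg src u := by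
        rw [hBdef, hB, sum_div]
        exact sum_congr rfl fun i _ => by ring
      have h4 : ((σ ^ 2) ^ (2 * t + 1) * (((m : ℝ) + 1) / (2 * n))) ^ ((2 * t + 1 : ℝ)⁻¹)
          = σ ^ 2 * (((m : ℝ) + 1) / (2 * n)) ^ ((2 * t + 1 : ℝ)⁻¹) := by
        rw [Real.mul_rpow (by positivity) hη.le]
        congr 1
        rw [← Real.rpow_natCast (σ ^ 2) (2 * t + 1), ← Real.rpow_mul (sq_nonneg σ)]
        push_cast
        rw [mul_inv_cancel₀ (by positivity), Real.rpow_one]
      rw [h2, h3, h4, ← mul_div_assoc] at h1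
      exact (div_le_div_iff_of_pos_right hd).mp h1
    · have h2 : (σ ^ 2) ^ (2 * t + 1) * π = ∑ i ∈ S, C i u ^ 2 / dg src u
          * (σ ^ 2) ^ (2 * t + 1) := by
        rw [hπ, ← sum_mul, sum_div]
        ring
      have h3 : (σ ^ 2) ^ (2 * t + 1) * (((m : ℝ) + 1) / (2 * n))
          ≤ (σ ^ 2) ^ (2 * t + 1) * π := mul_le_mul_of_nonneg_left hπ1 (by positivity)
      refine h3.trans (h2.le.trans ?_)
      refine (sum_le_sum fun i hi => ?_).trans
        (sum_le_sum_of_subset_of_nonneg (subset_univ S) fun i _ _ =>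
          mul_nonneg (div_nonneg (sq_nonneg _) hd.le) (pow_nonneg (hl0 i) _))
      exact mul_le_mul_of_nonneg_left
        (pow_le_pow_left₀ (sq_nonneg _) (mem_filter.mp hi).2.le _)
        (div_nonneg (sq_nonneg _) hd.le)
  set ρ : ℝ := σ * (((m : ℝ) + 1) / (2 * n)) ^ ((4 * t + 2 : ℝ)⁻¹) with hρ
  have hρ0 : 0 < ρ := mul_pos hσ (Real.rpow_pos_of_pos hη _)
  have hρ2 : ρ ^ 2 = σ ^ 2 * (((m : ℝ) + 1) / (2 * n)) ^ ((2 * t + 1 : ℝ)⁻¹) := by
    rw [hρ, mul_pow]
    congr 1
    rw [← Real.rpow_natCast, ← Real.rpow_mul hη.le]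
    congr 1
    push_cast
    field_simp
    ring
  have hB1 : ρ * √A ≤ √B := by
    refine Real.le_sqrt_of_sq_le ?_
    rw [mul_pow, Real.sq_sqrt hApos.le, hρ2]
    exact hAB
  -- the truncation
  obtain ⟨T, hT⟩ : ∃ T : Finset X, ∀ w, w ∈ T ↔ w ∈ univ.image src
      ∧ κ * dg src u ≤ PP src tgt t u w :=
    ⟨(univ.image src).filter fun w => κ * dg src u ≤ PP src tgt t u w, fun w => mem_filter⟩
  obtain ⟨x, hx⟩ : ∃ x : X → ℝ, ∀ w, x w = if w ∈ T then PP src tgt t u w / dg src w else 0 :=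
    ⟨fun w => if w ∈ T then PP src tgt t u w / dg src w else 0, fun _ => rfl⟩
  obtain ⟨z, hz⟩ : ∃ z : E → ℝ, ∀ e, z e = if src e ∈ T then 0 else GG src tgt t u e :=
    ⟨fun e => if src e ∈ T then 0 else GG src tgt t u e, fun _ => rfl⟩
  have hxz : ∀ e, GG src tgt t u e = x (src e) + z e := by
    intro e
    rw [hx, hz]
    by_cases h : src e ∈ T
    · rw [if_pos h, if_pos h, GG_eq, add_zero]
    · rw [if_neg h, if_neg h, zero_add]
  have hx0 : ∀ w, 0 ≤ x w := by
    intro w
    rw [hx]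
    split_ifs
    · exact div_nonneg (PP_nonneg _ _ _) (dg_nonneg _)
    · exact le_rfl
  have hxzsq : ∑ e, x (src e) ^ 2 + ∑ e, z e ^ 2 = A := by
    rw [hAdef, ← sum_add_distrib]
    refine sum_congr rfl fun e _ => ?_
    rw [hxz, hx, hz]
    by_cases h : src e ∈ T
    · rw [if_pos h, if_pos h]
      ring
    · rw [if_neg h, if_neg h]
      ring
  have hzA : ∑ e, z e ^ 2 ≤ δ ^ 2 * A := by
    have h1 : ∑ e, z e ^ 2 = ∑ w ∈ univ.image src,
        dg src w * (if w ∈ T then 0 else PP src tgt t u w / dg src w) ^ 2 := by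
      rw [← sum_src (src := src) fun w =>
        (if w ∈ T then 0 else PP src tgt t u w / dg src w) ^ 2]
      refine sum_congr rfl fun e _ => ?_
      rw [hz, GG_eq]
    have h2 : ∀ w ∈ univ.image src,
        dg src w * (if w ∈ T then 0 else PP src tgt t u w / dg src w) ^ 2
          ≤ κ * dg src u * (PP src tgt t u w / dg src w) := by
      intro w hw
      have hdw := dg_pos hw
      have hq : 0 ≤ PP src tgt t u w / dg src w := div_nonneg (PP_nonneg _ _ _) hdw.le
      by_cases h : w ∈ T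
      · rw [if_pos h]
        have : 0 ≤ κ * dg src u * (PP src tgt t u w / dg src w) := by positivity
        simpa using this
      · rw [if_neg h]
        have h3 : PP src tgt t u w ≤ κ * dg src u := by
          by_contra h4
          exact h ((hT w).mpr ⟨hw, (not_le.mp h4).le⟩)
        have h4 : dg src w * (PP src tgt t u w / dg src w) ^ 2
            = PP src tgt t u w * (PP src tgt t u w / dg src w) := by
          field_simp
        rw [h4]
        exact mul_le_mul_of_nonneg_right h3 hq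
    rw [h1]
    refine (sum_le_sum h2).trans ?_
    rw [← mul_sum, ← hQ]
    calc κ * dg src u * Q = (κ * Q) * dg src u := by ring
      _ ≤ (δ ^ 2 * σ ^ (4 * t) * π) * dg src u := mul_le_mul_of_nonneg_right hκQ hd.le
      _ = δ ^ 2 * (σ ^ (4 * t) * π * dg src u) := by ring
      _ ≤ δ ^ 2 * A := mul_le_mul_of_nonneg_left hA1 (sq_nonneg _)
  have hxA : ∑ e, x (src e) ^ 2 ≤ A := by
    have : 0 ≤ ∑ e, z e ^ 2 := sum_nonneg fun _ _ => sq_nonneg _
    linarith
  have hxpos : 0 < ∑ e, x (src e) ^ 2 := by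
    have h1 : δ ^ 2 < 1 := by nlinarith
    nlinarith
  refine ⟨T, x, ?_, hx0, fun w hw => by rw [hx, if_neg hw], hxpos, ?_⟩
  · have h1 : ∑ _w ∈ T, κ * dg src u ≤ ∑ w ∈ univ.image src, PP src tgt t u w := by
      refine (sum_le_sum fun w hw => ((hT w).mp hw).2).trans
        (sum_le_sum_of_subset_of_nonneg (fun w hw => ((hT w).mp hw).1) fun w _ _ =>
          PP_nonneg _ _ _)
    rw [sum_PP, sum_const, nsmul_eq_mul, ← mul_assoc] at h1
    have h2 : (T.card : ℝ) * κ * dg src u ≤ 1 * dg src u := by linarith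
    exact le_of_mul_le_mul_right h2 hd
  · rcases le_or_gt (ρ - δ) 0 with h0 | h0
    · exact le_trans (mul_nonpos_of_nonpos_of_nonneg h0 (Real.sqrt_nonneg _))
        (Real.sqrt_nonneg _)
    · have h1 : √B ≤ √(∑ e, av tgt (fun e => x (src e)) e ^ 2) + √(∑ e, av tgt z e ^ 2) := by
        have h2 := sqrt_sum_sq_add_le (av tgt fun e => x (src e)) (av tgt z)
        refine le_trans (le_of_eq ?_) h2
        rw [hBdef]
        congr 1
        refine sum_congr rfl fun e _ => ?_
        congr 1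
        unfold av
        rw [← sum_add_distrib]
        refine sum_congr rfl fun e' _ => ?_
        rw [hxz]
        ring
      have h2 : √(∑ e, av tgt z e ^ 2) ≤ δ * √A := by
        calc √(∑ e, av tgt z e ^ 2) ≤ √(δ ^ 2 * A) :=
              Real.sqrt_le_sqrt ((sum_av_sq_le z).trans hzA)
          _ = δ * √A := by
              rw [Real.sqrt_mul (sq_nonneg _), Real.sqrt_sq hδ.le]
      have h3 : (ρ - δ) * √(∑ e, x (src e) ^ 2) ≤ (ρ - δ) * √A :=
        mul_le_mul_of_nonneg_left (Real.sqrt_le_sqrt hxA) h0.le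
      linarith

end Pool.Agent.MP_ec946a.SDA

namespace Pool.Agent.MP_ec946a.LR

open Finset Classical

theorem rowR2 : RowR2 := by
  intro E X Y _ _ _ src tgt m k η τ ρ ε hη hτ hε hε1 hερ hm hρ hbad
  set n : ℝ := ((univ.image src).card : ℝ) with hn
  have hn0 : 0 < n := by
    rw [hn]
    have : 0 < (univ.image src).card := card_pos.mpr (univ_nonempty.image src)
    exact_mod_cast this
  have hnX : n ≤ (Fintype.card X : ℝ) := by
    rw [hn]
    exact_mod_cast card_le_univ _
  have hm1 : η * n ≤ m := (mul_le_mul_of_nonneg_left hnX hη.le).trans hm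
  have hκ : 0 < η * ε ^ 2 * τ ^ (4 * k) / 2 := by positivity
  obtain ⟨T, x, hT, hx, hx0, hpos, hle⟩ := SDA.exists_cluster_fun (src := src) (tgt := tgt)
    (σ := τ) (δ := ε) (κ := η * ε ^ 2 * τ ^ (4 * k) / 2) hτ hε hε1 hκ (m := m) (t := k) hbad (by
      rw [← hn]
      have h1 : 0 ≤ ε ^ 2 * τ ^ (4 * k) := by positivity
      calc 2 * (η * ε ^ 2 * τ ^ (4 * k) / 2) * n = ε ^ 2 * τ ^ (4 * k) * (η * n) := by ring
        _ ≤ ε ^ 2 * τ ^ (4 * k) * (m + 1) := mul_le_mul_of_nonneg_left (by linarith) h1)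
  refine ⟨x, T, hx, hx0, by linarith, hpos, ?_⟩
  rw [← hn] at hle
  have hρ0 : 0 < ρ := hε.trans_le hερ
  have h2 : 0 ≤ ((m : ℝ) + 1) / (2 * n) := by positivity
  have h1 : η / 2 ≤ ((m : ℝ) + 1) / (2 * n) := by
    rw [div_le_div_iff₀ (by norm_num) (by positivity)]
    nlinarith
  have h3 : ρ ≤ τ * (((m : ℝ) + 1) / (2 * n)) ^ ((4 * k + 2 : ℝ)⁻¹) := by
    have h4 : ρ ^ (2 * (2 * k + 1))
        ≤ (τ * (((m : ℝ) + 1) / (2 * n)) ^ ((4 * k + 2 : ℝ)⁻¹)) ^ (2 * (2 * k + 1)) := by
      refine hρ.trans ?_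
      rw [mul_pow]
      refine mul_le_mul_of_nonneg_left ?_ (by positivity)
      rw [← Real.rpow_natCast _ (2 * (2 * k + 1)), ← Real.rpow_mul h2]
      push_cast
      have h5 : ((4 * k + 2 : ℝ)⁻¹) * (2 * (2 * k + 1)) = 1 := by
        field_simp
        ring
      rw [h5, Real.rpow_one]
      exact h1
    exact le_of_pow_le_pow_left₀ (by omega) (by positivity) h4
  have hA0 : 0 ≤ ∑ e, x (src e) ^ 2 := hpos.le
  have h4 : (ρ - ε) * √(∑ e, x (src e) ^ 2)
      ≤ √(∑ e, SDA.av tgt (fun e => x (src e)) e ^ 2) :=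
    (mul_le_mul_of_nonneg_right (by linarith) (Real.sqrt_nonneg _)).trans hle
  have h5 : 0 ≤ (ρ - ε) * √(∑ e, x (src e) ^ 2) :=
    mul_nonneg (by linarith) (Real.sqrt_nonneg _)
  have h6 := pow_le_pow_left₀ h5 h4 2
  rwa [mul_pow, Real.sq_sqrt hA0, Real.sq_sqrt (sum_nonneg fun _ _ => sq_nonneg _)] at h6

end Pool.Agent.MP_ec946a.LR
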