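import Mathlib
import Pool.Agent.Lib.LR.Rows

/-!
# LR, row R4a: labels of a cluster (helper70)
-/

set_option autoImplicit false

namespace Pool.Agent.MP_ec946a.LR

open Finset Classical

section

variable {q t : ℕ} {G : Game q}

theorem R4a.exists_pos (s : G.LevelSolution t) (T : Finset (G.U ⊕ G.V)) (hT : T.card ≤ t + 2) :
    ∃ L : (G.U ⊕ G.V) → Fin q, 0 < s.y (T.image fun x => (x, L x)) := by
  induction T using Finset.induction_on with
  | empty =>
    obtain ⟨e⟩ : Nonempty G.E := inferInstance
    have h := s.sum ∅ (Sum.inl (G.src e)) (by simp)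
    rw [s.empty] at h
    have hq : Nonempty (Fin q) := by
      by_contra hq
      rw [not_nonempty_iff] at hq
      simp at h
    obtain ⟨a⟩ := hq
    refine ⟨fun _ => a, ?_⟩
    rw [image_empty, s.empty]
    exact one_pos
  | insert x T hx ih =>
    rw [card_insert_of_notMem hx] at hT
    obtain ⟨L, hL⟩ := ih (by omega)
    have hc : (T.image fun x => (x, L x)).card ≤ t + 1 := card_image_le.trans (by omega)
    have h := s.sum (T.image fun x => (x, L x)) x hc
    obtain ⟨a, ha⟩ : ∃ a, 0 < s.y (insert (x, a) (T.image fun x => (x, L x))) := by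
      by_contra hcon
      push Not at hcon
      have := sum_nonpos fun a (_ : a ∈ univ) => hcon a
      linarith
    refine ⟨Function.update L x a, ?_⟩
    rw [image_insert, Function.update_self]
    have h2 : (T.image fun y => (y, Function.update L x a y)) = T.image fun y => (y, L y) :=
      image_congr fun y hy => by
        have : y ≠ x := fun h => hx (h ▸ hy)
        simp [Function.update_of_ne this]
    rw [h2]
    exact ha

theorem R4a.exists_pos_insert (s : G.LevelSolution t) {S : Finset ((G.U ⊕ G.V) × Fin q)}
    (hS : S.card ≤ t + 1) (hpos : 0 < s.y S) (x : G.U ⊕ G.V) : ∃ a, 0 < s.y (insert (x, a) S) := by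
  have h := s.sum S x hS
  by_contra hcon
  push Not at hcon
  have := sum_nonpos fun a (_ : a ∈ univ) => hcon a
  linarith

end

theorem rowR4a : RowR4a := by
  intro q G t ⟨s⟩
  constructor
  · intro A hA
    obtain ⟨L, hL⟩ := R4a.exists_pos s (A.image Sum.inl) (card_image_le.trans (by omega))
    have hc : (((A.image Sum.inl : Finset (G.U ⊕ G.V))).image fun x => (x, L x)).card ≤ t + 1 :=
      card_image_le.trans (card_image_le.trans hA)
    choose M hM using fun v : G.V => R4a.exists_pos_insert s hc hL (Sum.inr v)
    refine ⟨fun u => L (Sum.inl u), M, fun e he => ?_⟩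
    by_contra hne
    refine (hM (G.tgt e)).ne' (s.edge _ e (L (Sum.inl (G.src e))) (M (G.tgt e)) hne ?_
      (mem_insert_self _ _))
    exact mem_insert_of_mem (mem_image.2 ⟨Sum.inl (G.src e), mem_image_of_mem _ he, rfl⟩)
  · intro B hB
    obtain ⟨L, hL⟩ := R4a.exists_pos s (B.image Sum.inr) (card_image_le.trans (by omega))
    have hc : (((B.image Sum.inr : Finset (G.U ⊕ G.V))).image fun x => (x, L x)).card ≤ t + 1 :=
      card_image_le.trans (card_image_le.trans hB)
    choose M hM using fun u : G.U => R4a.exists_pos_insert s hc hL (Sum.inl u)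
    refine ⟨M, fun v => L (Sum.inr v), fun e he => ?_⟩
    by_contra hne
    refine (hM (G.src e)).ne' (s.edge _ e (M (G.src e)) (L (Sum.inr (G.tgt e))) hne
      (mem_insert_self _ _) ?_)
    exact mem_insert_of_mem (mem_image.2 ⟨Sum.inr (G.tgt e), mem_image_of_mem _ he, rfl⟩)

end Pool.Agent.MP_ec946a.LR
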