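import Mathlib
import Pool.Agent.Lib.LR.Rows

/-!
# LR, row R4b: cutting clusters one after the other
-/

set_option autoImplicit false

namespace Pool.Agent.MP_ec946a.LR

open Finset Classical

theorem exists_labeling_of_clusters {q : ℕ} {G : Game q} {v : ℝ} (hv : 0 ≤ v) (hq : 0 < q)
    (h : ∀ (F : Finset G.E) (hF : F.Nonempty), v ≤ (G.sub F hF).value ∨
      ∃ (A : Set G.U) (B : Set G.V) (LU : G.U → Fin q) (LV : G.V → Fin q),
        (∀ e ∈ F, G.src e ∈ A → G.tgt e ∈ B → G.proj e (LU (G.src e)) = LV (G.tgt e)) ∧
        v * ((F.filter fun e => G.src e ∈ A ∨ G.tgt e ∈ B).card : ℝ)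
          < ((F.filter fun e => G.src e ∈ A ∧ G.tgt e ∈ B).card : ℝ)) (H : Finset G.E) :
    ∃ (LU : G.U → Fin q) (LV : G.V → Fin q), v * (H.card : ℝ)
      ≤ ((H.filter fun e => G.proj e (LU (G.src e)) = LV (G.tgt e)).card : ℝ) := by
  induction H using Finset.strongInduction with
  | H H ih =>
    rcases H.eq_empty_or_nonempty with h0 | h0
    · refine ⟨fun _ => ⟨0, hq⟩, fun _ => ⟨0, hq⟩, ?_⟩
      rw [h0]
      simp
    · rcases h H h0 with hval | ⟨A, B, LU₁, LV₁, hsatA, hlt⟩
      · obtain ⟨LU₁, LV₁, h1⟩ := SDA.exists_value (G := G.sub H h0) hq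
        refine ⟨LU₁, LV₁, ?_⟩
        have e1 : (H.card : ℝ) = (Fintype.card (G.sub H h0).E : ℝ) := by
          rw [← Fintype.card_coe H]
          rfl
        rw [e1]
        refine (mul_le_mul_of_nonneg_right hval (Nat.cast_nonneg _)).trans (h1.trans ?_)
        refine le_of_eq (congrArg Nat.cast ?_)
        exact SDA.card_sub_filter H fun e => G.proj e (LU₁ (G.src e)) = LV₁ (G.tgt e)
      · set F : Finset G.E := H.filter fun e => G.src e ∈ A ∧ G.tgt e ∈ B with hFdef
        set I : Finset G.E := H.filter fun e => G.src e ∈ A ∨ G.tgt e ∈ B with hIdef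
        set H' : Finset G.E := H.filter fun e => ¬ (G.src e ∈ A ∨ G.tgt e ∈ B) with hH'
        have hFpos : 0 < (F.card : ℝ) :=
          lt_of_le_of_lt (mul_nonneg hv (Nat.cast_nonneg _)) hlt
        have hFne : F.Nonempty := card_pos.mp (by exact_mod_cast hFpos)
        have hlt' : H' ⊂ H := by
          refine ⟨filter_subset _ _, fun hsub' => ?_⟩
          obtain ⟨e, he⟩ := hFne
          have h1 := hsub' (mem_of_mem_filter e he)
          exact (mem_filter.mp h1).2 (Or.inl (mem_filter.mp he).2.1)
        obtain ⟨LU₂, LV₂, h2⟩ := ih H' hlt'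
        refine ⟨fun u => if u ∈ A then LU₁ u else LU₂ u,
          fun w => if w ∈ B then LV₁ w else LV₂ w, ?_⟩
        -- the satisfied edges
        have hsat : F.card
            + (H'.filter fun e => G.proj e (LU₂ (G.src e)) = LV₂ (G.tgt e)).card
            ≤ (H.filter fun e => G.proj e (if G.src e ∈ A then LU₁ (G.src e) else LU₂ (G.src e))
              = if G.tgt e ∈ B then LV₁ (G.tgt e) else LV₂ (G.tgt e)).card := by
          rw [← card_union_of_disjoint]
          · refine card_le_card fun e he => ?_
            rcases mem_union.mp he with h3 | h3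
            · have h5 := mem_filter.mp h3
              refine mem_filter.mpr ⟨h5.1, ?_⟩
              rw [if_pos h5.2.1, if_pos h5.2.2]
              exact hsatA e h5.1 h5.2.1 h5.2.2
            · have h4 := mem_filter.mp h3
              have h5 := mem_filter.mp h4.1
              refine mem_filter.mpr ⟨h5.1, ?_⟩
              rw [if_neg fun h6 => h5.2 (Or.inl h6), if_neg fun h6 => h5.2 (Or.inr h6)]
              exact h4.2
          · rw [disjoint_left]
            intro e he he'
            exact (mem_filter.mp (mem_filter.mp he').1).2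
              (Or.inl (mem_filter.mp he).2.1)
        have hcard : I.card + H'.card = H.card := by
          rw [hIdef, hH']
          exact card_filter_add_card_filter_not (s := H)
            (fun e => G.src e ∈ A ∨ G.tgt e ∈ B)
        have hcard' : (H.card : ℝ) = (I.card : ℝ) + (H'.card : ℝ) := by
          rw [← hcard]
          push_cast
          rfl
        have hsat' : (F.card : ℝ)
            + ((H'.filter fun e => G.proj e (LU₂ (G.src e)) = LV₂ (G.tgt e)).card : ℝ)
            ≤ ((H.filter fun e => G.proj e (if G.src e ∈ A then LU₁ (G.src e) else LU₂ (G.src e))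
              = if G.tgt e ∈ B then LV₁ (G.tgt e) else LV₂ (G.tgt e)).card : ℝ) := by
          exact_mod_cast hsat
        calc v * (H.card : ℝ) = v * (I.card : ℝ) + v * (H'.card : ℝ) := by
              rw [hcard', mul_add]
          _ ≤ (F.card : ℝ)
              + ((H'.filter fun e => G.proj e (LU₂ (G.src e)) = LV₂ (G.tgt e)).card : ℝ) :=
              add_le_add hlt.le h2
          _ ≤ _ := hsat'

theorem rowR4b : RowR4b := by
  intro q G v hv hq h
  obtain ⟨LU, LV, h1⟩ := exists_labeling_of_clusters hv hq h univ
  have h2 := SDA.value_ge_of_labeling (G := G) LU LV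
  have hN0 : (0 : ℝ) < (Fintype.card G.E : ℝ) := by
    exact_mod_cast Fintype.card_pos
  rw [card_univ] at h1
  exact le_of_mul_le_mul_right (h1.trans h2) hN0

end Pool.Agent.MP_ec946a.LR
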