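import Mathlib
import Pool.Agent.Lib.LR.Rows

/-!
# LR, row RA: the numbers of the levels theorem
-/

set_option autoImplicit false

namespace Pool.Agent.MP_ec946a.LR

namespace RAx

theorem pow_ratio (i : ℕ) :
    (629 / 1000 : ℝ) ^ (2 * (2 * (9 * i) + 1)) ≤
      (17 / 25 : ℝ) ^ (2 * (2 * (9 * i) + 1)) * ((2 / 16 ^ i) / 2) := by
  have h1 : (629 / 1000 : ℝ) = 37 / 40 * (17 / 25) := by norm_num
  have h2 : (37 / 40 : ℝ) ^ (2 * (2 * (9 * i) + 1)) ≤ 1 / 16 ^ i := by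
    have e : 2 * (2 * (9 * i) + 1) = 36 * i + 2 := by ring
    rw [e, pow_add, pow_mul]
    have h3 : ((37 / 40 : ℝ) ^ 36) ^ i ≤ (1 / 16) ^ i :=
      pow_le_pow_left₀ (by norm_num) (by norm_num) i
    have h4 : (1 / 16 : ℝ) ^ i = 1 / 16 ^ i := by rw [one_div, inv_pow, one_div]
    have h5 : (0 : ℝ) < 1 / 16 ^ i := by positivity
    have h6 : (37 / 40 : ℝ) ^ 2 ≤ 1 := by norm_num
    calc ((37 / 40 : ℝ) ^ 36) ^ i * (37 / 40) ^ 2 ≤ (1 / 16) ^ i * 1 :=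
          mul_le_mul h3 h6 (by positivity) (by positivity)
      _ = 1 / 16 ^ i := by rw [h4, mul_one]
  rw [h1, mul_pow, mul_comm]
  have e2 : (2 / 16 ^ i) / 2 = (1 : ℝ) / 16 ^ i := by ring
  rw [e2]
  exact mul_le_mul_of_nonneg_left h2 (by positivity)

theorem h_le : (1 / 400 : ℝ) ≤ (1 - 1 / 8) / √2 - 17 / 25 * √((1 - 1 / 8) * (1 - 1 / 8 / 2)) := by
  have s1 : √2 ≤ 1414214 / 1000000 := by
    rw [Real.sqrt_le_left (by norm_num)]; norm_num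
  have s2 : √((1 - 1 / 8) * (1 - 1 / 8 / 2) : ℝ) ≤ 9058 / 10000 := by
    rw [Real.sqrt_le_left (by norm_num)]; norm_num
  have s3 : (1 - 1 / 8 : ℝ) / (1414214 / 1000000) ≤ (1 - 1 / 8) / √2 :=
    div_le_div_of_nonneg_left (by norm_num) (by positivity) s1
  have s4 : (6187 / 10000 : ℝ) ≤ (1 - 1 / 8 : ℝ) / (1414214 / 1000000) := by norm_num
  nlinarith

end RAx

theorem rowA (h : RowB) : RowA := by
  intro q G t hne ht
  obtain ⟨e0⟩ := G.neE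
  have hU : 1 ≤ Nat.card G.U := by
    have : Nonempty G.U := ⟨G.src e0⟩
    exact Nat.card_pos
  have hV : 1 ≤ Nat.card G.V := by
    have : Nonempty G.V := ⟨G.tgt e0⟩
    exact Nat.card_pos
  have hμ : (1 : ℝ) ≤ (min (Nat.card G.U) (Nat.card G.V) : ℝ) :=
    le_min (by exact_mod_cast hU) (by exact_mod_cast hV)
  set μ : ℝ := (min (Nat.card G.U) (Nat.card G.V) : ℝ) with hμd
  have hμ0 : 0 ≤ μ := by linarith
  obtain ⟨s, hs⟩ : ∃ s : ℝ, s = μ ^ (1 / 8 : ℝ) := ⟨_, rfl⟩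
  have hs1 : 1 ≤ s := by rw [hs]; exact Real.one_le_rpow hμ (by norm_num)
  have hs0 : 0 < s := by linarith
  have hs8 : s ^ 8 = μ := by
    rw [hs, ← Real.rpow_natCast, ← Real.rpow_mul hμ0]
    norm_num
  have hs7 : μ ^ (7 / 8 : ℝ) = s ^ 7 := by
    rw [hs, ← Real.rpow_natCast, ← Real.rpow_mul hμ0]
    norm_num
  rw [hs7] at ht
  obtain ⟨i, hi1, hi2⟩ := exists_nat_pow_near hs1 (by norm_num : (1 : ℝ) < 16)
  obtain ⟨p, hp⟩ : ∃ p : ℝ, p = 16 ^ i := ⟨_, rfl⟩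
  have hp0 : 0 < p := by rw [hp]; positivity
  rw [pow_succ, ← hp] at hi2
  rw [← hp] at hi1
  have hs7' : 1 ≤ s ^ 7 := one_le_pow₀ hs1
  -- the bound for `η μ`
  have hημ : 2 / p * μ ≤ 32 * s ^ 7 := by
    rw [← hs8, div_mul_eq_mul_div, div_le_iff₀ hp0]
    have : s ^ 8 = s ^ 7 * s := by ring
    rw [this]
    have h3 : s ^ 7 * s ≤ s ^ 7 * (p * 16) := mul_le_mul_of_nonneg_left hi2.le (by positivity)
    nlinarith
  have hm1 : 2 / p * μ ≤ (⌈2 / p * μ⌉₊ : ℝ) := Nat.le_ceil _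
  have hm2 : (⌈2 / p * μ⌉₊ : ℝ) < 2 / p * μ + 1 := Nat.ceil_lt_add_one (by positivity)
  refine h q G t hne (2 / p) (17 / 25) (629 / 1000) (4 / 10000) (1 / 8) (1 / 400)
    ⌈2 / p * μ⌉₊ (9 * i) (by positivity) (by norm_num) (by norm_num) (by norm_num) (by norm_num)
    (by norm_num) (by norm_num) (by norm_num) RAx.h_le (by norm_num) hm1 ?_ ?_ ?_
  · nlinarith
  · rw [hp]; exact RAx.pow_ratio i
  · have e1 : (17 / 25 : ℝ) ^ (4 * (9 * i)) = ((17 / 25 : ℝ) ^ 36) ^ i := by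
      rw [← pow_mul]; congr 1; ring
    have e2 : (1 / 16 ^ 6 : ℝ) ≤ (17 / 25 : ℝ) ^ 36 := by norm_num
    have e3 : ((1 / 16 ^ 6 : ℝ)) ^ i ≤ ((17 / 25 : ℝ) ^ 36) ^ i :=
      pow_le_pow_left₀ (by norm_num) e2 i
    have e4 : ((1 / 16 ^ 6 : ℝ)) ^ i = 1 / p ^ 6 := by
      rw [hp, one_div, inv_pow, one_div, ← pow_mul, ← pow_mul, mul_comm]
    have e5 : p ^ 7 ≤ s ^ 7 := pow_le_pow_left₀ hp0.le hi1 7
    have e6 : 10 ^ 8 * p ^ 7 ≤ (t : ℝ) + 1 := by nlinarith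
    rw [e1]
    have e7 : 2 / p * (4 / 10000) ^ 2 * (1 / p ^ 6) ≤
        2 / p * (4 / 10000) ^ 2 * ((17 / 25 : ℝ) ^ 36) ^ i := by
      refine mul_le_mul_of_nonneg_left ?_ (by positivity)
      rw [← e4]; exact e3
    have e8 : 2 / p * (4 / 10000) ^ 2 * (1 / p ^ 6) * (10 ^ 8 * p ^ 7) = 32 := by
      field_simp
      norm_num
    have hpos : 0 ≤ 2 / p * (4 / 10000) ^ 2 * (1 / p ^ 6) := by positivity
    calc (2 : ℝ) ≤ 2 / p * (4 / 10000) ^ 2 * (1 / p ^ 6) * (10 ^ 8 * p ^ 7) := by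
          rw [e8]; norm_num
      _ ≤ 2 / p * (4 / 10000) ^ 2 * (1 / p ^ 6) * ((t : ℝ) + 1) :=
          mul_le_mul_of_nonneg_left e6 hpos
      _ ≤ 2 / p * (4 / 10000) ^ 2 * ((17 / 25 : ℝ) ^ 36) ^ i * ((t : ℝ) + 1) :=
          mul_le_mul_of_nonneg_right e7 (by positivity)

end Pool.Agent.MP_ec946a.LR
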