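import Mathlib
import Pool.Agent.Lib.LR.Rows

/-!
# LR, row RI: interpolation (helper70)
-/

set_option autoImplicit false

namespace Pool.Agent.MP_ec946a.LR

open Finset Classical

section

variable {W K : Type} [Fintype W] [Nonempty W] [Field K] {D : ℕ}

/-- the line through the (shifted) values at `γ 0` and `γ 1` -/
def RI.lab (γ : Fin (D + 2) → K) (tau : Fin (D + 2) → W → W) (σ : W × Fin (D + 2) → K)
    (z : W → K) : (inst γ tau σ).Labeling :=
  (fun w => ((z (tau 0 w) + σ (w, 0)) + γ 0 *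
      (((z (tau 0 w) + σ (w, 0)) + (z (tau 1 w) + σ (w, 1))) / (γ 0 + γ 1)),
    ((z (tau 0 w) + σ (w, 0)) + (z (tau 1 w) + σ (w, 1))) / (γ 0 + γ 1)), z)

theorem RI.sat_lab [CharP K 2] {γ : Fin (D + 2) → K} (hγ : Function.Injective γ)
    (tau : Fin (D + 2) → W → W) (σ : W × Fin (D + 2) → K) (z : W → K) (e : W × Fin (D + 2)) :
    (inst γ tau σ).Sat (RI.lab γ tau σ z) e ↔ z ∈ lin γ tau σ e := by
  have h2 : ∀ a : K, a + a = 0 := CharTwo.add_self_eq_zero
  have h01 : γ 0 + γ 1 ≠ 0 := by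
    intro h
    have h3 : γ 0 = γ 1 := by
      have := h2 (γ 1)
      exact add_right_cancel (h.trans this.symm)
    have := hγ h3
    simp at this
  change (z (tau 0 e.1) + σ (e.1, 0)) + γ 0 *
      (((z (tau 0 e.1) + σ (e.1, 0)) + (z (tau 1 e.1) + σ (e.1, 1))) / (γ 0 + γ 1)) + γ e.2 *
      (((z (tau 0 e.1) + σ (e.1, 0)) + (z (tau 1 e.1) + σ (e.1, 1))) / (γ 0 + γ 1)) + σ e
      = z (tau e.2 e.1) ↔
    (γ 1 + γ e.2) * (z (tau 0 e.1) + σ (e.1, 0)) + (γ 0 + γ e.2) * (z (tau 1 e.1) + σ (e.1, 1))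
    + (γ 0 + γ 1) * (z (tau e.2 e.1) + σ e) = 0
  generalize z (tau 0 e.1) + σ (e.1, 0) = a
  generalize z (tau 1 e.1) + σ (e.1, 1) = b
  generalize z (tau e.2 e.1) = c
  generalize σ e = s
  generalize γ e.2 = x
  generalize γ 0 = u at *
  generalize γ 1 = v at *
  rw [← sub_eq_zero (b := c)]
  have key : (a + u * ((a + b) / (u + v)) + x * ((a + b) / (u + v)) + s - c) * (u + v)
      = (v + x) * a + (u + x) * b + (u + v) * (c + s) := by
    have h3 : (a + b) / (u + v) * (u + v) = a + b := div_mul_cancel₀ _ h01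
    have e1 : (a + u * ((a + b) / (u + v)) + x * ((a + b) / (u + v)) + s - c) * (u + v)
      = (u + v) * a + (u + x) * ((a + b) / (u + v) * (u + v)) + (s - c) * (u + v) := by ring
    rw [e1, h3]
    have h11 : (1 : K) + 1 = 0 := h2 1
    linear_combination (u * a - (u + v) * c) * h11
  rw [← key]
  constructor
  · intro h
    rw [h, zero_mul]
  · intro h
    exact (mul_eq_zero.1 h).resolve_right h01

theorem RI.jun_lab (γ : Fin (D + 2) → K) (tau : Fin (D + 2) → W → W)
    (σ : W × Fin (D + 2) → K) {d : ℕ} {f : (inst γ tau σ).Labeling → ℝ}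
    (hf : (inst γ tau σ).Local d f) : Jun (2 * d) fun z => f (RI.lab γ tau σ z) := by
  obtain ⟨S, T, hc, h⟩ : ∃ S T : Finset W, S.card + T.card ≤ d ∧
    ∀ L L' : (inst γ tau σ).Labeling, (∀ x ∈ S, L.1 x = L'.1 x) → (∀ y ∈ T, L.2 y = L'.2 y) →
      f L = f L' := hf
  refine ⟨T ∪ (S.image (tau 0) ∪ S.image (tau 1)), ?_, fun z z' hz => h _ _ ?_ ?_⟩
  · have h1 := card_union_le T (S.image (tau 0) ∪ S.image (tau 1))
    have h2 := card_union_le (S.image (tau 0)) (S.image (tau 1))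
    have h3 : (S.image (tau 0)).card ≤ S.card := card_image_le
    have h4 : (S.image (tau 1)).card ≤ S.card := card_image_le
    omega
  · intro w hw
    have e0 : z (tau 0 w) = z' (tau 0 w) := hz _ (mem_union_right _ (mem_union_left _
      (mem_image_of_mem _ hw)))
    have e1 : z (tau 1 w) = z' (tau 1 w) := hz _ (mem_union_right _ (mem_union_right _
      (mem_image_of_mem _ hw)))
    simp only [RI.lab, e0, e1]
  · intro y hy
    exact hz y (mem_union_left _ hy)

end

theorem rowI : RowI := by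
  intro W K _ _ _ _ D γ hγ tau σ d ⟨P⟩
  refine ⟨{
    E := P.E.comp (LinearMap.funLeft ℝ ℝ (RI.lab γ tau σ))
    one := ?_
    psd := ?_
    sat := ?_ }⟩
  · exact P.one
  · intro κ _ f hf
    exact P.psd κ (fun i z => f i (RI.lab γ tau σ z)) fun i => RI.jun_lab γ tau σ (hf i)
  · intro e f hf
    have h1 := P.sat e (fun z => f (RI.lab γ tau σ z)) (RI.jun_lab γ tau σ hf)
    rw [LinearMap.comp_apply, LinearMap.comp_apply]
    refine Eq.trans ?_ h1
    congr 1
    funext z
    rw [LinearMap.funLeft_apply]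
    by_cases hz : z ∈ lin γ tau σ e
    · rw [Set.indicator_of_mem hz, Set.indicator_of_mem]
      exact (RI.sat_lab hγ tau σ z e).2 hz
    · rw [Set.indicator_of_notMem hz, Set.indicator_of_notMem]
      exact fun h => hz ((RI.sat_lab hγ tau σ z e).1 h)

end Pool.Agent.MP_ec946a.LR
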