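import Mathlib
import Pool.Agent.Lib.LR.Rows

/-!
# LR, row RJ: the label cover instances
-/

set_option autoImplicit false

namespace Pool.Agent.MP_ec946a.LR

namespace RJx

/-- the parameters: number of edges at a vertex and the field -/
theorem params (ε : ℝ) (h0 : 0 < ε) (h1 : ε ≤ 1) : ∃ (D b : ℕ), b ≠ 0 ∧
    6 < ε * ((D : ℝ) + 2) ∧ (((D + 2 : ℕ) : ℝ)) ≤ 10 / ε ∧ D + 2 ≤ 2 ^ b ∧
    (Real.exp 1 / ε) ^ 2 ≤ ((2 ^ b : ℕ) : ℝ) ∧ ((2 ^ b : ℕ) : ℝ) ≤ 100 / ε ^ 2 := by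
  -- the degree
  have hd : 6 ≤ 6 / ε := by rw [le_div_iff₀ h0]; nlinarith
  obtain ⟨n, hn⟩ : ∃ n : ℕ, n = ⌊6 / ε⌋₊ := ⟨_, rfl⟩
  have hn1 : (n : ℝ) ≤ 6 / ε := by rw [hn]; exact Nat.floor_le (by positivity)
  have hn2 : 6 / ε < (n : ℝ) + 1 := by rw [hn]; exact Nat.lt_floor_add_one _
  have hn3 : 6 ≤ n := by rw [hn]; exact Nat.le_floor (by exact_mod_cast hd)
  have hD : n - 1 + 2 = n + 1 := by omega
  have hε1 : 1 ≤ 1 / ε := by rw [le_div_iff₀ h0]; linarith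
  have hε2 : 1 / ε ≤ 1 / ε ^ 2 := by
    rw [div_le_div_iff₀ h0 (by positivity)]; nlinarith
  have e6 : 6 / ε = 6 * (1 / ε) := by ring
  have e10 : 10 / ε = 10 * (1 / ε) := by ring
  have e100 : 100 / ε ^ 2 = 100 * (1 / ε ^ 2) := by ring
  -- the power
  have hex : ∃ b : ℕ, max ((n : ℝ) + 1) ((Real.exp 1 / ε) ^ 2) ≤ 2 ^ b := by
    obtain ⟨b, hb⟩ := pow_unbounded_of_one_lt (max ((n : ℝ) + 1) ((Real.exp 1 / ε) ^ 2))
      (by norm_num : (1 : ℝ) < 2)
    exact ⟨b, hb.le⟩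
  classical
  obtain ⟨b, hb, hmin⟩ : ∃ b : ℕ, max ((n : ℝ) + 1) ((Real.exp 1 / ε) ^ 2) ≤ 2 ^ b ∧
      ∀ c < b, ¬ max ((n : ℝ) + 1) ((Real.exp 1 / ε) ^ 2) ≤ 2 ^ c :=
    ⟨Nat.find hex, Nat.find_spec hex, fun c hc => Nat.find_min hex hc⟩
  have hb1 : (n : ℝ) + 1 ≤ 2 ^ b := (le_max_left _ _).trans hb
  have hb2 : (Real.exp 1 / ε) ^ 2 ≤ 2 ^ b := (le_max_right _ _).trans hb
  have hb0 : b ≠ 0 := by
    rintro rfl
    have : (6 : ℝ) ≤ n := by exact_mod_cast hn3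
    norm_num at hb1
    linarith
  have hexp : Real.exp 1 ≤ 3 := by
    have := Real.exp_one_lt_d9
    linarith
  have hexp0 : 0 < Real.exp 1 := Real.exp_pos 1
  have hmax : max ((n : ℝ) + 1) ((Real.exp 1 / ε) ^ 2) ≤ 9 * (1 / ε ^ 2) := by
    apply max_le
    · nlinarith
    · rw [div_pow, div_eq_mul_one_div]
      refine mul_le_mul_of_nonneg_right ?_ (by positivity)
      nlinarith
  refine ⟨n - 1, b, hb0, ?_, ?_, ?_, ?_, ?_⟩
  · have e : (((n - 1 : ℕ) : ℝ) + 2) = (n : ℝ) + 1 := by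
      exact_mod_cast hD
    rw [e]
    rw [div_lt_iff₀ h0] at hn2
    linarith
  · rw [hD]
    push_cast
    rw [e10]
    rw [e6] at hn1
    linarith
  · rw [hD]
    exact_mod_cast hb1
  · push_cast
    exact hb2
  · push_cast
    obtain ⟨c, rfl⟩ : ∃ c, b = c + 1 := ⟨b - 1, by omega⟩
    have h3 := hmin c (by omega)
    rw [not_le] at h3
    rw [pow_succ, e100]
    have : 0 < 1 / ε ^ 2 := by positivity
    linarith

/-- the field with `2 ^ b` elements -/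
theorem exists_field (b : ℕ) (hb : b ≠ 0) : ∃ (K : Type) (_ : Field K) (_ : Fintype K)
    (_ : CharP K 2), Fintype.card K = 2 ^ b := by
  have : Fact (Nat.Prime 2) := ⟨Nat.prime_two⟩
  have : Finite (GaloisField 2 b) := by
    apply Nat.finite_of_card_ne_zero
    rw [GaloisField.card 2 b hb]
    positivity
  let _ : Fintype (GaloisField 2 b) := Fintype.ofFinite _
  refine ⟨GaloisField 2 b, inferInstance, inferInstance, inferInstance, ?_⟩
  rw [← GaloisField.card 2 b hb, Nat.card_eq_fintype_card]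

end RJx

theorem rowJ (hSp : RowSp) (hV : RowV) (hS : RowS2) (hI : RowI) : RowJ := by
  intro ε h0 h1
  obtain ⟨D, b, hb0, hD6, hD10, hDb, he, h100⟩ := RJx.params ε h0 h1
  obtain ⟨K, fK, tK, cK, hK⟩ := RJx.exists_field b hb0
  obtain ⟨C, N, hC, hN, hsp⟩ := hSp (D + 2) (by omega)
  obtain ⟨γ, hγ⟩ : ∃ γ : Fin (D + 2) → K, Function.Injective γ := by
    have hle : Fintype.card (Fin (D + 2)) ≤ Fintype.card K := by
      rw [Fintype.card_fin, hK]; exact hDb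
    obtain ⟨e⟩ := Function.Embedding.nonempty_of_card_le hle
    exact ⟨e, e.injective⟩
  have key : ∀ n : ℕ, ∃ I : LabelCover (K × K) K,
      Nat.card I.X = C * (n + 1) ∧ Nat.card I.Y = C * (n + 1) ∧
      Nat.card I.E = (D + 2) * (C * (n + 1)) ∧ I.value ≤ ε ∧
      ∀ d : ℕ, 96 * N * (d + 1) ≤ n + 1 → Nonempty (PE I d) := by
    intro n
    obtain ⟨W, tW, tau, hW, hF⟩ := hsp (n + 1) (Nat.succ_pos n)
    have : Nonempty W := by
      rw [← Fintype.card_pos_iff, hW]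
      positivity
    have heK : (Real.exp 1 / ε) ^ 2 ≤ (Fintype.card K : ℝ) := by rw [hK]; exact he
    obtain ⟨σ, hσ⟩ := hV W K D γ tau ε h0 h1 hD6 heK
    refine ⟨inst γ tau σ, ?_, ?_, ?_, hσ, ?_⟩
    · change Nat.card W = _
      rw [Nat.card_eq_fintype_card, hW]
    · change Nat.card W = _
      rw [Nat.card_eq_fintype_card, hW]
    · change Nat.card (W × Fin (D + 2)) = _
      rw [Nat.card_prod, Nat.card_eq_fintype_card, hW, Nat.card_fin, mul_comm]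
    · intro d hd
      apply hI W K D γ hγ tau σ d
      apply hS W K D γ hγ tau σ (2 * d)
      intro F hFc
      apply hF F
      have : F.card ≤ 96 * (d + 1) := by omega
      calc N * F.card ≤ N * (96 * (d + 1)) := Nat.mul_le_mul_left _ this
        _ = 96 * N * (d + 1) := by ring
        _ ≤ n + 1 := hd
  choose I hI1 hI2 hI3 hI4 hI5 using key
  refine ⟨K, tK, ⟨0⟩, D + 2, C, 96 * N, fun n => I (n - 1), ?_, hD10, hC, by positivity, ?_⟩
  · rw [hK]; exact h100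
  · intro n hn
    obtain ⟨m, rfl⟩ : ∃ m, n = m + 1 := ⟨n - 1, by omega⟩
    simp only [Nat.add_sub_cancel]
    exact ⟨hI1 m, hI2 m, hI3 m, hI4 m, fun d hd => hI5 m d hd⟩

end Pool.Agent.MP_ec946a.LR
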