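import Mathlib
import Pool.Agent.Lib.LR.Rows

/-!
# LR: row RN (numbers)
-/

set_option autoImplicit false

namespace Pool.Agent.MP_ec946a.LR

private lemma exists_t {n N c : ℕ} {A a b : ℝ} (hn : 1 ≤ n) (ha : 0 ≤ a) (hb : 0 ≤ b)
    (hA : 0 ≤ A) (hc : (c : ℝ) ≤ (n : ℝ) ^ a) (hN : (N : ℝ) * (A + 5) ≤ (n : ℝ) ^ (1 - (a + b))) :
    ∃ t : ℕ, N * (c * (t + 3) + 1) ≤ n ∧ A * (n : ℝ) ^ b ≤ t := by
  have hn1 : (1 : ℝ) ≤ n := by exact_mod_cast hn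
  have hn0 : (0 : ℝ) < n := by linarith
  have h0 : 0 ≤ A * (n : ℝ) ^ b := by positivity
  refine ⟨⌈A * (n : ℝ) ^ b⌉₊, ?_, Nat.le_ceil _⟩
  have ht : ((⌈A * (n : ℝ) ^ b⌉₊ : ℕ) : ℝ) ≤ A * (n : ℝ) ^ b + 1 := (Nat.ceil_lt_add_one h0).le
  set t : ℕ := ⌈A * (n : ℝ) ^ b⌉₊ with htdef
  have h1 : (1 : ℝ) ≤ (n : ℝ) ^ a := Real.one_le_rpow hn1 ha
  have h2 : (1 : ℝ) ≤ (n : ℝ) ^ b := Real.one_le_rpow hn1 hb
  have h3 : (n : ℝ) ^ (a + b) = (n : ℝ) ^ a * (n : ℝ) ^ b := Real.rpow_add hn0 a b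
  have h4 : (n : ℝ) ^ (1 - (a + b)) * (n : ℝ) ^ (a + b) = n := by
    rw [← Real.rpow_add hn0, sub_add_cancel, Real.rpow_one]
  have h5 : (c : ℝ) * (t + 3) ≤ (n : ℝ) ^ a * (A * (n : ℝ) ^ b + 4) :=
    mul_le_mul hc (by linarith) (by positivity) (by positivity)
  have h6 : (n : ℝ) ^ a ≤ (n : ℝ) ^ (a + b) :=
    Real.rpow_le_rpow_of_exponent_le hn1 (by linarith)
  have h7 : (c : ℝ) * (t + 3) + 1 ≤ (A + 5) * (n : ℝ) ^ (a + b) := by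
    have h8 : (n : ℝ) ^ a * (A * (n : ℝ) ^ b + 4) = A * (n : ℝ) ^ (a + b) + 4 * (n : ℝ) ^ a := by
      rw [h3]
      ring
    rw [h8] at h5
    linarith
  have h8 : ((N * (c * (t + 3) + 1) : ℕ) : ℝ) ≤ (n : ℝ) := by
    push_cast
    calc (N : ℝ) * (c * (t + 3) + 1) ≤ N * ((A + 5) * (n : ℝ) ^ (a + b)) :=
          mul_le_mul_of_nonneg_left h7 (Nat.cast_nonneg N)
      _ = N * (A + 5) * (n : ℝ) ^ (a + b) := by ring
      _ ≤ (n : ℝ) ^ (1 - (a + b)) * (n : ℝ) ^ (a + b) :=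
          mul_le_mul_of_nonneg_right hN (by positivity)
      _ = n := h4
  exact_mod_cast h8

theorem rowN : RowN := by
  intro N hN
  refine ⟨(N * (10 ^ 8 + 5)) ^ 128, fun n hn => ?_⟩
  have hM : 1 ≤ N * (10 ^ 8 + 5) := Nat.mul_pos hN (by norm_num)
  have hn1 : 1 ≤ n := (Nat.one_le_pow _ _ hM).trans hn
  have hn1' : (1 : ℝ) ≤ n := by exact_mod_cast hn1
  have h1 : (N : ℝ) * (10 ^ 8 + 5) ≤ (n : ℝ) ^ (1 / 128 : ℝ) := by
    have h2 : ((N : ℝ) * (10 ^ 8 + 5)) ^ 128 ≤ n := by exact_mod_cast hn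
    have h3 : (0 : ℝ) ≤ (N : ℝ) * (10 ^ 8 + 5) := by positivity
    generalize (N : ℝ) * (10 ^ 8 + 5) = M at h2 h3 ⊢
    calc M = (M ^ 128) ^ (1 / 128 : ℝ) := by
          rw [← Real.rpow_natCast, ← Real.rpow_mul h3]
          norm_num
      _ ≤ (n : ℝ) ^ (1 / 128 : ℝ) := Real.rpow_le_rpow (by positivity) h2 (by norm_num)
  refine ⟨fun c hc => ?_, fun c hc => ?_⟩
  · have h2 : ((n : ℝ) ^ (17 / 16 : ℝ)) ^ (7 / 8 : ℝ) = (n : ℝ) ^ (119 / 128 : ℝ) := by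
      rw [← Real.rpow_mul (by linarith)]
      norm_num
    rw [h2]
    refine exists_t hn1 (by norm_num) (by norm_num) (by norm_num) hc ?_
    refine h1.trans (le_of_eq ?_)
    norm_num
  · refine exists_t hn1 (by norm_num) (by norm_num) (by norm_num) hc ?_
    have h2 : (N : ℝ) * (1152 + 5) ≤ (N : ℝ) * (10 ^ 8 + 5) :=
      mul_le_mul_of_nonneg_left (by norm_num) (Nat.cast_nonneg N)
    refine h2.trans (h1.trans ?_)
    exact Real.rpow_le_rpow_of_exponent_le hn1' (by norm_num)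

end Pool.Agent.MP_ec946a.LR
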