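import Mathlib
import Pool.Agent.Lib.LR.Rows

/-!
# LR: row RS1 (sparse sets of constraints)
-/

set_option autoImplicit false

namespace Pool.Agent.MP_ec946a.LR

open Finset Classical

/-- a sum which vanishes has no term which is the only one different from zero -/
private lemma exists_other {J K : Type} [Fintype J] [AddCommMonoid K] (f : J → K)
    (h : ∑ j, f j = 0) {j₀ : J} (h0 : f j₀ ≠ 0) : ∃ j₁, j₁ ≠ j₀ ∧ f j₁ ≠ 0 := by
  by_contra hcon
  push Not at hcon
  refine h0 ?_
  rw [← h]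
  exact (sum_eq_single j₀ (fun j _ hj => hcon j hj) (fun h => absurd (mem_univ _) h)).symm

/-- a nonzero word which is orthogonal to the lines has three nonzero coordinates -/
private lemma exists_three {J K : Type} [Fintype J] [Field K] (γ : J → K) (c : J → K)
    (h1 : ∑ j, c j = 0) (h2 : ∑ j, γ j * c j = 0) {j₀ : J} (h0 : c j₀ ≠ 0)
    (hγ : Function.Injective γ) : ∃ j₁ j₂, c j₁ ≠ 0 ∧ c j₂ ≠ 0 ∧ j₁ ≠ j₀ ∧ j₂ ≠ j₀ ∧ j₂ ≠ j₁ := by
  obtain ⟨j₁, hj₁, hc₁⟩ := exists_other c h1 h0
  have h3 : ∑ j, (γ j - γ j₁) * c j = 0 := by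
    simp only [sub_mul, sum_sub_distrib]
    rw [← mul_sum, h1, h2, mul_zero, sub_zero]
  have h4 : (γ j₀ - γ j₁) * c j₀ ≠ 0 :=
    mul_ne_zero (sub_ne_zero.mpr fun h => hj₁ (hγ h).symm) h0
  obtain ⟨j₂, hj₂, hc₂⟩ := exists_other (fun j => (γ j - γ j₁) * c j) h3 h4
  refine ⟨j₁, j₂, hc₁, right_ne_zero_of_mul hc₂, hj₁, hj₂, ?_⟩
  rintro rfl
  rw [sub_self, zero_mul] at hc₂
  exact hc₂ rfl

theorem rowS1 : RowS1 := by
  intro W K _ _ D γ hγ tau c h1 h2 hsp
  have hw : wgt c = (univ.filter fun e => c e ≠ 0).card := rfl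
  rw [hw] at hsp ⊢
  set F : Finset (W × Fin (D + 2)) := univ.filter fun e => c e ≠ 0 with hF
  have hmem : ∀ e, e ∈ F ↔ c e ≠ 0 := fun e => by rw [hF, mem_filter]; simp
  -- three edges at every vertex in `X`
  have h3 : 3 * (F.image Prod.fst).card ≤ F.card := by
    have hs := card_eq_sum_card_image Prod.fst F
    have hle : ∀ w ∈ F.image Prod.fst, 3 ≤ (F.filter fun e => e.1 = w).card := by
      intro w hw
      obtain ⟨⟨w', j₀⟩, he, hw'⟩ := mem_image.mp hw
      obtain rfl : w' = w := hw'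
      obtain ⟨j₁, j₂, hc₁, hc₂, h01, h02, h12⟩ := exists_three γ (fun j => c (w', j)) (h1 w')
        (h2 w') (j₀ := j₀) ((hmem _).mp he) hγ
      have hsub : ({(w', j₀), (w', j₁), (w', j₂)} : Finset (W × Fin (D + 2)))
          ⊆ F.filter fun e => e.1 = w' := by
        intro e
        simp only [mem_insert, mem_singleton, mem_filter, hmem]
        rintro (rfl | rfl | rfl)
        · exact ⟨(hmem _).mp he, rfl⟩
        · exact ⟨hc₁, rfl⟩
        · exact ⟨hc₂, rfl⟩
      refine le_trans (le_of_eq ?_) (card_le_card hsub)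
      symm
      rw [card_eq_three]
      refine ⟨(w', j₀), (w', j₁), (w', j₂), ?_, ?_, ?_, rfl⟩
      · exact fun h => h01 (Prod.mk.inj h).2.symm
      · exact fun h => h02 (Prod.mk.inj h).2.symm
      · exact fun h => h12 (Prod.mk.inj h).2.symm
    have hsum := card_nsmul_le_sum _ _ _ hle
    rw [← hs, smul_eq_mul, mul_comm] at hsum
    exact hsum
  -- the vertices in `Y` with one edge
  set tgt : W × Fin (D + 2) → W := fun e => tau e.2 e.1 with htgt
  set Y₁ : Finset W := (F.image tgt).filter fun y => (F.filter fun e => tgt e = y).card = 1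
    with hY₁
  have h4 : 2 * (F.image tgt).card ≤ F.card + Y₁.card := by
    have hs := card_eq_sum_card_image tgt F
    have hY : Y₁.card = ∑ y ∈ F.image tgt,
        if (F.filter fun e => tgt e = y).card = 1 then 1 else 0 := by
      rw [hY₁]
      exact card_filter _ _
    rw [hY]
    rw [hs]
    rw [← sum_add_distrib, mul_comm, ← smul_eq_mul]
    refine card_nsmul_le_sum _ _ _ fun y hy => ?_
    have hpos : 0 < (F.filter fun e => tgt e = y).card := by
      obtain ⟨e, he, hey⟩ := mem_image.mp hy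
      exact card_pos.mpr ⟨e, mem_filter.mpr ⟨he, hey⟩⟩
    split_ifs with h
    · omega
    · omega
  have h5 : Y₁.card ≤ wgt (fun y => ∑ e ∈ univ.filter (fun e => tgt e = y), c e) := by
    refine card_le_card fun y hy => ?_
    obtain ⟨-, hy1⟩ := mem_filter.mp hy
    obtain ⟨e₀, he₀⟩ := card_eq_one.mp hy1
    have hmem₀ : e₀ ∈ F.filter fun e => tgt e = y := by rw [he₀]; exact mem_singleton_self _
    obtain ⟨hF₀, ht₀⟩ := mem_filter.mp hmem₀
    refine mem_filter.mpr ⟨mem_univ _, ?_⟩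
    show ∑ e ∈ univ.filter (fun e => tgt e = y), c e ≠ 0
    rw [sum_eq_single_of_mem e₀ (mem_filter.mpr ⟨mem_univ _, ht₀⟩)]
    · exact (hmem _).mp hF₀
    · intro e he hne
      by_contra hc
      have : e ∈ F.filter fun e => tgt e = y :=
        mem_filter.mpr ⟨(hmem _).mpr hc, (mem_filter.mp he).2⟩
      rw [he₀] at this
      exact hne (mem_singleton.mp this)
  have h6 : 11 * F.card ≤ 12 * ((F.image Prod.fst).card + (F.image tgt).card) := hsp
  have h7 : F.card ≤ 6 * Y₁.card := by omega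
  exact h7.trans (Nat.mul_le_mul_left 6 h5)

end Pool.Agent.MP_ec946a.LR
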