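import Mathlib

/-!
# LR, row R3: level sets (a local inequality of Cheeger type)
-/

set_option autoImplicit false

namespace Pool.Agent.MP_ec946a.SDA

open Finset

/-- the integral of the indicator function of an initial segment -/
lemma integral_ind {a K : ℝ} (h0 : 0 ≤ a) (hK : a ≤ K) :
    ∫ θ in (0 : ℝ)..K, (if θ ≤ a then (1 : ℝ) else 0) = a := by
  have h1 := intervalIntegral.integral_indicator (f := fun _ : ℝ => (1 : ℝ)) (μ := MeasureTheory.volume)
    (show a ∈ Set.Icc (0 : ℝ) K from ⟨h0, hK⟩)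
  have h2 : (fun θ : ℝ => if θ ≤ a then (1 : ℝ) else 0)
      = Set.indicator {x | x ≤ a} fun _ => (1 : ℝ) := by
    funext θ
    simp [Set.indicator_apply]
  rw [h2, h1]
  simp

lemma integrable_ind (a K : ℝ) :
    IntervalIntegrable (fun θ : ℝ => if θ ≤ a then (1 : ℝ) else 0) MeasureTheory.volume 0 K := by
  have h1 : Antitone fun θ : ℝ => if θ ≤ a then (1 : ℝ) else 0 := by
    intro x y hxy
    show (if y ≤ a then (1 : ℝ) else 0) ≤ if x ≤ a then (1 : ℝ) else 0
    split_ifs with h2 h3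
    · exact le_refl _
    · exact absurd (hxy.trans h2) h3
    · norm_num
    · exact le_refl _
  exact h1.intervalIntegrable

/-- the level sets of two families of numbers -/
lemma exists_level {E : Type} [Fintype E] [Nonempty E] (p r : E → ℝ) (hp : ∀ e, 0 ≤ p e)
    (hr : ∀ e, 0 ≤ r e) (hpr : ∀ e, p e ≤ r e) (hR : 0 < ∑ e, r e) :
    ∃ θ : ℝ, 0 < θ ∧ 0 < ∑ e, (if θ ≤ r e then (1 : ℝ) else 0) ∧
      (∑ e, p e) * ∑ e, (if θ ≤ r e then (1 : ℝ) else 0)
        ≤ (∑ e, r e) * ∑ e, (if θ ≤ p e then (1 : ℝ) else 0) := by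
  obtain ⟨e₀, -, he₀⟩ := exists_max_image univ r univ_nonempty
  set K : ℝ := r e₀ with hK
  have hK0 : 0 < K := by
    by_contra h
    push Not at h
    have h1 : ∑ e, r e ≤ 0 := sum_nonpos fun e _ => (he₀ e (mem_univ e)).trans h
    linarith
  by_contra hcon
  push Not at hcon
  have hpos : ∀ θ ∈ Set.Ioo (0 : ℝ) K, 0 < (∑ e, p e) * (∑ e, (if θ ≤ r e then (1 : ℝ) else 0))
      - (∑ e, r e) * (∑ e, (if θ ≤ p e then (1 : ℝ) else 0)) := by
    intro θ hθ
    have h1 : 0 < ∑ e, (if θ ≤ r e then (1 : ℝ) else 0) := by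
      refine sum_pos' (fun e _ => by split_ifs <;> norm_num) ⟨e₀, mem_univ _, ?_⟩
      rw [if_pos hθ.2.le]
      norm_num
    have h2 := hcon θ hθ.1 h1
    linarith
  have hint1 : IntervalIntegrable
      (fun θ : ℝ => (∑ e, p e) * (∑ e, (if θ ≤ r e then (1 : ℝ) else 0)))
      MeasureTheory.volume 0 K := by
    refine IntervalIntegrable.const_mul ?_ _
    have h1 := IntervalIntegrable.sum (μ := MeasureTheory.volume) (a := 0) (b := K) (univ : Finset E)
      (f := fun e θ => if θ ≤ r e then (1 : ℝ) else 0) fun e _ => integrable_ind (r e) K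
    refine (intervalIntegrable_congr ?_).mp h1
    intro θ _
    simp
  have hint2 : IntervalIntegrable
      (fun θ : ℝ => (∑ e, r e) * (∑ e, (if θ ≤ p e then (1 : ℝ) else 0)))
      MeasureTheory.volume 0 K := by
    refine IntervalIntegrable.const_mul ?_ _
    have h1 := IntervalIntegrable.sum (μ := MeasureTheory.volume) (a := 0) (b := K) (univ : Finset E)
      (f := fun e θ => if θ ≤ p e then (1 : ℝ) else 0) fun e _ => integrable_ind (p e) K
    refine (intervalIntegrable_congr ?_).mp h1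
    intro θ _
    simp
  have h1 := intervalIntegral.intervalIntegral_pos_of_pos_on (hint1.sub hint2) hpos hK0
  rw [intervalIntegral.integral_sub hint1 hint2, intervalIntegral.integral_const_mul,
    intervalIntegral.integral_const_mul,
    intervalIntegral.integral_finsetSum (fun e _ => integrable_ind (r e) K),
    intervalIntegral.integral_finsetSum (fun e _ => integrable_ind (p e) K),
    sum_congr rfl fun e _ => integral_ind (hr e) (he₀ e (mem_univ e)),
    sum_congr rfl fun e _ => integral_ind (hp e) ((hpr e).trans (he₀ e (mem_univ e)))] at h1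
  linarith [mul_comm (∑ e, p e) (∑ e, r e)]

/-- **row R3**: if two nonnegative unit vectors, one on each side of a bipartite multigraph, have
the correlation `t`, then there is a level such that the inner edges of the level sets are at least
the part `(1 - √(1 - t²)) / (1 + √(1 - t²))` of the incident edges. -/
theorem level_sets {E X Y : Type} [Fintype E] (src : E → X) (tgt : E → Y) (x : X → ℝ) (y : Y → ℝ)
    (hx : ∀ a, 0 ≤ x a) (hy : ∀ b, 0 ≤ y b) (h1 : ∑ e, x (src e) ^ 2 = 1)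
    (h2 : ∑ e, y (tgt e) ^ 2 = 1) {t : ℝ} (ht : 0 ≤ t) (hle : t ≤ ∑ e, x (src e) * y (tgt e)) :
    ∃ θ : ℝ, 0 < θ ∧
      0 < ((univ.filter fun e => θ ≤ x (src e) ^ 2 ∨ θ ≤ y (tgt e) ^ 2).card : ℝ) ∧
      (1 - √(1 - t ^ 2)) * ((univ.filter fun e => θ ≤ x (src e) ^ 2 ∨ θ ≤ y (tgt e) ^ 2).card : ℝ)
        ≤ (1 + √(1 - t ^ 2))
          * ((univ.filter fun e => θ ≤ x (src e) ^ 2 ∧ θ ≤ y (tgt e) ^ 2).card : ℝ) := by
  have hne : Nonempty E := by
    by_contra h
    rw [not_nonempty_iff] at h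
    simp at h1
  set p : E → ℝ := fun e => min (x (src e) ^ 2) (y (tgt e) ^ 2) with hp
  set r : E → ℝ := fun e => max (x (src e) ^ 2) (y (tgt e) ^ 2) with hr
  have hp0 : ∀ e, 0 ≤ p e := fun e => le_min (sq_nonneg _) (sq_nonneg _)
  have hr0 : ∀ e, 0 ≤ r e := fun e => (sq_nonneg _).trans (le_max_left _ _)
  have hpr : ∀ e, p e ≤ r e := fun e => min_le_max
  have hsum : ∑ e, p e + ∑ e, r e = 2 := by
    rw [← sum_add_distrib]
    have h3 : ∀ e, p e + r e = x (src e) ^ 2 + y (tgt e) ^ 2 := fun e => min_add_max _ _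
    rw [sum_congr rfl fun e _ => h3 e, sum_add_distrib, h1, h2]
    norm_num
  have hm1 : ∑ e, p e ≤ ∑ e, r e := sum_le_sum fun e _ => hpr e
  have hcs : (∑ e, x (src e) * y (tgt e)) ^ 2 ≤ (∑ e, p e) * ∑ e, r e := by
    have h3 := sum_mul_sq_le_sq_mul_sq univ (fun e => √(p e)) (fun e => √(r e))
    have h4 : ∀ e, √(p e) * √(r e) = x (src e) * y (tgt e) := by
      intro e
      rw [← Real.sqrt_mul (hp0 e)]
      have h5 : p e * r e = (x (src e) * y (tgt e)) ^ 2 := by
        show min (x (src e) ^ 2) (y (tgt e) ^ 2) * max (x (src e) ^ 2) (y (tgt e) ^ 2) = _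
        rw [min_mul_max]
        ring
      rw [h5, Real.sqrt_sq (mul_nonneg (hx _) (hy _))]
    rw [sum_congr rfl fun e _ => h4 e, sum_congr rfl fun e _ => Real.sq_sqrt (hp0 e),
      sum_congr rfl fun e _ => Real.sq_sqrt (hr0 e)] at h3
    exact h3
  obtain ⟨θ, hθ, hpos, hlev⟩ := exists_level p r hp0 hr0 hpr (by linarith)
  have hc1 : ((univ.filter fun e => θ ≤ x (src e) ^ 2 ∨ θ ≤ y (tgt e) ^ 2).card : ℝ)
      = ∑ e, (if θ ≤ r e then (1 : ℝ) else 0) := by
    rw [card_filter]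
    push_cast
    refine sum_congr rfl fun e _ => ?_
    have h3 : (θ ≤ x (src e) ^ 2 ∨ θ ≤ y (tgt e) ^ 2) ↔ θ ≤ r e := le_max_iff.symm
    simp only [h3]
  have hc2 : ((univ.filter fun e => θ ≤ x (src e) ^ 2 ∧ θ ≤ y (tgt e) ^ 2).card : ℝ)
      = ∑ e, (if θ ≤ p e then (1 : ℝ) else 0) := by
    rw [card_filter]
    push_cast
    refine sum_congr rfl fun e _ => ?_
    have h3 : (θ ≤ x (src e) ^ 2 ∧ θ ≤ y (tgt e) ^ 2) ↔ θ ≤ p e := le_min_iff.symm
    simp only [h3]
  refine ⟨θ, hθ, by rw [hc1]; exact hpos, ?_⟩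
  rw [hc1, hc2]
  set A : ℝ := ∑ e, (if θ ≤ r e then (1 : ℝ) else 0)
  set B : ℝ := ∑ e, (if θ ≤ p e then (1 : ℝ) else 0)
  have hB0 : 0 ≤ B := sum_nonneg fun e _ => by split_ifs <;> norm_num
  have hm0 : 0 ≤ ∑ e, p e := sum_nonneg fun e _ => hp0 e
  set m : ℝ := ∑ e, p e with hm
  have hM : ∑ e, r e = 2 - m := by linarith
  rw [hM] at hlev hcs
  have hs : 1 - m ≤ √(1 - t ^ 2) := by
    refine Real.le_sqrt_of_sq_le ?_
    have h3 : t ^ 2 ≤ (∑ e, x (src e) * y (tgt e)) ^ 2 := pow_le_pow_left₀ ht hle 2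
    nlinarith
  nlinarith

end Pool.Agent.MP_ec946a.SDA
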