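import Mathlib
import Pool.Agent.Lib.LR.Rows
import Pool.Agent.Lib.LR.R3

/-!
# LR, row R3: the form of `Rows.lean`
-/

set_option autoImplicit false

namespace Pool.Agent.MP_ec946a.LR

open Finset Classical

theorem rowR3 : RowR3 := by
  intro E X Y _ src tgt r s hr hr1 hs hrs x T hx hT hS hle
  set f : E → ℝ := fun e => x (src e) with hf
  set S : ℝ := ∑ e, x (src e) ^ 2 with hSdef
  set Z : ℝ := ∑ e, SDA.av tgt f e ^ 2 with hZdef
  have hs2 : 0 < s ^ 2 := by positivity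
  have hZ0 : 0 < Z := lt_of_lt_of_le (mul_pos hs2 hS) hle
  have hZS : Z ≤ S := SDA.sum_av_sq_le (π := tgt) f
  have hs1 : s ^ 2 ≤ 1 := by
    by_contra h
    push Not at h
    nlinarith
  have hf0 : ∀ e, 0 ≤ f e := fun e => hx _
  let y : Y → ℝ := fun b => if h : ∃ e, tgt e = b then SDA.av tgt f h.choose else 0
  have hy : ∀ e, y (tgt e) = SDA.av tgt f e := by
    intro e
    have h : ∃ e', tgt e' = tgt e := ⟨e, rfl⟩
    show (if h : ∃ e', tgt e' = tgt e then SDA.av tgt f h.choose else 0) = _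
    rw [dif_pos h]
    exact SDA.av_congr h.choose_spec f
  have hy0 : ∀ b, 0 ≤ y b := by
    intro b
    show 0 ≤ (if h : ∃ e', tgt e' = b then SDA.av tgt f h.choose else 0)
    split_ifs with h
    · exact SDA.av_nonneg hf0 _
    · exact le_refl _
  have hsS : 0 < √S := Real.sqrt_pos.mpr hS
  have hsZ : 0 < √Z := Real.sqrt_pos.mpr hZ0
  obtain ⟨θ, hθ, hpos, hlev⟩ := SDA.level_sets src tgt (fun a => x a / √S) (fun b => y b / √Z)
    (fun a => div_nonneg (hx a) hsS.le) (fun b => div_nonneg (hy0 b) hsZ.le)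
    (by
      have h1 : ∀ e, (x (src e) / √S) ^ 2 = x (src e) ^ 2 / S := fun e => by
        rw [div_pow, Real.sq_sqrt hS.le]
      rw [sum_congr rfl fun e _ => h1 e, ← sum_div, ← hSdef]
      exact div_self hS.ne')
    (by
      have h1 : ∀ e, (y (tgt e) / √Z) ^ 2 = SDA.av tgt f e ^ 2 / Z := fun e => by
        rw [hy, div_pow, Real.sq_sqrt hZ0.le]
      rw [sum_congr rfl fun e _ => h1 e, ← sum_div, ← hZdef]
      exact div_self hZ0.ne')
    (t := s) hs.le
    (by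
      have h1 : ∀ e, x (src e) / √S * (y (tgt e) / √Z)
          = f e * SDA.av tgt f e / (√S * √Z) := fun e => by
        rw [hy, div_mul_div_comm]
      rw [sum_congr rfl fun e _ => h1 e, ← sum_div, ← SDA.sum_av_sq, ← hZdef,
        le_div_iff₀ (mul_pos hsS hsZ)]
      have h2 : s * √S ≤ √Z := by
        refine Real.le_sqrt_of_sq_le ?_
        rw [mul_pow, Real.sq_sqrt hS.le]
        exact hle
      calc s * (√S * √Z) = (s * √S) * √Z := by ring
        _ ≤ √Z * √Z := mul_le_mul_of_nonneg_right h2 hsZ.le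
        _ = Z := Real.mul_self_sqrt hZ0.le)
  have hA : ∀ u, u ∈ (T.filter fun u => θ ≤ (x u / √S) ^ 2) ↔ θ ≤ (x u / √S) ^ 2 := by
    intro u
    rw [mem_filter]
    refine ⟨fun h4 => h4.2, fun h4 => ⟨?_, h4⟩⟩
    by_contra h5
    rw [hT u h5] at h4
    norm_num at h4
    linarith
  refine ⟨T.filter fun u => θ ≤ (x u / √S) ^ 2, {b | θ ≤ (y b / √Z) ^ 2}, filter_subset _ _, ?_⟩
  simp only [hA, Set.mem_ofPred_eq]
  set P : ℝ := ((univ.filter fun e => θ ≤ (x (src e) / √S) ^ 2 ∨ θ ≤ (y (tgt e) / √Z) ^ 2).card : ℝ)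
  set Q : ℝ := ((univ.filter fun e => θ ≤ (x (src e) / √S) ^ 2 ∧ θ ≤ (y (tgt e) / √Z) ^ 2).card : ℝ)
  have hσ0 := Real.sqrt_nonneg (1 - s ^ 2)
  have hσ2 : √(1 - s ^ 2) ^ 2 = 1 - s ^ 2 := Real.sq_sqrt (by linarith)
  set σ : ℝ := √(1 - s ^ 2)
  have h1 : (1 + r) * σ < 1 - r := by
    refine lt_of_pow_lt_pow_left₀ 2 (by linarith) ?_
    rw [mul_pow, hσ2]
    nlinarith
  have h2 : r * (1 + σ) < 1 - σ := by linarith
  have h3 : (r * (1 + σ)) * P < (1 + σ) * Q := lt_of_lt_of_le (mul_lt_mul_of_pos_right h2 hpos) hlev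
  have h4 : (1 + σ) * (r * P) < (1 + σ) * Q := by linarith
  exact lt_of_mul_lt_mul_left h4 (by linarith)

end Pool.Agent.MP_ec946a.LR
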