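import Mathlib
import Pool.Agent.Lib.LR.Rows

/-!
# LR, row RS2: the pseudo-expectation of the instances
-/

set_option autoImplicit false

namespace Pool.Agent.MP_ec946a.LR

open Finset Classical

section comb

variable {W K : Type} [Fintype W] [Field K] {D : ℕ}

/-- the combinations of constraints: a dual word at every vertex -/
def Comb (W : Type) (γ : Fin (D + 2) → K) : AddSubgroup (W × Fin (D + 2) → K) where
  carrier := {c | (∀ w, ∑ j, c (w, j) = 0) ∧ ∀ w, ∑ j, γ j * c (w, j) = 0}
  add_mem' {c c'} h h' := by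
    refine ⟨fun w => ?_, fun w => ?_⟩
    · simp only [Pi.add_apply, sum_add_distrib, h.1 w, h'.1 w, add_zero]
    · simp only [Pi.add_apply, mul_add, sum_add_distrib, h.2 w, h'.2 w, add_zero]
  zero_mem' := ⟨fun w => by simp, fun w => by simp⟩
  neg_mem' {c} h := by
    refine ⟨fun w => ?_, fun w => ?_⟩
    · simp only [Pi.neg_apply, sum_neg_distrib, h.1 w, neg_zero]
    · simp only [Pi.neg_apply, mul_neg, sum_neg_distrib, h.2 w, neg_zero]

/-- the coefficients of the combination -/
noncomputable def phiF (tau : Fin (D + 2) → W → W) (c : W × Fin (D + 2) → K) (y : W) : K :=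
  ∑ e ∈ univ.filter (fun e : W × Fin (D + 2) => tau e.2 e.1 = y), c e

lemma sum_phiF (tau : Fin (D + 2) → W → W) (c : W × Fin (D + 2) → K) (z : W → K) :
    ∑ y, phiF tau c y * z y = ∑ e : W × Fin (D + 2), c e * z (tau e.2 e.1) := by
  unfold phiF
  rw [← sum_fiberwise univ (fun e : W × Fin (D + 2) => tau e.2 e.1)
    fun e => c e * z (tau e.2 e.1)]
  refine sum_congr rfl fun y _ => ?_
  rw [sum_mul]
  refine sum_congr rfl fun e he => ?_
  rw [(mem_filter.mp he).2]

lemma wgt_phiF (tau : Fin (D + 2) → W → W) (c : W × Fin (D + 2) → K) :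
    wgt (phiF tau c) ≤ wgt c := by
  unfold wgt
  refine (card_le_card (t := (univ.filter fun e => c e ≠ 0).image
    fun e : W × Fin (D + 2) => tau e.2 e.1) fun y hy => ?_).trans card_image_le
  rw [mem_filter] at hy
  rw [mem_image]
  by_contra hcon
  push Not at hcon
  refine hy.2 (sum_eq_zero fun e he => ?_)
  by_contra h0
  exact hcon e (mem_filter.mpr ⟨mem_univ _, h0⟩) (mem_filter.mp he).2

/-- the relation between three points of a line -/
noncomputable def three (γ : Fin (D + 2) → K) (e : W × Fin (D + 2)) : W × Fin (D + 2) → K :=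
  Pi.single (e.1, 0) (γ 1 + γ e.2) + Pi.single (e.1, 1) (γ 0 + γ e.2)
    + Pi.single e (γ 0 + γ 1)

lemma sum_three (γ : Fin (D + 2) → K) (e : W × Fin (D + 2)) (g : W × Fin (D + 2) → K) :
    ∑ e', three γ e e' * g e' = (γ 1 + γ e.2) * g (e.1, 0) + (γ 0 + γ e.2) * g (e.1, 1)
      + (γ 0 + γ 1) * g e := by
  unfold three
  simp only [Pi.add_apply, add_mul, sum_add_distrib, Pi.single_apply, ite_mul, zero_mul,
    sum_ite_eq', mem_univ, if_true]

lemma sum_fibre (f : W × Fin (D + 2) → K) (w : W) :
    ∑ j, f (w, j) = ∑ e' : W × Fin (D + 2), f e' * (if e'.1 = w then 1 else 0) := by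
  rw [Fintype.sum_prod_type]
  simp only [mul_ite, mul_one, mul_zero]
  rw [sum_eq_single_of_mem w (mem_univ _)]
  · simp
  · intro w' _ hw'
    refine sum_eq_zero fun j _ => ?_
    rw [if_neg hw']

lemma three_mem [CharP K 2] (γ : Fin (D + 2) → K) (e : W × Fin (D + 2)) :
    three γ e ∈ Comb W γ := by
  refine ⟨fun w => ?_, fun w => ?_⟩
  · rw [sum_fibre (three γ e) w, sum_three]
    dsimp only
    by_cases h : e.1 = w
    · rw [if_pos h]
      have h2 : (γ 1 + γ e.2) * 1 + (γ 0 + γ e.2) * 1 + (γ 0 + γ 1) * 1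
          = (γ 0 + γ 0) + (γ 1 + γ 1) + (γ e.2 + γ e.2) := by ring
      rw [h2]
      simp only [CharTwo.add_self_eq_zero]
    · rw [if_neg h]
      simp
  · have h1 := sum_fibre (fun e' => three γ e e' * γ e'.2) w
    have h2 : ∑ j, γ j * three γ e (w, j) = ∑ j, three γ e (w, j) * γ j :=
      sum_congr rfl fun j _ => mul_comm _ _
    rw [h2]
    refine h1.trans ?_
    simp only [mul_assoc]
    rw [sum_three]
    dsimp only
    by_cases h : e.1 = w
    · rw [if_pos h]
      have h2 : (γ 1 + γ e.2) * (γ 0 * 1) + (γ 0 + γ e.2) * (γ 1 * 1)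
          + (γ 0 + γ 1) * (γ e.2 * 1)
          = (γ 0 * γ 1 + γ 0 * γ 1) + (γ 0 * γ e.2 + γ 0 * γ e.2)
            + (γ 1 * γ e.2 + γ 1 * γ e.2) := by ring
      rw [h2]
      simp only [CharTwo.add_self_eq_zero]
    · rw [if_neg h]
      simp

lemma wgt_three (γ : Fin (D + 2) → K) (e : W × Fin (D + 2)) (a : K) :
    wgt (fun e' => a * three γ e e') ≤ 3 := by
  unfold wgt
  refine (card_le_card (t := {(e.1, 0), (e.1, 1), e}) fun e' he' => ?_).trans card_le_three
  rw [mem_filter] at he'
  by_contra hcon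
  simp only [mem_insert, mem_singleton, not_or] at hcon
  refine he'.2 ?_
  show a * three γ e e' = 0
  unfold three
  rw [Pi.add_apply, Pi.add_apply, Pi.single_eq_of_ne hcon.1, Pi.single_eq_of_ne hcon.2.1,
    Pi.single_eq_of_ne hcon.2.2]
  simp

end comb

theorem rowS2 (hC : RowC) (hF : RowF) (hG : RowG) (h1 : RowS1) : RowS2 := by
  intro W K _ _ _ _ _ D γ hγ tau σ d hsp
  obtain ⟨χ⟩ := hC K
  let Γ := Comb W γ
  let φ : Γ →+ (W → K) :=
    { toFun := fun c => phiF tau c.1
      map_zero' := by
        funext y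
        exact sum_eq_zero fun e _ => rfl
      map_add' := fun c c' => by
        funext y
        exact sum_add_distrib }
  let τ : Γ →+ K :=
    { toFun := fun c => ∑ e, c.1 e * σ e
      map_zero' := sum_eq_zero fun e _ => zero_mul _
      map_add' := fun c c' => by
        rw [← sum_add_distrib]
        exact sum_congr rfl fun e _ => add_mul _ _ _ }
  let g : W × Fin (D + 2) → K → Γ := fun e a => ⟨fun e' => a * three γ e e', by
    have h2 := three_mem γ e
    refine ⟨fun w => ?_, fun w => ?_⟩
    · rw [← mul_sum, h2.1 w, mul_zero]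
    · have h3 : ∀ j, γ j * (a * three γ e (w, j)) = a * (γ j * three γ e (w, j)) :=
        fun j => by ring
      rw [sum_congr rfl fun j _ => h3 j, ← mul_sum, h2.2 w, mul_zero]⟩
  obtain ⟨s, hs0, hs1, hs2⟩ := hG W K Γ (W × Fin (D + 2)) χ φ τ (fun c => wgt c.1) d
    (fun e => phiF tau (three γ e)) (fun e => ∑ e', three γ e e' * σ e') g
    (by
      show wgt (0 : W × Fin (D + 2) → K) = 0
      unfold wgt
      rw [card_eq_zero, filter_eq_empty_iff]
      intro e _ h
      exact h rfl)
    (fun c hc => by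
      have hc' : (univ.filter fun e => c.1 e ≠ 0).card = 0 := hc
      rw [card_eq_zero, filter_eq_empty_iff] at hc'
      refine Subtype.ext (funext fun e => ?_)
      exact not_not.mp (hc' (mem_univ e)))
    (fun c c' => by
      show (univ.filter fun e => c.1 e + c'.1 e ≠ 0).card ≤ (univ.filter fun e => c.1 e ≠ 0).card
        + (univ.filter fun e => c'.1 e ≠ 0).card
      refine (card_le_card fun e he => ?_).trans (card_union_le _ _)
      rw [mem_filter] at he
      rw [mem_union, mem_filter, mem_filter]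
      by_contra hcon
      push Not at hcon
      refine he.2 ?_
      rw [hcon.1 (mem_univ _), hcon.2 (mem_univ _), add_zero])
    (fun c => by
      show (univ.filter fun e => -c.1 e ≠ 0).card = (univ.filter fun e => c.1 e ≠ 0).card
      congr 1
      ext e
      simp)
    (fun c hc => by
      exact h1 W K D γ hγ tau c.1 c.2.1 c.2.2 (hsp _ hc))
    (fun e a => by
      funext y
      show phiF tau (fun e' => a * three γ e e') y = a * phiF tau (three γ e) y
      unfold phiF
      rw [mul_sum])
    (fun e a => by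
      show ∑ e', a * three γ e e' * σ e' = a * ∑ e', three γ e e' * σ e'
      rw [mul_sum]
      exact sum_congr rfl fun e' _ => mul_assoc _ _ _)
    (fun e a => wgt_three γ e a)
    (fun e => (wgt_phiF tau _).trans (by
      have h2 := wgt_three γ e (1 : K)
      simpa using h2))
  have hP := hF W K (W × Fin (D + 2)) χ s d (fun e => phiF tau (three γ e))
    (fun e => ∑ e', three γ e e' * σ e') hs0 hs1 hs2
  have hset : (fun e => {z : W → K | ∑ y, phiF tau (three γ e) y * z y
      = ∑ e', three γ e e' * σ e'}) = lin γ tau σ := by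
    funext e
    ext z
    show ∑ y, phiF tau (three γ e) y * z y = ∑ e', three γ e e' * σ e' ↔
      (γ 1 + γ e.2) * (z (tau 0 e.1) + σ (e.1, 0)) + (γ 0 + γ e.2) * (z (tau 1 e.1) + σ (e.1, 1))
        + (γ 0 + γ 1) * (z (tau e.2 e.1) + σ e) = 0
    rw [sum_phiF, sum_three γ e fun e' => z (tau e'.2 e'.1), sum_three γ e σ, ← sub_eq_zero,
      CharTwo.sub_eq_add]
    refine Eq.congr ?_ rfl
    ring
  rw [← hset]
  exact hP

end Pool.Agent.MP_ec946a.LR
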