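import Pool.Agent.Lib.MP_ec946a_Games.Graph
import Pool.Agent.Lib.LR.Rows

/-!
# LR: row RSp (sparse graphs)
-/

set_option autoImplicit false

namespace Pool.Agent.MP_ec946a.LR

open Finset Classical

theorem card_verts_eq {U V E : Type} [DecidableEq U] [DecidableEq V] [DecidableEq E]
    (src : E → U) (tgt : E → V) (F : Finset E) :
    (verts src tgt F).card = (F.image src).card + (F.image tgt).card := by
  have : verts src tgt F = (F.image src).disjSum (F.image tgt) := by
    ext x
    rcases x with x | x
    · simp [verts, darts, vt]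
    · simp [verts, darts, vt]
  rw [this, Finset.card_disjSum]

theorem rowSp : RowSp := by
  intro D hD
  obtain ⟨C, c, hC, hc, h⟩ := exists_sparse D 0 11 hD (by norm_num)
  refine ⟨C, 2 * c, hC, by omega, fun n hn => ?_⟩
  obtain ⟨W, fW, dW, tau, -, hcard, -, hF⟩ := h n hn
  refine ⟨W, fW, tau, hcard, fun F hF' => ?_⟩
  have hd : dW = fun a b => Classical.propDecidable (a = b) := Subsingleton.elim _ _
  subst hd
  have h1 := hF F
  rw [card_verts_eq] at h1
  have e2 : (F.image (Prod.fst : W × Fin D → W)).card ≤ F.card := Finset.card_image_le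
  have e3 : (F.image fun e : W × Fin D => tau e.2 e.1).card ≤ F.card := Finset.card_image_le
  refine h1 ?_
  calc _ ≤ c * (F.card + F.card) := Nat.mul_le_mul_left _ (add_le_add e2 e3)
    _ = 2 * c * F.card := by ring
    _ ≤ n := hF'

end Pool.Agent.MP_ec946a.LR
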