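import Mathlib
import Pool.Agent.Lib.LR.Rows

/-!
# Row RV: the value of the instances
-/

set_option autoImplicit false

namespace Pool.Agent.MP_ec946a.LR

open Finset Classical

/-- A random choice of shifts makes every labeling satisfy few edges. -/
theorem exists_shift {K Λ E : Type} [AddGroup K] [Fintype K] [Fintype Λ] [Fintype E]
    (x : Λ → E → K) (y : Λ → E → K) (s : ℕ)
    (hs : Fintype.card Λ * (Fintype.card E).choose s < Fintype.card K ^ s) :
    ∃ σ : E → K, ∀ l : Λ, (univ.filter fun e => x l e + σ e = y l e).card < s := by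
  set N := Fintype.card K with hN
  have hNpos : 0 < N := Fintype.card_pos_iff.2 ⟨0⟩
  let A : Λ × Finset E → Finset (E → K) := fun p =>
    Fintype.piFinset fun e => if e ∈ p.2 then {-x p.1 e + y p.1 e} else univ
  have hA : ∀ p, (A p).card * N ^ p.2.card = N ^ (Fintype.card E) := by
    intro p
    have h1 : N ^ p.2.card = ∏ e : E, (if e ∈ p.2 then N else 1) := by
      rw [prod_ite, prod_const_one, mul_one, prod_const]
      congr 1
      congr 1
      ext e; simp
    have h2 : N ^ (Fintype.card E) = ∏ _e : E, N := by rw [prod_const, card_univ]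
    rw [h1, h2, Fintype.card_piFinset, ← prod_mul_distrib]
    apply prod_congr rfl
    intro e _
    split_ifs with he
    · rw [card_singleton, one_mul]
    · rw [mul_one, card_univ]
  set Bad : Finset (E → K) := univ.filter fun σ => ∃ l : Λ,
    s ≤ (univ.filter fun e => x l e + σ e = y l e).card with hBad
  set P : Finset (Λ × Finset E) := univ ×ˢ (powersetCard s (univ : Finset E)) with hP
  have hsub : Bad ⊆ P.biUnion A := by
    intro σ hσ
    rw [hBad, mem_filter] at hσ
    obtain ⟨_, l, hl⟩ := hσ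
    obtain ⟨S, hS, hScard⟩ := exists_subset_card_eq hl
    rw [mem_biUnion]
    refine ⟨(l, S), ?_, ?_⟩
    · rw [hP, mem_product]
      exact ⟨mem_univ _, mem_powersetCard.2 ⟨subset_univ _, hScard⟩⟩
    · simp only [A]
      rw [Fintype.mem_piFinset]
      intro e
      split_ifs with he
      · rw [mem_singleton]
        have := (mem_filter.1 (hS he)).2
        rw [← this, neg_add_cancel_left]
      · exact mem_univ _
  have hcard : Bad.card * N ^ s < N ^ (Fintype.card E) * N ^ s := by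
    calc Bad.card * N ^ s ≤ (P.biUnion A).card * N ^ s := Nat.mul_le_mul_right _ (card_le_card hsub)
      _ ≤ (∑ p ∈ P, (A p).card) * N ^ s := Nat.mul_le_mul_right _ card_biUnion_le
      _ = ∑ p ∈ P, (A p).card * N ^ s := by rw [sum_mul]
      _ = ∑ p ∈ P, (A p).card * N ^ p.2.card := by
          apply sum_congr rfl
          intro p hp
          rw [hP, mem_product, mem_powersetCard] at hp
          rw [hp.2.2]
      _ = ∑ _p ∈ P, N ^ (Fintype.card E) := sum_congr rfl fun p _ => hA p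
      _ = P.card * N ^ (Fintype.card E) := by rw [sum_const, smul_eq_mul]
      _ = (Fintype.card Λ * (Fintype.card E).choose s) * N ^ (Fintype.card E) := by
          rw [hP, card_product, card_univ, card_powersetCard, card_univ]
      _ < N ^ s * N ^ (Fintype.card E) := by
          apply Nat.mul_lt_mul_of_pos_right hs
          exact pow_pos hNpos _
      _ = N ^ (Fintype.card E) * N ^ s := mul_comm _ _
  have hlt : Bad.card < (univ : Finset (E → K)).card := by
    have h5 := Nat.lt_of_mul_lt_mul_right hcard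
    rw [card_univ, Fintype.card_fun]
    exact h5
  obtain ⟨σ, _, hσ⟩ := exists_mem_notMem_of_card_lt_card hlt
  refine ⟨σ, fun l => ?_⟩
  by_contra h
  push Not at h
  exact hσ (mem_filter.2 ⟨mem_univ _, l, h⟩)

/-- `choose n s ≤ (e / ε)^s` if `ε n ≤ s`. -/
theorem choose_le_exp_div (n s : ℕ) (ε : ℝ) (hε : 0 < ε) (hs0 : 0 < s) (hs : ε * n ≤ s) :
    ((n.choose s : ℕ) : ℝ) ≤ (Real.exp 1 / ε) ^ s := by
  have hs' : (0 : ℝ) < s := by exact_mod_cast hs0
  have hf : (0 : ℝ) < (s.factorial : ℝ) := by exact_mod_cast Nat.factorial_pos s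
  have h1 : ((n.choose s : ℕ) : ℝ) ≤ (n : ℝ) ^ s / (s.factorial : ℝ) := Nat.choose_le_pow_div s n
  have h2 : (s : ℝ) ^ s / (s.factorial : ℝ) ≤ Real.exp s :=
    Real.pow_div_factorial_le_exp (s : ℝ) hs'.le s
  have h3 : (n : ℝ) ≤ s / ε := by
    rw [le_div_iff₀ hε]; linarith [mul_comm ε (n : ℝ)]
  have h4 : (n : ℝ) ^ s ≤ (s / ε) ^ s := pow_le_pow_left₀ (Nat.cast_nonneg n) h3 s
  have h5 : Real.exp s = Real.exp 1 ^ s := by
    rw [← Real.exp_nat_mul, mul_one]
  calc ((n.choose s : ℕ) : ℝ) ≤ (n : ℝ) ^ s / (s.factorial : ℝ) := h1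
    _ ≤ (s / ε) ^ s / (s.factorial : ℝ) := div_le_div_of_nonneg_right h4 hf.le
    _ = ((s : ℝ) ^ s / (s.factorial : ℝ)) / ε ^ s := by
        rw [div_pow]; field_simp
    _ ≤ Real.exp s / ε ^ s := div_le_div_of_nonneg_right h2 (pow_pos hε s).le
    _ = (Real.exp 1 / ε) ^ s := by rw [h5, div_pow]

theorem rowV : RowV := by
  intro W K _ _ _ _ D γ tau ε hε hε1 hD hK
  set w := Fintype.card W with hw
  set κ := Fintype.card K with hκ
  set n := Fintype.card (W × Fin (D + 2)) with hn
  have hn' : n = w * (D + 2) := by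
    rw [hn, Fintype.card_prod, Fintype.card_fin]
  have hwpos : 0 < w := Fintype.card_pos
  set s := ⌊ε * (n : ℝ)⌋₊ + 1 with hs
  have hs0 : 0 < s := Nat.succ_pos _
  have hsge : ε * (n : ℝ) ≤ s := by
    rw [hs]; push_cast
    exact (Nat.lt_floor_add_one _).le
  have hs6 : 6 * w < s := by
    have h1 : (6 : ℝ) * w < ε * n := by
      rw [hn']; push_cast
      have hw' : (0 : ℝ) < w := by exact_mod_cast hwpos
      nlinarith
    have h2 : (6 : ℝ) * w < s := lt_of_lt_of_le h1 hsge
    exact_mod_cast h2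
  -- the real inequality
  have he : (1 : ℝ) < Real.exp 1 := by
    have := Real.add_one_lt_exp (x := 1) one_ne_zero
    linarith
  have hq : (1 : ℝ) < Real.exp 1 / ε := by
    rw [lt_div_iff₀ hε]; linarith
  have hκ1 : (1 : ℝ) < κ := by
    refine lt_of_lt_of_le ?_ hK
    exact one_lt_pow₀ hq two_ne_zero
  have hC := choose_le_exp_div n s ε hε hs0 hsge
  have hmain : ((κ : ℝ) ^ (3 * w)) * ((n.choose s : ℕ) : ℝ) < (κ : ℝ) ^ s := by
    apply lt_of_pow_lt_pow_left₀ 2 (by positivity)
    calc (((κ : ℝ) ^ (3 * w)) * ((n.choose s : ℕ) : ℝ)) ^ 2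
        ≤ (((κ : ℝ) ^ (3 * w)) * (Real.exp 1 / ε) ^ s) ^ 2 := by gcongr
      _ = (κ : ℝ) ^ (6 * w) * ((Real.exp 1 / ε) ^ 2) ^ s := by
          rw [mul_pow, ← pow_mul, ← pow_mul, ← pow_mul]; ring_nf
      _ ≤ (κ : ℝ) ^ (6 * w) * (κ : ℝ) ^ s := by gcongr
      _ = (κ : ℝ) ^ (6 * w + s) := (pow_add _ _ _).symm
      _ < (κ : ℝ) ^ (s * 2) := pow_lt_pow_right₀ hκ1 (by omega)
      _ = ((κ : ℝ) ^ s) ^ 2 := by rw [pow_mul]
  have hcardΛ : Fintype.card ((W → K × K) × (W → K)) = κ ^ (3 * w) := by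
    rw [Fintype.card_prod, Fintype.card_fun, Fintype.card_fun, Fintype.card_prod]
    rw [← hκ, ← hw]; ring
  have hcond : Fintype.card ((W → K × K) × (W → K)) * (Fintype.card (W × Fin (D + 2))).choose s
      < Fintype.card K ^ s := by
    rw [hcardΛ, ← hn, ← hκ]
    exact_mod_cast hmain
  obtain ⟨σ, hσ⟩ := exists_shift (K := K) (Λ := (W → K × K) × (W → K)) (E := W × Fin (D + 2))
    (fun L e => (L.1 e.1).1 + γ e.2 * (L.1 e.1).2) (fun L e => L.2 (tau e.2 e.1)) s hcond
  refine ⟨σ, ?_⟩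
  have hnpos : 0 < n := by rw [hn']; positivity
  have : Nonempty (inst γ tau σ).Labeling :=
    ⟨(fun _ => (0, 0), fun _ => (0 : K))⟩
  unfold LabelCover.value
  apply ciSup_le
  intro L
  have hE : Nat.card (inst γ tau σ).E = n := by
    rw [hn]; exact Nat.card_eq_fintype_card
  have h1 : Nat.card {e // (inst γ tau σ).Sat L e} =
      (univ.filter fun e : W × Fin (D + 2) =>
        (L.1 e.1).1 + γ e.2 * (L.1 e.1).2 + σ e = L.2 (tau e.2 e.1)).card := by
    rw [← Fintype.card_subtype]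
    exact Nat.card_eq_fintype_card
  rw [hE, h1]
  rw [div_le_iff₀ (by exact_mod_cast hnpos)]
  have h2 := hσ L
  have h3 : (univ.filter fun e : W × Fin (D + 2) =>
        (L.1 e.1).1 + γ e.2 * (L.1 e.1).2 + σ e = L.2 (tau e.2 e.1)).card ≤ ⌊ε * (n : ℝ)⌋₊ := by
    have : (univ.filter fun e : W × Fin (D + 2) =>
        (L.1 e.1).1 + γ e.2 * (L.1 e.1).2 + σ e = L.2 (tau e.2 e.1)).card < s := h2
    omega
  refine le_trans (Nat.cast_le.2 h3) (Nat.floor_le (by positivity))

end Pool.Agent.MP_ec946a.LR
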