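import Mathlib
import Pool.Agent.Lib.LR.Fin
import Pool.Agent.Lib.LR.B
import Pool.Agent.Lib.LR.S2
import Pool.Agent.Lib.LR.R2
import Pool.Agent.Lib.LR.RowR3
import Pool.Agent.Lib.LR.R4a
import Pool.Agent.Lib.LR.R4b
import Pool.Agent.Lib.LR.RA
import Pool.Agent.Lib.LR.C
import Pool.Agent.Lib.LR.F
import Pool.Agent.Lib.LR.G
import Pool.Agent.Lib.LR.RS1
import Pool.Agent.Lib.LR.Sp
import Pool.Agent.Lib.LR.V
import Pool.Agent.Lib.LR.RI
import Pool.Agent.Lib.LR.RJ
import Pool.Agent.Lib.LR.T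
import Pool.Agent.Lib.LR.RN

/-!
# LR: all rows together
-/

set_option autoImplicit false

namespace Pool.Agent.MP_ec946a.LR

theorem levels : RowA := rowA (rowB rowR2 rowR3 rowR4a rowR4b)

theorem final : Final :=
  final_of levels rowT (rowJ rowSp rowV (rowS2 rowC rowF rowG rowS1) rowI) rowN

end Pool.Agent.MP_ec946a.LR
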