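import Mathlib
import Pool.Agent.Lib.LR.QED

/-!
# LR: the final form, uniform in all parameters
-/

set_option autoImplicit false

namespace Pool.Agent.MP_ec946a.LR

open Finset

/-- a level which fits -/
lemma fit {N c n : ℕ} {M μ κ b : ℝ} (hc : 1 ≤ c) (hM : 1 ≤ M) (hμ : 1 ≤ μ ^ b) (hN : 0 < N)
    (hκ : κ * (N * (M + 5)) = 1) (h : (c : ℝ) * μ ^ b ≤ κ * n) :
    N * (c * (⌈M * μ ^ b⌉₊ + 3) + 1) ≤ n := by
  have h1 : (⌈M * μ ^ b⌉₊ : ℝ) < M * μ ^ b + 1 := Nat.ceil_lt_add_one (by positivity)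
  have hc' : (1 : ℝ) ≤ c := by exact_mod_cast hc
  have hN' : (0 : ℝ) < N := by exact_mod_cast hN
  have h2 : (c : ℝ) * (⌈M * μ ^ b⌉₊ + 3) + 1 ≤ (M + 5) * (c * μ ^ b) := by
    have h3 : (c : ℝ) * (⌈M * μ ^ b⌉₊ + 3) ≤ c * (M * μ ^ b + 4) :=
      mul_le_mul_of_nonneg_left (by linarith) (by linarith)
    have h4 : (1 : ℝ) ≤ c * μ ^ b := by nlinarith
    have h5 : (c : ℝ) ≤ c * μ ^ b := by nlinarith
    nlinarith
  have h6 : (N : ℝ) * (c * (⌈M * μ ^ b⌉₊ + 3) + 1) ≤ n := by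
    calc (N : ℝ) * (c * (⌈M * μ ^ b⌉₊ + 3) + 1) ≤ N * ((M + 5) * (c * μ ^ b)) :=
          mul_le_mul_of_nonneg_left h2 hN'.le
      _ = N * (M + 5) * (c * μ ^ b) := by ring
      _ ≤ N * (M + 5) * (κ * n) := mul_le_mul_of_nonneg_left h (by positivity)
      _ = (κ * (N * (M + 5))) * n := by ring
      _ = n := by rw [hκ, one_mul]
  exact_mod_cast h6

/-- if nothing is read, the value is one -/
lemma value_of_zero {A B : Type} {I : LabelCover A B} {q : ℕ} {G : Game q} (hI : Nonempty I.Labeling)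
    (h : I.Derives 0 G) : G.value = 1 := by
  obtain ⟨dec, -, h2⟩ := h
  obtain ⟨L⟩ := hI
  obtain ⟨e₀⟩ := G.neE
  have hq : 0 < q := (Nat.zero_le _).trans_lt (dec (Sum.inl (G.src e₀)) L).2
  have hsat : ∀ e, G.proj e (dec (Sum.inl (G.src e)) L) = dec (Sum.inr (G.tgt e)) L := by
    intro e
    obtain ⟨P, hP, h3⟩ := h2 e
    refine h3 L fun e' he' => ?_
    rw [Nat.le_zero, card_eq_zero] at hP
    rw [hP] at he'
    exact absurd he' (notMem_empty _)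
  refine le_antisymm ?_ ?_
  · have : Nonempty (Fin q) := ⟨⟨0, hq⟩⟩
    refine ciSup_le fun L' => ?_
    have h4 : (0 : ℝ) < (Nat.card G.E : ℝ) := by exact_mod_cast Nat.card_pos
    rw [div_le_one h4]
    exact_mod_cast Nat.card_le_card_of_injective (Subtype.val : G.satisfied L'.1 L'.2 → G.E)
      Subtype.val_injective
  · classical
    have h5 := SDA.value_ge_of_labeling (G := G) (fun u => dec (Sum.inl u) L)
      (fun v => dec (Sum.inr v) L)
    rw [filter_true_of_mem fun e _ => hsat e, card_univ] at h5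
    have h4 : (0 : ℝ) < (Fintype.card G.E : ℝ) := by exact_mod_cast Fintype.card_pos
    have h6 : 1 * (Fintype.card G.E : ℝ) ≤ G.value * (Fintype.card G.E : ℝ) := by
      rw [one_mul]
      exact h5
    exact le_of_mul_le_mul_right h6 h4

theorem final2 (ε : ℝ) (hε : 0 < ε) (hε1 : ε ≤ 1) :
    ∃ (A B : Type) (_ : Fintype A) (_ : Fintype B) (D C : ℕ) (κ : ℝ) (I : ℕ → LabelCover A B),
      (Nat.card A : ℝ) ≤ (100 / ε ^ 2) ^ 2 ∧ (Nat.card B : ℝ) ≤ 100 / ε ^ 2 ∧ (D : ℝ) ≤ 10 / ε ∧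
      0 < C ∧ 0 < κ ∧ ∀ n, 0 < n →
        Nat.card (I n).X = C * n ∧ Nat.card (I n).Y = C * n ∧ Nat.card (I n).E = D * (C * n) ∧
        (I n).value ≤ ε ∧
        ∀ (q : ℕ) (G : Game q) (c : ℕ), (I n).Derives c G →
          (c * (min (Nat.card G.U) (Nat.card G.V) : ℝ) ^ (7 / 8 : ℝ) ≤ κ * (C * n) →
            1 / 8 ≤ G.value) ∧
          ∀ β : ℝ, 0 < β → β ≤ 1 →
            c * (min (Nat.card G.U) (Nat.card G.V) : ℝ) ^ β ≤ κ * (C * n) →
            (β / 2) ^ (150 / β) ≤ G.value := by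
  obtain ⟨K, fK, neK, D, C, N, I, hK, hD, hC, hN0, hI⟩ :=
    rowJ rowSp rowV (rowS2 rowC rowF rowG rowS1) rowI ε hε hε1
  have hcK : (Nat.card K : ℝ) = (Fintype.card K : ℝ) := by rw [Nat.card_eq_fintype_card]
  have hC1 : (1 : ℝ) ≤ C := by exact_mod_cast hC
  have hN1 : (0 : ℝ) < N := by exact_mod_cast hN0
  refine ⟨K × K, K, inferInstance, fK, D, C, 1 / ((N * C : ℕ) * (10 ^ 8 + 5)), I, ?_, ?_, hD, hC,
    by positivity, fun n hn => ?_⟩
  · rw [Nat.card_prod, Nat.cast_mul, hcK, ← sq]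
    exact pow_le_pow_left₀ (Nat.cast_nonneg _) hK 2
  · rw [hcK]
    exact hK
  obtain ⟨h1, h2, h3, h4, h5⟩ := hI n hn
  refine ⟨h1, h2, h3, h4, fun q G c hG => ?_⟩
  have hκ : (1 / (((N * C : ℕ) : ℝ) * (10 ^ 8 + 5))) * (((N * C : ℕ) : ℝ) * (10 ^ 8 + 5)) = 1 := by
    rw [one_div, inv_mul_cancel₀]
    have : (0 : ℝ) < ((N * C : ℕ) : ℝ) := by
      exact_mod_cast Nat.mul_pos hN0 hC
    positivity
  have hμ1 : (1 : ℝ) ≤ (min (Nat.card G.U) (Nat.card G.V) : ℝ) := by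
    obtain ⟨e₀⟩ := G.neE
    have hU : 0 < Nat.card G.U := Nat.card_pos_iff.mpr ⟨⟨G.src e₀⟩, inferInstance⟩
    have hV : 0 < Nat.card G.V := Nat.card_pos_iff.mpr ⟨⟨G.tgt e₀⟩, inferInstance⟩
    exact le_min (by exact_mod_cast hU) (by exact_mod_cast hV)
  have hlab : Nonempty (I n).Labeling := ⟨(fun _ => Classical.arbitrary _, fun _ =>
    Classical.arbitrary _)⟩
  -- the level
  have hlevel : ∀ b : ℝ, 0 < b → 1 ≤ c →
      c * (min (Nat.card G.U) (Nat.card G.V) : ℝ) ^ b ≤ 1 / ((N * C : ℕ) * (10 ^ 8 + 5)) * (C * n) →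
      Nonempty (G.LevelSolution
        ⌈10 ^ 8 * (min (Nat.card G.U) (Nat.card G.V) : ℝ) ^ b⌉₊) := by
    intro b hb hc hh
    have hh' : (c : ℝ) * (min (Nat.card G.U) (Nat.card G.V) : ℝ) ^ b
        ≤ 1 / ((N * C : ℕ) * (10 ^ 8 + 5)) * ((C * n : ℕ) : ℝ) := by
      push_cast at hh ⊢
      exact hh
    have h6 := fit (M := 10 ^ 8) hc (by norm_num) (Real.one_le_rpow hμ1 hb.le)
      (Nat.mul_pos hN0 hC) hκ hh'
    have hd : N * (c * (⌈10 ^ 8 * (min (Nat.card G.U) (Nat.card G.V) : ℝ) ^ b⌉₊ + 3) + 1)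
        ≤ n := by
      have e1 : N * C * (c * (⌈10 ^ 8 * (min (Nat.card G.U) (Nat.card G.V) : ℝ) ^ b⌉₊ + 3) + 1)
          = C * (N * (c * (⌈10 ^ 8 * (min (Nat.card G.U) (Nat.card G.V) : ℝ) ^ b⌉₊ + 3)
            + 1)) := by ring
      rw [e1] at h6
      exact Nat.le_of_mul_le_mul_left h6 hC
    exact rowT _ _ (I n) _ (h5 _ hd) c _ q G hG le_rfl
  rcases Nat.eq_zero_or_pos c with hc0 | hc0
  · subst hc0
    have hv := value_of_zero hlab hG
    rw [hv]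
    refine ⟨fun _ => by norm_num, fun β hβ hβ1 _ => ?_⟩
    exact Real.rpow_le_one (by positivity) (by linarith) (by positivity)
  · refine ⟨fun hh => ?_, fun β hβ hβ1 hh => ?_⟩
    · exact levels q G _ (hlevel _ (by norm_num) hc0 hh) (Nat.le_ceil _)
    · obtain ⟨s⟩ := hlevel β hβ hc0 hh
      refine SDA.value_ge_of_min s hβ hβ1 (le_trans ?_ (Nat.le_ceil _))
      refine mul_le_mul_of_nonneg_right (by norm_num) ?_
      exact Real.rpow_nonneg (by linarith) _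

end Pool.Agent.MP_ec946a.LR
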