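import Pool.Agent.Lib.MP_ec946a_Games.Graph

/-!
# LR, row R5: sparse graphs, dual words of the stars, combinations

`N i w` is the `i`-th neighbour of the left vertex `w`.  A word `c : Fin D → K` at `w` is pushed
to a function on the right vertices.  If every nonzero word used has at least three nonzero
coordinates and the graph is locally sparse, then a combination of `m` nonzero words
(`m` small) has at least `m / 2` nonzero coordinates.
-/

set_option autoImplicit false

namespace Pool.Agent.MP_ec946a.LR

open Finset

section push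

variable {W Y K : Type} [Fintype W] [DecidableEq W] [Fintype Y] [DecidableEq Y]
  [Field K] [DecidableEq K] {D : ℕ}

/-- push a word at `w` to the right vertices -/
def push (N : Fin D → W → Y) (w : W) : (Fin D → K) →ₗ[K] (Y → K) where
  toFun c := fun y => ∑ i ∈ univ.filter (fun i => N i w = y), c i
  map_add' c d := by
    funext y
    simp [sum_add_distrib]
  map_smul' r c := by
    funext y
    simp [mul_sum]

theorem push_apply (N : Fin D → W → Y) (w : W) (c : Fin D → K) (y : Y) :
    push N w c y = ∑ i ∈ univ.filter (fun i => N i w = y), c i := rfl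

/-- pairing with `z` -/
theorem push_dot (N : Fin D → W → Y) (w : W) (c : Fin D → K) (z : Y → K) :
    ∑ y, push N w c y * z y = ∑ i, c i * z (N i w) := by
  simp only [push_apply, sum_mul]
  rw [← sum_fiberwise_of_maps_to (s := (univ : Finset (Fin D))) (t := (univ : Finset Y))
    (g := fun i => N i w) (fun _ _ => mem_univ _) (fun i => c i * z (N i w))]
  refine sum_congr rfl fun y _ => sum_congr rfl fun i hi => ?_
  rw [mem_filter] at hi
  rw [hi.2]

theorem push_support (N : Fin D → W → Y) (w : W) (c : Fin D → K) :
    (univ.filter fun y => push N w c y ≠ 0).card ≤ D := by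
  have h1 : (univ.filter fun y => push N w c y ≠ 0) ⊆ univ.image (fun i => N i w) := by
    intro y hy
    rw [mem_filter] at hy
    by_contra h
    refine hy.2 ?_
    rw [push_apply]
    refine sum_eq_zero fun i hi => ?_
    rw [mem_filter] at hi
    exact absurd (mem_image.2 ⟨i, mem_univ _, hi.2⟩) h
  refine (card_le_card h1).trans (card_image_le.trans ?_)
  simp

/-- **The count.** -/
theorem combination_count (N : Fin D → W → Y) (cc : W → Fin D → K)
    (h3 : ∀ w, cc w ≠ 0 → 3 ≤ (univ.filter fun i => cc w i ≠ 0).card)
    (hsp : 11 * (univ.filter fun e : W × Fin D => cc e.1 e.2 ≠ 0).card ≤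
      12 * (verts Prod.fst (fun e : W × Fin D => N e.2 e.1)
        (univ.filter fun e : W × Fin D => cc e.1 e.2 ≠ 0)).card) :
    (univ.filter fun w => cc w ≠ 0).card ≤
      2 * (univ.filter fun y => (∑ w, push N w (cc w)) y ≠ 0).card := by
  classical
  set F : Finset (W × Fin D) := univ.filter fun e : W × Fin D => cc e.1 e.2 ≠ 0 with hF
  set A : Finset W := univ.filter fun w => cc w ≠ 0 with hA
  set R : Finset Y := F.image fun e => N e.2 e.1 with hR
  set R1 : Finset Y := R.filter fun y => (F.filter fun e => N e.2 e.1 = y).card = 1 with hR1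
  have hAe : 3 * A.card ≤ F.card := by
    have h1 : F.card = ∑ w ∈ A, (F.filter fun e => e.1 = w).card := by
      refine card_eq_sum_card_fiberwise fun e he => ?_
      simp only [hF, coe_filter, mem_univ, true_and, Set.mem_setOf_eq] at he
      simp only [hA, coe_filter, mem_univ, true_and, Set.mem_setOf_eq]
      intro h0
      apply he
      rw [h0]; rfl
    rw [h1, mul_comm, ← smul_eq_mul]
    refine card_nsmul_le_sum _ _ _ fun w hw => ?_
    rw [hA, mem_filter] at hw
    refine (h3 w hw.2).trans ?_
    refine card_le_card_of_injOn (fun i => (w, i)) ?_ ?_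
    · intro i hi
      simp only [coe_filter, mem_univ, true_and, Set.mem_setOf_eq] at hi
      simp [hF, hi]
    · intro i _ j _ hij
      simpa using hij
  have hV : (verts Prod.fst (fun e : W × Fin D => N e.2 e.1) F).card ≤ A.card + R.card := by
    have h1 : verts Prod.fst (fun e : W × Fin D => N e.2 e.1) F ⊆
        A.image Sum.inl ∪ R.image Sum.inr := by
      intro x hx
      rw [verts, mem_image] at hx
      obtain ⟨⟨e, b⟩, hd, rfl⟩ := hx
      rw [mem_darts] at hd
      simp only at hd
      cases b
      · refine mem_union_left _ (mem_image.2 ⟨e.1, ?_, rfl⟩)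
        rw [hF, mem_filter] at hd
        rw [hA, mem_filter]
        refine ⟨mem_univ _, fun h0 => hd.2 ?_⟩
        rw [h0]; rfl
      · exact mem_union_right _ (mem_image.2 ⟨N e.2 e.1, mem_image_of_mem _ hd, rfl⟩)
    refine (card_le_card h1).trans ((card_union_le _ _).trans ?_)
    exact add_le_add card_image_le card_image_le
  have hRe : 2 * R.card ≤ R1.card + F.card := by
    have h1 : F.card = ∑ y ∈ R, (F.filter fun e => N e.2 e.1 = y).card :=
      card_eq_sum_card_image (fun e : W × Fin D => N e.2 e.1) F
    have h2 : R1.card = ∑ y ∈ R, (if (F.filter fun e => N e.2 e.1 = y).card = 1 then 1 else 0) := by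
      rw [hR1, card_filter]
    rw [h1, h2, ← sum_add_distrib, mul_comm, ← smul_eq_mul]
    refine card_nsmul_le_sum _ _ _ fun y hy => ?_
    have h3 : 1 ≤ (F.filter fun e => N e.2 e.1 = y).card := by
      rw [hR, mem_image] at hy
      obtain ⟨e, he, hey⟩ := hy
      exact card_pos.2 ⟨e, mem_filter.2 ⟨he, hey⟩⟩
    split_ifs with h
    · omega
    · omega
  have hS : R1.card ≤ (univ.filter fun y => (∑ w, push N w (cc w)) y ≠ 0).card := by
    refine card_le_card fun y hy => ?_
    rw [hR1, mem_filter] at hy
    rw [mem_filter]
    refine ⟨mem_univ _, ?_⟩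
    obtain ⟨e, he⟩ := card_eq_one.1 hy.2
    have heF : e ∈ F.filter fun e => N e.2 e.1 = y := by rw [he]; exact mem_singleton_self _
    rw [mem_filter] at heF
    have h1 : (∑ w, push N w (cc w)) y =
        ∑ e' ∈ (univ : Finset (W × Fin D)), if N e'.2 e'.1 = y then cc e'.1 e'.2 else 0 := by
      rw [Finset.sum_apply, ← univ_product_univ, sum_product]
      refine sum_congr rfl fun w _ => ?_
      rw [push_apply, sum_filter]
    rw [h1, sum_eq_single e]
    · rw [if_pos heF.2]
      have := heF.1
      rw [hF, mem_filter] at this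
      exact this.2
    · intro e' _ hne
      split_ifs with h
      · by_contra h0
        have : e' ∈ F.filter fun e => N e.2 e.1 = y := by
          rw [mem_filter]
          refine ⟨?_, h⟩
          rw [hF, mem_filter]
          exact ⟨mem_univ _, h0⟩
        rw [he, mem_singleton] at this
        exact hne this
      · rfl
    · intro h
      exact absurd (mem_univ _) h
  omega

/-- local sparsity, at the scale `n / c0` -/
def Sparse (N : Fin D → W → Y) (c0 n : ℕ) : Prop :=
  ∀ F : Finset (W × Fin D), c0 * (verts Prod.fst (fun e => N e.2 e.1) F).card ≤ n →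
    11 * F.card ≤ 12 * (verts Prod.fst (fun e => N e.2 e.1) F).card

/-- **Combinations of few nonzero words have large support.** -/
theorem combination_support (N : Fin D → W → Y) {c0 n k : ℕ} (hsp : Sparse N c0 n)
    (hk : c0 * (k * (D + 1)) ≤ n) (cc : W → Fin D → K)
    (h3 : ∀ w, cc w ≠ 0 → 3 ≤ (univ.filter fun i => cc w i ≠ 0).card)
    (hc : (univ.filter fun w => cc w ≠ 0).card ≤ k) :
    (univ.filter fun w => cc w ≠ 0).card ≤
      2 * (univ.filter fun y => (∑ w, push N w (cc w)) y ≠ 0).card := by
  classical
  refine combination_count N cc h3 (hsp _ ?_)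
  refine le_trans (Nat.mul_le_mul_left c0 ?_) hk
  set F : Finset (W × Fin D) := univ.filter fun e : W × Fin D => cc e.1 e.2 ≠ 0 with hF
  set A : Finset W := univ.filter fun w => cc w ≠ 0 with hA
  have h1 : verts Prod.fst (fun e : W × Fin D => N e.2 e.1) F ⊆
      A.image Sum.inl ∪ (A ×ˢ (univ : Finset (Fin D))).image (fun e => Sum.inr (N e.2 e.1)) := by
    intro x hx
    rw [verts, mem_image] at hx
    obtain ⟨⟨e, b⟩, hd, rfl⟩ := hx
    rw [mem_darts] at hd
    simp only at hd
    have heA : e.1 ∈ A := by
      rw [hF, mem_filter] at hd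
      rw [hA, mem_filter]
      refine ⟨mem_univ _, fun h0 => hd.2 ?_⟩
      rw [h0]; rfl
    cases b
    · exact mem_union_left _ (mem_image.2 ⟨e.1, heA, rfl⟩)
    · refine mem_union_right _ (mem_image.2 ⟨e, ?_, rfl⟩)
      rw [mem_product]
      exact ⟨heA, mem_univ _⟩
  refine (card_le_card h1).trans ((card_union_le _ _).trans ?_)
  have h2 : (A.image (Sum.inl : W → W ⊕ Y)).card ≤ k := card_image_le.trans hc
  have h4 : ((A ×ˢ (univ : Finset (Fin D))).image
      (fun e => (Sum.inr (N e.2 e.1) : W ⊕ Y))).card ≤ k * D := by
    refine card_image_le.trans ?_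
    rw [card_product, card_univ, Fintype.card_fin]
    exact Nat.mul_le_mul_right _ hc
  calc _ ≤ k + k * D := add_le_add h2 h4
    _ = k * (D + 1) := by ring

/-- the push of a nonzero word is nonzero -/
theorem push_ne_zero (N : Fin D → W → Y) {c0 n k : ℕ} (hsp : Sparse N c0 n) (hk1 : 1 ≤ k)
    (hk : c0 * (k * (D + 1)) ≤ n) (w : W) (c : Fin D → K) (hc : c ≠ 0)
    (h3 : 3 ≤ (univ.filter fun i => c i ≠ 0).card) : push N w c ≠ 0 := by
  classical
  intro h0
  set cc : W → Fin D → K := fun v => if v = w then c else 0 with hcc
  have hA : (univ.filter fun v => cc v ≠ 0) = {w} := by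
    ext v
    simp only [hcc, mem_filter, mem_univ, true_and, mem_singleton]
    constructor
    · intro h
      by_contra hv
      rw [if_neg hv] at h
      exact h rfl
    · rintro rfl
      rw [if_pos rfl]; exact hc
  have h1 := combination_support N hsp hk cc (fun v hv => ?_) (by rw [hA]; simpa using hk1)
  · rw [hA, card_singleton] at h1
    have h2 : (∑ v, push N v (cc v)) = 0 := by
      rw [sum_eq_single w]
      · simp only [hcc, if_true]; exact h0
      · intro v _ hv
        simp only [hcc, if_neg hv, map_zero]
      · intro h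
        exact absurd (mem_univ _) h
    rw [h2] at h1
    simp at h1
  · have hv' : v = w := by
      by_contra h
      simp only [hcc, if_neg h] at hv
      exact hv rfl
    subst hv'
    simpa [hcc] using h3

end push

end Pool.Agent.MP_ec946a.LR
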