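import Pool.Agent.Lib.LR.Rows

/-!
# LR, row RT: the levels of a locally derived game (helper52)
-/

set_option autoImplicit false

namespace Pool.Agent.MP_ec946a.LR

open Finset

section loc

variable {A B : Type} {I : LabelCover A B}

theorem lmono {α : Type} {c c' : ℕ} {f : I.Labeling → α} (h : I.Local c f) (hc : c ≤ c') :
    I.Local c' f := by
  obtain ⟨S, T, h1, h2⟩ := h
  exact ⟨S, T, h1.trans hc, h2⟩

theorem lconst {α : Type} (a : α) (c : ℕ) : I.Local c (fun _ => a) :=
  ⟨∅, ∅, by simp, fun _ _ _ _ => rfl⟩

theorem lmap {α β : Type} {c : ℕ} {f : I.Labeling → α} (h : I.Local c f) (φ : α → β) :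
    I.Local c (fun L => φ (f L)) := by
  obtain ⟨S, T, h1, h2⟩ := h
  exact ⟨S, T, h1, fun L L' hS hT => congrArg φ (h2 L L' hS hT)⟩

theorem lmap2 {α β γ : Type} {c c' : ℕ} {f : I.Labeling → α} {g : I.Labeling → β}
    (h : I.Local c f) (h' : I.Local c' g) (φ : α → β → γ) :
    I.Local (c + c') (fun L => φ (f L) (g L)) := by
  classical
  obtain ⟨S, T, h1, h2⟩ := h
  obtain ⟨S', T', h1', h2'⟩ := h'
  refine ⟨S ∪ S', T ∪ T', ?_, ?_⟩
  · have a := card_union_le S S'
    have b := card_union_le T T'
    omega
  · intro L L' hS hT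
    have a := h2 L L' (fun x hx => hS x (mem_union_left _ hx)) fun y hy =>
      hT y (mem_union_left _ hy)
    have b := h2' L L' (fun x hx => hS x (mem_union_right _ hx)) fun y hy =>
      hT y (mem_union_right _ hy)
    simp only
    rw [a, b]

theorem lprod {κ : Type} {c : ℕ} (S : Finset κ) (f : κ → I.Labeling → ℝ)
    (h : ∀ i ∈ S, I.Local c (f i)) : I.Local (c * S.card) (fun L => ∏ i ∈ S, f i L) := by
  classical
  induction S using Finset.induction_on with
  | empty => simpa using lconst (I := I) (1 : ℝ) 0
  | insert i S hi ih =>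
    have h1 := lmap2 (h i (mem_insert_self _ _)) (ih fun j hj => h j (mem_insert_of_mem hj))
      (fun a b => a * b)
    rw [card_insert_of_notMem hi]
    have h2 : (fun L => ∏ j ∈ insert i S, f j L) = fun L => f i L * ∏ j ∈ S, f j L := by
      funext L
      rw [prod_insert hi]
    rw [h2]
    exact lmono h1 (by rw [Nat.mul_succ]; omega)

open Classical in
theorem lsat (e : I.E) : I.Local 2 (fun L => if I.Sat L e then (1 : ℝ) else 0) := by
  refine ⟨{I.src e}, {I.tgt e}, by simp, ?_⟩
  intro L L' hS hT
  have a := hS _ (mem_singleton_self _)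
  have b := hT _ (mem_singleton_self _)
  have h : I.Sat L e ↔ I.Sat L' e := by
    unfold LabelCover.Sat
    rw [a, b]
  simp only [h]

/-- a set of satisfied edges may be inserted -/
theorem PE.sat_set {d : ℕ} (p : PE I d) (P : Finset I.E) {c : ℕ} (f : I.Labeling → ℝ)
    (hf : I.Local c f) (hc : c + 2 * P.card ≤ 2 * d) :
    (haveI := Classical.dec; p.E (fun L => if ∀ e ∈ P, I.Sat L e then f L else 0)) = p.E f := by
  classical
  induction P using Finset.induction_on generalizing c f with
  | empty => simp
  | insert e P he ih =>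
    rw [card_insert_of_notMem he] at hc
    have hg : I.Local (2 + c) (fun L => (if I.Sat L e then (1 : ℝ) else 0) * f L) :=
      lmap2 (lsat e) hf fun a b => a * b
    have h1 := ih (fun L => (if I.Sat L e then (1 : ℝ) else 0) * f L) hg (by omega)
    have h2 := p.sat e f (lmono hf (by omega))
    have h3 : ({L | I.Sat L e}.indicator f) =
        fun L => (if I.Sat L e then (1 : ℝ) else 0) * f L := by
      funext L
      by_cases h : I.Sat L e
      · rw [Set.indicator_of_mem (by exact h), if_pos h, one_mul]
      · rw [Set.indicator_of_notMem (by exact h), if_neg h, zero_mul]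
    rw [h3] at h2
    rw [← h2, ← h1]
    congr 1
    funext L
    by_cases hP : ∀ e' ∈ P, I.Sat L e'
    · by_cases h : I.Sat L e
      · have h4 : ∀ e' ∈ insert e P, I.Sat L e' := by
          intro e' he'
          rcases mem_insert.1 he' with rfl | h5
          · exact h
          · exact hP e' h5
        rw [if_pos hP, if_pos h, one_mul, if_pos]
        exact h4
      · have h4 : ¬ ∀ e' ∈ insert e P, I.Sat L e' := fun h5 => h (h5 e (mem_insert_self _ _))
        rw [if_pos hP, if_neg h, zero_mul, if_neg]
        exact h4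
    · have h4 : ¬ ∀ e' ∈ insert e P, I.Sat L e' := fun h5 =>
        hP fun e' he' => h5 e' (mem_insert_of_mem he')
      rw [if_neg hP, if_neg]
      exact h4

end loc

section trans

variable {A B : Type} {I : LabelCover A B} {q : ℕ} {G : Game q}

open Classical in
/-- the indicator of a set of assignments -/
noncomputable def ind (dec : G.U ⊕ G.V → I.Labeling → Fin q)
    (S : Finset ((G.U ⊕ G.V) × Fin q)) (L : I.Labeling) : ℝ :=
  ∏ i ∈ S, if dec i.1 L = i.2 then 1 else 0

open Classical in
theorem ind_insert [DecidableEq ((G.U ⊕ G.V) × Fin q)] (dec : G.U ⊕ G.V → I.Labeling → Fin q)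
    (i : (G.U ⊕ G.V) × Fin q) (S : Finset ((G.U ⊕ G.V) × Fin q)) (L : I.Labeling) :
    ind dec (insert i S) L = (if dec i.1 L = i.2 then 1 else 0) * ind dec S L := by
  unfold ind
  by_cases h : i ∈ S
  · rw [insert_eq_of_mem h]
    by_cases h2 : dec i.1 L = i.2
    · rw [if_pos h2, one_mul]
    · rw [if_neg h2, zero_mul]
      exact prod_eq_zero h (if_neg h2)
  · exact prod_insert h

theorem ind_local {c : ℕ} {dec : G.U ⊕ G.V → I.Labeling → Fin q}
    (h : ∀ x, I.Local c (dec x)) (S : Finset ((G.U ⊕ G.V) × Fin q)) :
    I.Local (c * S.card) (ind dec S) := by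
  classical
  exact lprod S _ fun i _ => lmap (h i.1) fun a => if a = i.2 then (1 : ℝ) else 0

theorem ind_sq (dec : G.U ⊕ G.V → I.Labeling → Fin q) (S : Finset ((G.U ⊕ G.V) × Fin q))
    (L : I.Labeling) : ind dec S L * ind dec S L = ind dec S L := by
  unfold ind
  rw [← prod_mul_distrib]
  refine prod_congr rfl fun i _ => ?_
  split_ifs <;> simp

theorem ind_zero (dec : G.U ⊕ G.V → I.Labeling → Fin q) {S : Finset ((G.U ⊕ G.V) × Fin q)}
    {L : I.Labeling} {i : (G.U ⊕ G.V) × Fin q} (hi : i ∈ S) (h : dec i.1 L ≠ i.2) :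
    ind dec S L = 0 := prod_eq_zero hi (if_neg h)

end trans

/-- **Row RT.** -/
theorem rowT : RowT := by
  classical
  rintro A B I d ⟨p⟩ c t q G ⟨dec, hdec, hedge⟩ hd
  have hct : ∀ s, s ≤ t + 2 → c * s ≤ d := fun s hs =>
    (Nat.mul_le_mul_left c (by omega : s ≤ t + 3)).trans hd
  have hins : ∀ (i : (G.U ⊕ G.V) × Fin q) (S : Finset ((G.U ⊕ G.V) × Fin q)) (L : I.Labeling),
      ind dec (insert i S) L = (if dec i.1 L = i.2 then 1 else 0) * ind dec S L := by
    intro i S L
    have := ind_insert dec i S L
    convert this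
  have hcard : ∀ (i : (G.U ⊕ G.V) × Fin q) (S : Finset ((G.U ⊕ G.V) × Fin q)) (m : ℕ),
      S.card ≤ m → (insert i S).card ≤ m + 1 := fun i S m h =>
    (card_insert_le i S).trans (by omega)
  refine ⟨{
    y := fun S => if S.card ≤ t + 2 then p.E (ind dec S) else 0
    empty := ?_
    nonneg := ?_
    sum := ?_
    conflict := ?_
    edge := ?_
    psd := ?_ }⟩
  · simp only [card_empty, Nat.zero_le, if_true]
    have h : ind dec (∅ : Finset ((G.U ⊕ G.V) × Fin q)) = fun _ : I.Labeling => (1 : ℝ) := by
      funext L
      simp [ind]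
    rw [h, p.one]
  · intro S hS
    simp only [if_pos hS]
    have h := p.psd Unit (fun _ => ind dec S) fun _ => lmono (ind_local hdec S) (hct _ hS)
    have h1 : (fun L : I.Labeling => (∑ _i : Unit, ind dec S L) ^ 2) = ind dec S := by
      funext L
      rw [Fintype.sum_unique, sq, ind_sq]
    rwa [h1] at h
  · intro S x hS
    have h1 : ∀ a : Fin q, (insert (x, a) S).card ≤ t + 2 := fun a => hcard _ _ _ hS
    have h2 : S.card ≤ t + 2 := by omega
    have h3 : (∑ a, if (insert (x, a) S).card ≤ t + 2 then p.E (ind dec (insert (x, a) S)) else 0)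
        = ∑ a, p.E (ind dec (insert (x, a) S)) :=
      sum_congr rfl fun a _ => if_pos (h1 a)
    have h4 : (∑ a, ind dec (insert (x, a) S)) = ind dec S := by
      funext L
      rw [Finset.sum_apply]
      simp only [hins]
      rw [← Finset.sum_mul]
      simp
    simp only [if_pos h2]
    rw [← h4, map_sum]
    convert h3
  · intro S x a b hab ha hb
    have h : ind dec S = 0 := by
      funext L
      by_cases h1 : dec x L = a
      · exact ind_zero dec hb (by simp only; rw [h1]; exact hab)
      · exact ind_zero dec ha h1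
    simp only [h, map_zero, ite_self]
  · intro S e a b hab ha hb
    by_cases hS : S.card ≤ t + 2
    · simp only [if_pos hS]
      obtain ⟨P, hP, hPe⟩ := hedge e
      have h1 := p.sat_set P (ind dec S) (ind_local hdec S) (by
        have h5 : c * S.card ≤ c * (t + 2) := Nat.mul_le_mul_left c hS
        have h6 : c * (t + 3) = c * (t + 2) + c := by ring
        have h7 : 0 ≤ c * (t + 2) := Nat.zero_le _
        omega)
      rw [← h1]
      have h2 : (fun L => if ∀ e ∈ P, I.Sat L e then ind dec S L else 0) =
          (0 : I.Labeling → ℝ) := by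
        funext L
        by_cases h3 : ∀ e ∈ P, I.Sat L e
        · rw [if_pos h3]
          have h4 := hPe L h3
          by_cases h5 : dec (Sum.inl (G.src e)) L = a
          · refine ind_zero dec hb ?_
            simp only
            rw [← h4, h5]
            exact hab
          · exact ind_zero dec ha h5
        · rw [if_neg h3]
          rfl
      have h3 := congrArg p.E h2
      rw [map_zero] at h3
      convert h3
    · simp only [if_neg hS]
  · intro S hS cf
    have h1 : ∀ i j : (G.U ⊕ G.V) × Fin q, (insert i (insert j S)).card ≤ t + 2 := fun i j =>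
      hcard _ _ _ (hcard _ _ _ hS)
    have h2 := p.psd ((G.U ⊕ G.V) × Fin q) (fun i L => cf i * ind dec (insert i S) L) fun i =>
      lmono (lmap (ind_local hdec (insert i S)) fun a => cf i * a)
        (hct _ ((hcard i S _ hS).trans (by omega)))
    have h3 : (fun L : I.Labeling => (∑ i, cf i * ind dec (insert i S) L) ^ 2) =
        ∑ i, ∑ j, (cf i * cf j) • ind dec (insert i (insert j S)) := by
      funext L
      rw [Finset.sum_apply, sq, Finset.sum_mul]
      refine sum_congr rfl fun i _ => ?_
      rw [Finset.sum_apply, Finset.mul_sum]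
      refine sum_congr rfl fun j _ => ?_
      rw [Pi.smul_apply, smul_eq_mul, hins i (insert j S), hins j S, hins i S]
      have h4 := ind_sq dec S L
      calc cf i * ((if dec i.1 L = i.2 then 1 else 0) * ind dec S L) *
            (cf j * ((if dec j.1 L = j.2 then 1 else 0) * ind dec S L))
          = cf i * cf j * ((if dec i.1 L = i.2 then 1 else 0) * ((if dec j.1 L = j.2 then 1 else 0)
            * (ind dec S L * ind dec S L))) := by ring
        _ = _ := by rw [h4]
    rw [h3, map_sum] at h2
    refine h2.trans_eq (sum_congr rfl fun i _ => ?_)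
    rw [map_sum]
    refine sum_congr rfl fun j _ => ?_
    rw [map_smul, smul_eq_mul]
    congr 1
    exact (if_pos (h1 i j)).symm

end Pool.Agent.MP_ec946a.LR
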